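import Mathlib
import Pool.Agent.W214.RK2.Desc4
import Pool.Agent.W612.SE.Seld
import Pool.Agent.W342.RK2.LocL
import Pool.Agent.W307.RS.Stm
import Pool.Agent.TH841.PT.Stm

set_option autoImplicit false

/-!
# Counting squarefree integers with local conditions
-/

namespace Pool.Agent.Y668

open Finset Pool.Agent.W262.RK Pool.Agent.W214.RK2 Pool.Agent.W599.RK Pool.Agent.W612.SE

/-- as `SELD`, for an abstract set of pairs -/
theorem seldA (m : ℕ) (L : ℕ → Bool → Bool → Bool → Bool → Prop) (OP : Finset ℕ)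
    (S : Set (ℤ × ℤ)) (hm : Squarefree m) (hL : ∀ p, p.Prime → p ∣ m → XC (L p))
    (hsq : ∀ d ∈ S, Squarefree d.1 ∧ Squarefree d.2)
    (hout : ∀ d ∈ S, ∀ q : ℕ, q.Prime → q ∉ OP → ¬ q ∣ m → ¬ (q : ℤ) ∣ d.1 ∧ ¬ (q : ℤ) ∣ d.2)
    (hloc : ∀ d ∈ S, ∀ p : ℕ, p.Prime → p ∣ m → L p (dv p d.1) (dv p d.2) (sgn p d.1) (sgn p d.2)) :
    S.Finite ∧ S.ncard ≤ 4 ^ (OP.card + 1) * NL m L := by
  classical
  set F : Finset (ℕ × ℕ) := (m.divisors ×ˢ m.divisors).filter (fun d : ℕ × ℕ =>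
    ∀ p ∈ m.primeFactors, L p (dv p d.1) (dv p d.2) (sgn p d.1) (sgn p d.2)) with hF
  have hFcard : F.card = NL m L := by
    unfold NL
    rw [hF]
  -- comparison of two pairs with the same outer data
  have hcmp : ∀ d d' : ℤ × ℤ, d ∈ S → d' ∈ S → outs OP d = outs OP d' →
      (0 < d.1 ↔ 0 < d'.1) ∧ (0 < d.2 ↔ 0 < d'.2) ∧
      (∀ q : ℕ, q.Prime → ¬ q ∣ m →
        ((q : ℤ) ∣ d.1 ↔ (q : ℤ) ∣ d'.1) ∧ ((q : ℤ) ∣ d.2 ↔ (q : ℤ) ∣ d'.2)) := by
    intro d d' hd hd' ho
    have h1 : decide (0 < d.1) = decide (0 < d'.1) := congrArg Prod.fst ho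
    have h23 := congrArg Prod.snd ho
    have h2 : decide (0 < d.2) = decide (0 < d'.2) := congrArg Prod.fst h23
    have h3 := congrArg Prod.snd h23
    refine ⟨decide_eq_decide.mp h1, decide_eq_decide.mp h2, fun q hq hqm => ?_⟩
    by_cases hD : q ∈ OP
    · have h4 := congrFun h3 ⟨q, hD⟩
      have h5 : decide ((q : ℤ) ∣ d.1) = decide ((q : ℤ) ∣ d'.1) := congrArg Prod.fst h4
      have h6 : decide ((q : ℤ) ∣ d.2) = decide ((q : ℤ) ∣ d'.2) := congrArg Prod.snd h4
      exact ⟨decide_eq_decide.mp h5, decide_eq_decide.mp h6⟩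
    · obtain ⟨a1, a2⟩ := hout d hd q hq hD hqm
      obtain ⟨b1, b2⟩ := hout d' hd' q hq hD hqm
      exact ⟨⟨fun h => absurd h a1, fun h => absurd h b1⟩,
        ⟨fun h => absurd h a2, fun h => absurd h b2⟩⟩
  -- the local data
  have hdat : ∀ a b : ℤ, Squarefree a → Squarefree b → (0 < a ↔ 0 < b) →
      (∀ q : ℕ, q.Prime → ¬ q ∣ m → ((q : ℤ) ∣ a ↔ (q : ℤ) ∣ b)) →
      ∀ p : ℕ, p.Prime → dv p (dd m a b) = xor (dv p a) (dv p b) ∧
        sgn p (dd m a b) = xor (sgn p a) (sgn p b) := by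
    intro a b ha hb hs hv p hp
    have h1 := dd_sq m hm (a : ℚ) (b : ℚ) (by exact_mod_cast ha.ne_zero)
      (by exact_mod_cast hb.ne_zero) (by exact_mod_cast hs) (by
        intro q hq hqm
        rw [even_val a ha q hq, even_val b hb q hq, hv q hq hqm])
    have h2 : IsSquare (a * b * ((dd m a b : ℕ) : ℤ)) := by
      rw [← Rat.isSquare_intCast_iff]
      push_cast
      exact h1
    exact key p hp a b _ ha hb
      (Int.squarefree_natCast.mpr (hm.squarefree_of_dvd (dd_dvd m hm a b))) h2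
  have hFmem : ∀ d d' : ℤ × ℤ, d ∈ S → d' ∈ S → outs OP d = outs OP d' →
      (dd m d.1 d'.1, dd m d.2 d'.2) ∈ F := by
    intro d d' hd hd' ho
    obtain ⟨c1, c2, c3⟩ := hcmp d d' hd hd' ho
    rw [hF, Finset.mem_filter, Finset.mem_product]
    refine ⟨⟨Nat.mem_divisors.mpr ⟨dd_dvd m hm _ _, hm.ne_zero⟩,
      Nat.mem_divisors.mpr ⟨dd_dvd m hm _ _, hm.ne_zero⟩⟩, fun p hp => ?_⟩
    rw [Nat.mem_primeFactors] at hp
    have l1 := hloc d hd p hp.1 hp.2.1
    have l2 := hloc d' hd' p hp.1 hp.2.1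
    obtain ⟨k1, k2⟩ := hdat d.1 d'.1 (hsq d hd).1 (hsq d' hd').1 c1
      (fun q hq hqm => (c3 q hq hqm).1) p hp.1
    obtain ⟨k3, k4⟩ := hdat d.2 d'.2 (hsq d hd).2 (hsq d' hd').2 c2
      (fun q hq hqm => (c3 q hq hqm).2) p hp.1
    show L p (dv p (dd m d.1 d'.1)) (dv p (dd m d.2 d'.2))
      (sgn p (dd m d.1 d'.1)) (sgn p (dd m d.2 d'.2))
    rw [k1, k2, k3, k4]
    exact (hL p hp.1 hp.2.1).2 _ _ _ _ _ _ _ _ l1 l2
  -- the counting map
  by_cases hne : S.Nonempty
  · have : Nonempty S := hne.to_subtype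
    obtain ⟨rep, hrep⟩ : ∃ rep : Out OP → S, ∀ d : S,
        outs OP (rep (outs OP d.1)).1 = outs OP d.1 :=
      ⟨Function.invFun (fun d : S => outs OP d.1), fun d =>
        Function.invFun_eq (f := fun d : S => outs OP d.1) ⟨d, rfl⟩⟩
    obtain ⟨kk, hkk⟩ : ∃ kk : S → Out OP × (ℕ × ℕ), ∀ d : S,
        kk d = (outs OP d.1, (dd m d.1.1 (rep (outs OP d.1)).1.1,
          dd m d.1.2 (rep (outs OP d.1)).1.2)) := ⟨_, fun d => rfl⟩
    have hmem : ∀ d : S, kk d ∈ (Finset.univ : Finset (Out OP)) ×ˢ F := by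
      intro d
      rw [hkk, Finset.mem_product]
      exact ⟨Finset.mem_univ _, hFmem d.1 _ d.2 (rep _).2 (hrep d).symm⟩
    have hinj : Function.Injective kk := by
      intro d e hde
      rw [hkk, hkk] at hde
      have h1 : outs OP d.1 = outs OP e.1 := congrArg Prod.fst hde
      have h2 := congrArg (fun z => z.2.1) hde
      have h3 := congrArg (fun z => z.2.2) hde
      simp only at h2 h3
      rw [← h1] at h2 h3
      obtain ⟨c1, c2, c3⟩ := hcmp d.1 e.1 d.2 e.2 h1
      obtain ⟨u1, u2, u3⟩ := hcmp d.1 _ d.2 (rep (outs OP d.1)).2 (hrep d).symm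
      obtain ⟨v1, v2, v3⟩ := hcmp e.1 (rep (outs OP d.1)).1 e.2 (rep (outs OP d.1)).2
        (h1.symm.trans (hrep d).symm)
      apply Subtype.ext
      apply Prod.ext
      · apply eq_of_dvd _ _ (hsq _ d.2).1 (hsq _ e.2).1 c1
        intro p hp
        have k1 := (hdat d.1.1 _ (hsq _ d.2).1 (hsq _ (rep (outs OP d.1)).2).1 u1
          (fun q hq hqm => (u3 q hq hqm).1) p hp).1
        have k2 := (hdat e.1.1 _ (hsq _ e.2).1 (hsq _ (rep (outs OP d.1)).2).1 v1
          (fun q hq hqm => (v3 q hq hqm).1) p hp).1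
        rw [h2, k2] at k1
        revert k1
        generalize dv p d.1.1 = a
        generalize dv p e.1.1 = b
        generalize dv p (rep (outs OP d.1)).1.1 = c
        cases a <;> cases b <;> cases c <;> simp
      · apply eq_of_dvd _ _ (hsq _ d.2).2 (hsq _ e.2).2 c2
        intro p hp
        have k1 := (hdat d.1.2 _ (hsq _ d.2).2 (hsq _ (rep (outs OP d.1)).2).2 u2
          (fun q hq hqm => (u3 q hq hqm).2) p hp).1
        have k2 := (hdat e.1.2 _ (hsq _ e.2).2 (hsq _ (rep (outs OP d.1)).2).2 v2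
          (fun q hq hqm => (v3 q hq hqm).2) p hp).1
        rw [h3, k2] at k1
        revert k1
        generalize dv p d.1.2 = a
        generalize dv p e.1.2 = b
        generalize dv p (rep (outs OP d.1)).1.2 = c
        cases a <;> cases b <;> cases c <;> simp
    have hfin : Finite S := by
      exact Finite.of_injective
        (fun d : S => (⟨kk d, hmem d⟩ :
          {z // z ∈ (Finset.univ : Finset (Out OP)) ×ˢ F}))
        (fun d e hde => hinj (congrArg Subtype.val hde))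
    refine ⟨Set.toFinite _, ?_⟩
    have hcard : S.ncard ≤ ((Finset.univ : Finset (Out OP)) ×ˢ F).card := by
      rw [← Nat.card_coe_set_eq]
      have := Fintype.ofFinite S
      rw [Nat.card_eq_fintype_card, ← Finset.card_univ]
      exact Finset.card_le_card_of_injOn kk (fun d _ => hmem d) hinj.injOn
    refine hcard.trans ?_
    rw [Finset.card_product, Finset.card_univ, card_out, hFcard]
  · rw [Set.not_nonempty_iff_eq_empty] at hne
    rw [hne]
    exact ⟨Set.finite_empty, by simp⟩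

/-! ### The set of the classes -/

open Pool.Agent.W307.RT Pool.Agent.W307.RS Pool.Agent.TH841.PT

/-- the local conditions at the primes `p > z0`: the class is unramified at the primes that do not
divide `d` and at those of type N; at a prime of type R that divides `d` once it belongs to a
subgroup of order two -/
def Lz (z0 : ℕ) (τ σ : ℕ → Bool) (d z : ℤ) : Prop :=
  ∀ p : ℕ, p.Prime → z0 < p → (¬ (p : ℤ) ∣ d → dv p z = false) ∧
    ((p : ℤ) ∣ d → ¬ (p : ℤ) ^ 2 ∣ d → (τ p = false → dv p z = false) ∧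
      (τ p = true → sgn p z = (dv p z && xor (sg0 p (d / p)) (σ p))))

/-- the squarefree integers with the local conditions -/
def Zs (z0 : ℕ) (τ σ : ℕ → Bool) (d : ℤ) : Set ℤ := {z | Squarefree z ∧ Lz z0 τ σ d z}

/-- the part of type R -/
def sR (τ : ℕ → Bool) (s : ℕ) : ℕ := ∏ p ∈ s.primeFactors.filter (fun p => τ p = true), p

/-- the twisted signs -/
def tw (τ σ : ℕ → Bool) (s : ℕ) (E : Finset ℕ) : Finset ℕ :=
  (s.primeFactors.filter (fun p => τ p = true)).filter (fun p => xor (decide (p ∈ E)) (σ p) = true)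

/-- the constants -/
def κ0 : Unit → Fin 3 → ℤ := fun _ => ![1, -3, 4]

lemma κ0_ne (j : Unit) (i : Fin 3) : κ0 j i ≠ 0 := by
  unfold κ0
  fin_cases i <;> norm_num

lemma κ0_le (j : Unit) (i : Fin 3) : (κ0 j i).natAbs ≤ 4 := by
  unfold κ0
  fin_cases i <;> norm_num

lemma sR_squarefree (τ : ℕ → Bool) (s : ℕ) : Squarefree (sR τ s) := by
  unfold sR
  refine Finset.squarefree_prod_of_pairwise_isCoprime ?_ ?_
  · intro p hp q hq hpq
    rw [Function.onFun, ← Nat.coprime_iff_isRelPrime]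
    exact (Nat.coprime_primes (Nat.prime_of_mem_primeFactors (mem_filter.1 hp).1)
      (Nat.prime_of_mem_primeFactors (mem_filter.1 hq).1)).2 hpq
  · intro p hp
    exact (Nat.prime_of_mem_primeFactors (mem_filter.1 hp).1).prime.squarefree

lemma prime_dvd_sR {τ : ℕ → Bool} {s p : ℕ} (hp : p.Prime) :
    p ∣ sR τ s ↔ p ∈ s.primeFactors ∧ τ p = true := by
  unfold sR
  rw [prime_dvd_prodS (fun q hq => Nat.prime_of_mem_primeFactors (mem_filter.1 hq).1) hp,
    mem_filter]

/-- **the number of the classes** -/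
theorem zs_card {z0 z y X k B : ℕ} (hz0 : z0 ≤ z) (hz4 : 4 ≤ z) (τ σ : ℕ → Bool) {d : ℤ}
    (hd : d ≠ 0) (hb : d.natAbs ≤ X ^ B) (hX : 1 ≤ X) (hy : 1 ≤ y) (hk : X < (y + 1) ^ k) :
    (Zs z0 τ σ d).Finite ∧ (Zs z0 τ σ d).ncard ≤ 4 ^ (z + 2) * (4 ^ B) ^ k *
      4 ^ (S2 z y (fun _ : Unit => d) ()).primeFactors.card *
      NL (sR τ (S1 z y (fun _ : Unit => d) ()))
        (LLs (c3 Unit) κ0 (fun _ => sR τ (S1 z y (fun _ : Unit => d) ()))
          (tw τ σ (S1 z y (fun _ : Unit => d) ()) (ngs d (S1 z y (fun _ : Unit => d) ())))) := by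
  classical
  set s := S1 z y (fun _ : Unit => d) () with hs
  set v := S2 z y (fun _ : Unit => d) () with hv
  have hmems : ∀ p : ℕ, p.Prime → (p ∣ s ↔ p ∈ PS z y ∧ (p : ℤ) ∣ d ∧ ¬ (p : ℤ) ^ 2 ∣ d) := by
    intro p hp
    rw [hs]
    unfold S1
    rw [prime_dvd_prodS (fun q hq => (mem_PS.1 (mem_filter.1 hq).1).2) hp, mem_filter]
  have hmemv : ∀ p : ℕ, p.Prime → (p ∣ v ↔ p ∈ PS z y ∧ (p : ℤ) ^ 2 ∣ d) := by
    intro p hp
    rw [hv]
    unfold S2
    rw [prime_dvd_prodS (fun q hq => (mem_PS.1 (mem_filter.1 hq).1).2) hp, mem_filter]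
  have hs0 : s ≠ 0 := by
    rw [hs]
    unfold S1
    exact prod_ne_zero_iff.2 fun q hq => (mem_PS.1 (mem_filter.1 hq).1).2.ne_zero
  have hv0 : v ≠ 0 := by
    rw [hv]
    unfold S2
    exact prod_ne_zero_iff.2 fun q hq => (mem_PS.1 (mem_filter.1 hq).1).2.ne_zero
  set OP : Finset ℕ := Icc 1 z ∪ v.primeFactors ∪ d.natAbs.primeFactors.filter (fun q => y < q)
    with hOP
  set S : Set (ℤ × ℤ) := (fun w : ℤ => (w, (1 : ℤ))) '' Zs z0 τ σ d with hS
  have hinj : Function.Injective (fun w : ℤ => (w, (1 : ℤ))) := fun a b h => congrArg Prod.fst h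
  have h1dv : ∀ p : ℕ, p.Prime → ¬ (p : ℤ) ∣ 1 := by
    intro p hp h
    have := Int.eq_one_of_dvd_one (by positivity) h
    exact hp.one_lt.ne' (by exact_mod_cast this)
  have hmain := seldA (sR τ s) (LLs (c3 Unit) κ0 (fun _ => sR τ s) (tw τ σ s (ngs d s))) OP S
    (sR_squarefree τ s) (fun p hp hps => ?_) (fun w hw => ?_) (fun w hw q hq hqO hqs => ?_)
    (fun w hw p hp hps => ?_)
  · obtain ⟨hf, hc⟩ := hmain
    have hfin : (Zs z0 τ σ d).Finite := (Set.finite_image_iff hinj.injOn).1 hf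
    refine ⟨hfin, ?_⟩
    rw [hS, Set.ncard_image_of_injective _ hinj] at hc
    refine hc.trans (Nat.mul_le_mul_right _ ?_)
    -- the number of the outer primes
    have hbig : (d.natAbs.primeFactors.filter (fun q => y < q)).card ≤ B * k := by
      set T := d.natAbs.primeFactors.filter (fun q => y < q) with hT
      have h1 : (y + 1) ^ T.card ≤ d.natAbs := by
        calc (y + 1) ^ T.card ≤ ∏ q ∈ T, q := by
              rw [← prod_const]
              exact prod_le_prod' fun q hq => (mem_filter.1 hq).2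
          _ ≤ ∏ q ∈ d.natAbs.primeFactors, q :=
              prod_le_prod_of_subset_of_one_le' (filter_subset _ _) fun q hq _ =>
                (Nat.prime_of_mem_primeFactors hq).one_le
          _ ≤ d.natAbs := Nat.le_of_dvd (Int.natAbs_pos.2 hd) (Nat.prod_primeFactors_dvd _)
      have h2 : (y + 1) ^ T.card ≤ (y + 1) ^ (B * k) := by
        refine (h1.trans hb).trans ?_
        calc X ^ B ≤ ((y + 1) ^ k) ^ B := Nat.pow_le_pow_left hk.le B
          _ = (y + 1) ^ (B * k) := by rw [← pow_mul, mul_comm]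
      exact (Nat.pow_le_pow_iff_right (by omega)).1 h2
    have hcard : OP.card ≤ z + v.primeFactors.card + B * k := by
      have h1 := card_union_le (Icc 1 z ∪ v.primeFactors)
        (d.natAbs.primeFactors.filter (fun q => y < q))
      have h2 := card_union_le (Icc 1 z) v.primeFactors
      rw [Nat.card_Icc] at h2
      rw [← hOP] at h1
      omega
    calc 4 ^ (OP.card + 1) ≤ 4 ^ ((z + 2) + B * k + v.primeFactors.card) :=
          Nat.pow_le_pow_right (by norm_num) (by omega)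
      _ = _ := by rw [pow_add, pow_add, pow_mul]
  · -- the subgroup
    rw [prime_dvd_sR hp] at hps
    have hpS : p ∣ s := Nat.dvd_of_mem_primeFactors hps.1
    have hzp : z < p := (mem_PS.1 ((hmems p hp).1 hpS).1).1.1
    have hκ : ∀ j k, ¬ (p : ℤ) ∣ κ0 j k := by
      intro j k h
      have h1 := Nat.le_of_dvd (Int.natAbs_pos.2 (κ0_ne j k)) (Int.natCast_dvd.1 h)
      have h2 := κ0_le j k
      omega
    exact ⟨fun j hj => (Pool.Agent.W342.RK2.xcl _ _ _ p hp (by omega) (hκ j)).1,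
      fun a1 b1 c1 d1 a2 b2 c2 d2 e1 e2 j hj =>
        (Pool.Agent.W342.RK2.xcl _ _ _ p hp (by omega) (hκ j)).2 a1 b1 c1 d1 a2 b2 c2 d2
          (e1 j hj) (e2 j hj)⟩
  · obtain ⟨w', hw', rfl⟩ := hw
    exact ⟨hw'.1, squarefree_one⟩
  · obtain ⟨w', hw', rfl⟩ := hw
    refine ⟨?_, h1dv q hq⟩
    rw [hOP, mem_union, mem_union, mem_Icc, mem_filter] at hqO
    push Not at hqO
    obtain ⟨⟨hq1, hq2⟩, hq3⟩ := hqO
    have hqz : z < q := hq1 hq.one_le
    obtain ⟨hL1, hL2⟩ := hw'.2 q hq (by omega)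
    have hgoal : dv q w' = false → ¬ (q : ℤ) ∣ w' := by
      intro h h2
      unfold dv at h
      simp [h2] at h
    apply hgoal
    by_cases hqd : (q : ℤ) ∣ d
    · have hqy : q ≤ y := hq3 (by
        rw [Nat.mem_primeFactors]
        exact ⟨hq, Int.natCast_dvd.1 hqd, Int.natAbs_ne_zero.2 hd⟩)
      have hPS : q ∈ PS z y := mem_PS.2 ⟨⟨hqz, hqy⟩, hq⟩
      have hq2d : ¬ (q : ℤ) ^ 2 ∣ d := by
        intro h
        apply hq2
        rw [Nat.mem_primeFactors]
        exact ⟨hq, (hmemv q hq).2 ⟨hPS, h⟩, hv0⟩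
      apply (hL2 hqd hq2d).1
      by_contra hτ
      apply hqs
      rw [prime_dvd_sR hq, Nat.mem_primeFactors]
      exact ⟨⟨hq, (hmems q hq).2 ⟨hPS, hqd, hq2d⟩, hs0⟩, by simpa using hτ⟩
    · exact hL1 hqd
  · obtain ⟨w', hw', rfl⟩ := hw
    have hps' := (prime_dvd_sR hp).1 hps
    have hpS : p ∣ s := Nat.dvd_of_mem_primeFactors hps'.1
    obtain ⟨hPS, hpd, hpd2⟩ := (hmems p hp).1 hpS
    have hzp : z < p := (mem_PS.1 hPS).1.1
    have hF : Fact p.Prime := ⟨hp⟩
    have h3 := ((hw'.2 p hp (by omega)).2 hpd hpd2).2 hps'.2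
    intro j _
    have hd1 : dv p 1 = false := by
      unfold dv
      simpa using h1dv p hp
    have hs1 : sgn p 1 = false := by
      rw [Pool.Agent.W342.RK2.sgn_unit (h1dv p hp), Pool.Agent.W342.RK2.sg0_one]
    have hng : decide (p ∈ tw τ σ s (ngs d s)) = xor (sg0 p (d / p)) (σ p) := by
      have h4 : (p ∈ tw τ σ s (ngs d s)) ↔ (xor (sg0 p (d / p)) (σ p)) = true := by
        unfold tw
        rw [mem_filter, mem_filter]
        have h5 : decide (p ∈ ngs d s) = sg0 p (d / p) := by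
          unfold ngs sg0
          rw [decide_eq_decide, mem_filter]
          exact ⟨fun h => h.2, fun h => ⟨hps'.1, h⟩⟩
        rw [h5]
        exact ⟨fun h => h.2, fun h => ⟨⟨hps'.1, hps'.2⟩, h⟩⟩
      by_cases h6 : (xor (sg0 p (d / p)) (σ p)) = true
      · rw [h6]
        exact decide_eq_true (h4.2 h6)
      · have h7 : (xor (sg0 p (d / p)) (σ p)) = false := by simpa using h6
        rw [h7]
        exact decide_eq_false (fun h => h6 (h4.1 h))
    have h04 : sg0 p (κ0 j 0) = false := by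
      have : κ0 j 0 = 1 := rfl
      rw [this, Pool.Agent.W342.RK2.sg0_one]
    have h44 : sg0 p (κ0 j 0 * κ0 j 2) = false := by
      have h2 : κ0 j 0 * κ0 j 2 = 2 * 2 := rfl
      have hp2 : ¬ (p : ℤ) ∣ 2 := by
        intro h
        have := Int.le_of_dvd (by norm_num) h
        omega
      rw [h2, Pool.Agent.W342.RK2.sg0_mul hp2 hp2]
      simp
    show LL (c3 Unit j) (κ0 j) (decide (p ∈ tw τ σ s (ngs d s))) p (dv p w') (dv p 1) (sgn p w')
      (sgn p 1)
    rw [show c3 Unit j = 3 from rfl, hd1, hs1, hng, h3]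
    unfold LL
    rw [if_neg (by decide), if_neg (by decide), if_neg (by decide), h04, h44]
    constructor
    · simp
    · simp

end Pool.Agent.Y668
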