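import Mathlib
import Pool.Agent.TH841.PT.Stm2
import Pool.Agent.TH841.PT.GDP
import Pool.Agent.TH841.PT.Mak

/-!
# The primes with a root of `D` modulo which `b` is a square
-/

set_option autoImplicit false

namespace Pool.Agent.Y668

open Finset Polynomial Pool.Agent.W262.RK Pool.Agent.TH841.PT

open Pool.Agent.H474R2.PG (rho)

/-- the expansion of `D (x + s √b)` -/
lemma exists_AB (b s : ℤ) (D : ℤ[X]) : ∃ A B : ℤ[X], ∀ (R : Type) [CommRing R] (x r : R),
    r ^ 2 = (b : R) → aeval (x + s * r) D = aeval x A + aeval x B * r := by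
  induction D using Polynomial.induction_on with
  | C a =>
    refine ⟨C a, 0, fun R _ x r _ => ?_⟩
    simp
  | add p q hp hq =>
    obtain ⟨A, B, h⟩ := hp
    obtain ⟨A', B', h'⟩ := hq
    refine ⟨A + A', B + B', fun R _ x r hr => ?_⟩
    rw [map_add, h R x r hr, h' R x r hr, map_add, map_add]
    ring
  | monomial n a hn =>
    obtain ⟨A, B, h⟩ := hn
    refine ⟨A * X + C (s * b) * B, B * X + C s * A, fun R _ x r hr => ?_⟩
    rw [pow_succ, ← mul_assoc, map_mul, h R x r hr, aeval_X]
    simp only [map_add, map_mul, aeval_X, eq_intCast, map_intCast]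
    linear_combination (aeval x B * s) * hr

lemma map_aeval {R S : Type} [CommRing R] [CommRing S] (f : R →+* S) (x : R) (P : ℤ[X]) :
    f (aeval x P) = aeval (f x) P := by
  rw [aeval_def, aeval_def, hom_eval₂]
  congr 1
  exact RingHom.ext_int _ _

/-- the choice of `s` -/
lemma exists_s (D : ℤ[X]) (hD : D ≠ 0) (r : ℂ) (hr : r ≠ 0) :
    ∃ s : ℤ, ∀ ζ : ℂ, ¬ (aeval (ζ + s * r) D = 0 ∧ aeval (ζ - s * r) D = 0) := by
  classical
  set T := (D.map (Int.castRingHom ℂ)).roots.toFinset with hT
  have hmem : ∀ θ : ℂ, aeval θ D = 0 → θ ∈ T := by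
    intro θ h
    rw [hT, Multiset.mem_toFinset, mem_roots', IsRoot.def]
    refine ⟨?_, ?_⟩
    · rwa [Ne, Polynomial.map_eq_zero_iff (RingHom.injective_int (Int.castRingHom ℂ))]
    · rw [eval_map]
      exact h
  have hinj : Function.Injective (fun n : ℕ => (2 * (n : ℂ) * r : ℂ)) := by
    intro a b h
    simp only at h
    have h2 : (2 : ℂ) * (a : ℂ) = 2 * b := mul_right_cancel₀ hr h
    have h3 : (a : ℂ) = b := mul_left_cancel₀ two_ne_zero h2
    exact_mod_cast h3
  obtain ⟨n, hn⟩ := Infinite.exists_notMem_finset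
    (((T ×ˢ T).image (fun θ : ℂ × ℂ => θ.1 - θ.2)).preimage _ hinj.injOn)
  refine ⟨n, fun ζ h => hn ?_⟩
  rw [mem_preimage, mem_image]
  refine ⟨(ζ + n * r, ζ - n * r), mem_product.2 ⟨hmem _ (by simpa using h.1),
    hmem _ (by simpa using h.2)⟩, ?_⟩
  simp only
  ring

lemma comp_sep {P : ℂ[X]} (hP : P.Separable) (a : ℂ) : (P.comp (X + C a)).Separable := by
  unfold Polynomial.Separable at hP ⊢
  have h := hP.map (compRingHom (X + C a))
  rw [derivative_comp]
  simpa using h

theorem low_n (hl : LWP) (hgd : GDP) (D : ℤ[X]) (hD : Squarefree (D.map (Int.castRingHom ℚ)))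
    (hd : 0 < D.natDegree) (b : ℤ) (hb : b ≠ 0) :
    ∃ (δ : ℝ) (z0 : ℕ), 0 < δ ∧ ∀ z, z0 ≤ z → ∃ C : ℝ, ∀ y, z < y →
      δ * Real.log (Real.log y) ≤
        Sp (fun p => if sg0 p b = false then (rho D p : ℝ) else 0) z y + C := by
  have hD1 : D ≠ 0 := by
    rintro rfl
    simp at hd
  obtain ⟨r, hr⟩ : ∃ r : ℂ, r ^ 2 = (b : ℂ) := IsAlgClosed.exists_pow_nat_eq _ two_pos
  have hr0 : r ≠ 0 := by
    rintro rfl
    have : (b : ℂ) = 0 := by rw [← hr]; ring
    exact hb (by exact_mod_cast this)
  obtain ⟨s, hs⟩ := exists_s D hD1 r hr0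
  obtain ⟨A, B, hAB⟩ := exists_AB b s D
  set F : ℤ[X] := A ^ 2 - C b * B ^ 2 with hF
  set Dc : ℂ[X] := D.map (Int.castRingHom ℂ) with hDc
  have hDc0 : Dc ≠ 0 := by
    rwa [hDc, Ne, Polynomial.map_eq_zero_iff (RingHom.injective_int (Int.castRingHom ℂ))]
  have hevc : ∀ (P : ℤ[X]) (x : ℂ), (P.map (Int.castRingHom ℂ)).eval x = aeval x P := by
    intro P x
    rw [eval_map]
    rfl
  -- `D` is separable
  have hqc : ∀ P : ℤ[X], (P.map (Int.castRingHom ℚ)).map (algebraMap ℚ ℂ) =
      P.map (Int.castRingHom ℂ) := by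
    intro P
    rw [Polynomial.map_map]
    congr 1
  have hsep : Dc.Separable := by
    rw [hDc, ← hqc]
    exact (PerfectField.separable_iff_squarefree.2 hD).map
  -- the factorisation of `F`
  have hFc : F.map (Int.castRingHom ℂ) =
      Dc.comp (X + C ((s : ℂ) * r)) * Dc.comp (X + C (-((s : ℂ) * r))) := by
    apply Polynomial.funext
    intro x
    rw [hevc, eval_mul, eval_comp, eval_comp]
    simp only [eval_add, eval_X, eval_C]
    rw [hDc, hevc, hevc, hAB ℂ x r hr]
    have h1 := hAB ℂ x (-r) (by rw [neg_sq, hr])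
    rw [show x + -((s : ℂ) * r) = x + s * -r by ring, h1, hF]
    simp only [map_sub, map_mul, map_pow, eq_intCast, map_intCast]
    linear_combination (aeval x B) ^ 2 * hr
  have hcop : IsCoprime (Dc.comp (X + C ((s : ℂ) * r))) (Dc.comp (X + C (-((s : ℂ) * r)))) := by
    rw [isCoprime_iff_aeval_ne_zero_of_isAlgClosed ℂ ℂ]
    intro x
    by_contra hcon
    push Not at hcon
    obtain ⟨h1, h2⟩ := hcon
    rw [coe_aeval_eq_eval, eval_comp] at h1 h2
    simp only [eval_add, eval_X, eval_C] at h1 h2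
    rw [hDc, hevc] at h1 h2
    exact hs x ⟨h1, by rw [sub_eq_add_neg]; exact h2⟩
  have hFsep : (F.map (Int.castRingHom ℂ)).Separable := by
    rw [hFc]
    exact (comp_sep hsep _).mul (comp_sep hsep _) hcop
  have hFsq : Squarefree (F.map (Int.castRingHom ℚ)) := by
    rw [← PerfectField.separable_iff_squarefree]
    rw [← hqc, separable_map] at hFsep
    exact hFsep
  have hFdeg : 0 < F.natDegree := by
    have h1 : (F.map (Int.castRingHom ℂ)).natDegree = F.natDegree :=
      natDegree_map_eq_of_injective (RingHom.injective_int (Int.castRingHom ℂ)) F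
    have h2 : Dc.natDegree = D.natDegree :=
      natDegree_map_eq_of_injective (RingHom.injective_int (Int.castRingHom ℂ)) D
    have h3 : ∀ a : ℂ, (Dc.comp (X + C a)).natDegree = D.natDegree := by
      intro a
      rw [natDegree_comp, natDegree_X_add_C, mul_one, h2]
    have h4 : ∀ a : ℂ, Dc.comp (X + C a) ≠ 0 := by
      intro a h0
      have := h3 a
      rw [h0, natDegree_zero] at this
      omega
    rw [← h1, hFc, natDegree_mul (h4 _) (h4 _), h3]
    omega
  -- `A`, `B` are coprime
  have hABc : IsCoprime (A.map (Int.castRingHom ℚ)) (B.map (Int.castRingHom ℚ)) := by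
    rw [← isCoprime_map (algebraMap ℚ ℂ), hqc, hqc,
      isCoprime_iff_aeval_ne_zero_of_isAlgClosed ℂ ℂ]
    intro x
    by_contra hcon
    push Not at hcon
    obtain ⟨h1, h2⟩ := hcon
    rw [coe_aeval_eq_eval, hevc] at h1 h2
    refine hs x ⟨?_, ?_⟩
    · rw [hAB ℂ x r hr, h1, h2]
      ring
    · have h3 := hAB ℂ x (-r) (by rw [neg_sq, hr])
      rw [h1, h2] at h3
      rw [show x - (s : ℂ) * r = x + s * -r by ring, h3]
      ring
  obtain ⟨U, V, m, hm, hUV⟩ := GDPf.bezout hABc
  obtain ⟨zg, hzg⟩ := hgd F hFsq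
  refine ⟨1 / F.natDegree, zg + m.natAbs + b.natAbs + 2, by positivity, fun z hz => ?_⟩
  obtain ⟨Cl, hCl⟩ := hl F hFsq hFdeg z
  refine ⟨|Cl|, fun y hy => ?_⟩
  have hmain : Sp (fun p => (rho F p : ℝ)) z y ≤ F.natDegree *
      Sp (fun p => if sg0 p b = false then (rho D p : ℝ) else 0) z y := by
    unfold Sp
    rw [mul_sum]
    refine sum_le_sum fun p hp => ?_
    have hp' := mem_filter.1 hp
    have hpp : p.Prime := hp'.2
    have hzp := (mem_Ioc.1 hp'.1).1
    have hF1 : Fact p.Prime := ⟨hpp⟩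
    have hppos : (0 : ℝ) < p := by exact_mod_cast hpp.pos
    rw [← mul_div_assoc]
    refine div_le_div_of_nonneg_right ?_ hppos.le
    show (rho F p : ℝ) ≤ F.natDegree * (if sg0 p b = false then (rho D p : ℝ) else 0)
    have hle := (hzg z (by omega) p hpp hzp).1
    by_cases h0 : rho F p = 0
    · rw [h0]
      have : (0 : ℝ) ≤ if sg0 p b = false then (rho D p : ℝ) else 0 := by
        split_ifs
        · exact Nat.cast_nonneg _
        · exact le_rfl
      push_cast
      positivity
    · -- a root of `F`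
      obtain ⟨x, hx⟩ : ∃ x : ℕ, (p : ℤ) ∣ F.eval (x : ℤ) := by
        have h1 : 0 < rho F p := Nat.pos_of_ne_zero h0
        unfold Pool.Agent.H474R2.PG.rho at h1
        obtain ⟨x, hx⟩ := card_pos.1 h1
        exact ⟨x, (mem_filter.1 hx).2⟩
      have hzev : ∀ (P : ℤ[X]) (x : ℤ), ((P.eval x : ℤ) : ZMod p) = aeval ((x : ℤ) : ZMod p) P := by
        intro P x
        have := map_aeval (Int.castRingHom (ZMod p)) x P
        rw [coe_aeval_eq_eval] at this
        simpa using this
      have hdvd : ∀ n : ℤ, ((n : ℤ) : ZMod p) = 0 ↔ (p : ℤ) ∣ n := fun n =>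
        ZMod.intCast_zmod_eq_zero_iff_dvd n p
      have hBx : aeval (((x : ℤ)) : ZMod p) B ≠ 0 := by
        intro h1
        have h2 : aeval (((x : ℤ)) : ZMod p) A ^ 2 = 0 := by
          have h3 := (hdvd _).2 hx
          rw [hzev, hF] at h3
          simp only [map_sub, map_mul, map_pow] at h3
          rw [h1] at h3
          linear_combination h3
        have h3 := pow_eq_zero_iff (two_ne_zero) |>.1 h2
        have h4 : ((m : ℤ) : ZMod p) = 0 := by
          have h5 := congrArg (aeval (((x : ℤ)) : ZMod p)) hUV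
          simp only [map_add, map_mul, h1, h3, mul_zero, add_zero, eq_intCast, map_intCast] at h5
          exact h5.symm
        have h5 := Int.natAbs_dvd_natAbs.2 ((hdvd _).1 h4)
        rw [Int.natAbs_natCast] at h5
        have h6 := Nat.le_of_dvd (Int.natAbs_pos.2 hm) h5
        omega
      have hFx : aeval (((x : ℤ)) : ZMod p) A ^ 2 = (b : ZMod p) * aeval (((x : ℤ)) : ZMod p) B ^ 2 := by
        have h3 := (hdvd _).2 hx
        rw [hzev, hF] at h3
        simp only [map_sub, map_mul, map_pow, eq_intCast, map_intCast] at h3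
        linear_combination h3
      set a' := aeval (((x : ℤ)) : ZMod p) A with ha'
      set b' := aeval (((x : ℤ)) : ZMod p) B with hb'
      -- the square root
      set w : ZMod p := -(a' / b') with hw
      have hw2 : w ^ 2 = (b : ZMod p) := by
        rw [hw, neg_sq, div_pow, hFx, mul_div_assoc, div_self (pow_ne_zero 2 hBx), mul_one]
      have hsg : sg0 p b = false := by
        unfold sg0
        rw [decide_eq_false_iff_not]
        intro h1
        rw [← jacobiSym.legendreSym.to_jacobiSym] at h1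
        exact (legendreSym.eq_neg_one_iff p).1 h1 ⟨w, by rw [← hw2, sq]⟩
      have hroot : aeval ((((x : ℤ)) : ZMod p) + s * w) D = 0 := by
        rw [hAB (ZMod p) _ w hw2, ← ha', ← hb', hw]
        field_simp
        ring
      have hD1 : 1 ≤ rho D p := by
        unfold Pool.Agent.H474R2.PG.rho
        rw [Nat.one_le_iff_ne_zero, Ne, card_eq_zero]
        intro hemp
        set θ : ZMod p := (((x : ℤ)) : ZMod p) + s * w with hθ
        have h1 : θ.val ∈ (range p).filter (fun a : ℕ => (p : ℤ) ∣ D.eval (a : ℤ)) := by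
          rw [mem_filter, mem_range]
          refine ⟨ZMod.val_lt θ, ?_⟩
          rw [← hdvd, hzev]
          have h2 : (((θ.val : ℕ) : ℤ) : ZMod p) = θ := by
            rw [Int.cast_natCast]
            exact ZMod.natCast_zmod_val θ
          rw [h2]
          exact hroot
        rw [hemp] at h1
        exact notMem_empty _ h1
      rw [if_pos hsg]
      calc (rho F p : ℝ) ≤ (F.natDegree : ℝ) * 1 := by
            rw [mul_one]
            exact_mod_cast hle
        _ ≤ (F.natDegree : ℝ) * (rho D p : ℝ) :=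
            mul_le_mul_of_nonneg_left (by exact_mod_cast hD1) (Nat.cast_nonneg _)
  have h1 := hCl y hy
  have hFp : (0 : ℝ) < F.natDegree := by exact_mod_cast hFdeg
  have hF1 : (1 : ℝ) ≤ F.natDegree := by exact_mod_cast hFdeg
  rw [one_div_mul_eq_div, div_le_iff₀ hFp]
  have h2 := le_abs_self Cl
  have h3 : |Cl| ≤ |Cl| * F.natDegree := le_mul_of_one_le_right (abs_nonneg _) hF1
  nlinarith

end Pool.Agent.Y668
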