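import Mathlib
import Pool.Agent.TH841.PT.Mak

/-!
# The main average for the moments, general weights
-/

set_option autoImplicit false

namespace Pool.Agent.Y668

open Finset Polynomial Pool.Agent.W262.RK Pool.Agent.W307.RT Pool.Agent.W307.RS
  Pool.Agent.TH841.PT

/-- the average of the moments -/
theorem mak_gen (hat : ATG) (hexp : EXPG) (hco : COMBK)
    (c k : ℕ) (hk : 2 * c ≤ 4 ^ k) (κ : Unit → Fin 3 → ℤ) (hκ : ∀ j i, κ j i ≠ 0)
    (z : ℕ) (hz : 2 * c + 2 ≤ z) (hκz : ∀ j i, (κ j i).natAbs ≤ z) (a : ℕ → ℝ)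
    (ha : ∀ p, 0 ≤ a p ∧ a p ≤ c) (δ Cl : ℝ) (hδ : 0 < δ)
    (hl : ∀ y, z < y → δ * Real.log (Real.log y) ≤ Sp a z y + Cl) (E0 Ct : ℝ) (hE0 : 0 ≤ E0)
    (ht : ∀ (i : IK k Unit) (y r : ℕ) (e : Bool), z < y → 1 < r → Squarefree r →
      (∀ p : ℕ, p.Prime → p ∣ r → z < p) →
      ∑ p ∈ PS z y, a p * (Jr p r * Jr (κK k κ i) p * x4 e p) / (p : ℝ) ≤
        E0 * Real.log (Real.log r) + Ct) :
    ∃ C' : ℝ, ∀ y, z < y → ∑ s ∈ Tup Unit z y, NBK k κ s * ∏ j, gp a c (s j) ≤
      C' * Real.exp (Sp a z y) := by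
  have h4 : (0 : ℝ) < 4 ^ k := by positivity
  have h41 : (1 : ℝ) ≤ 4 ^ k := one_le_pow₀ (by norm_num)
  set b : IK k Unit → ℕ → ℝ := fun _ p => a p / 4 ^ k with hb
  have hSb : ∀ i y, Sp (b i) z y = Sp a z y / 4 ^ k := by
    intro i y
    unfold Sp
    rw [sum_div]
    refine sum_congr rfl fun p hp => ?_
    rw [hb]
    ring
  have hS0 : ∀ y, 0 ≤ Sp a z y := fun y => Sp_nonneg (fun p => (ha p).1) z y
  obtain ⟨C, hC⟩ := hat (IK k Unit) b (LK k) (κK k κ) c z (δ / 4 ^ k)
    (|Ct| + |Cl|) E0 (fun y => Sp a z y)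
    (by
      intro i p
      rw [hb]
      simp only
      refine ⟨div_nonneg (ha p).1 h4.le, ?_⟩
      rw [div_le_div_iff₀ h4 (by norm_num)]
      have h1 := (ha p).2
      have h2 : (2 * c : ℝ) ≤ 4 ^ k := by exact_mod_cast hk
      linarith)
    (LK_self k) (by omega) (by positivity) hE0
    (by
      intro i y hy
      rw [hSb i]
      have h1 := hl y hy
      have h2 : δ / 4 ^ k * Real.log (Real.log y) ≤ (Sp a z y + Cl) / 4 ^ k := by
        rw [div_mul_eq_mul_div]
        exact div_le_div_of_nonneg_right h1 h4.le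
      have h3 : Cl / 4 ^ k ≤ |Cl| := by
        rw [div_le_iff₀ h4]
        have := le_abs_self Cl
        have := abs_nonneg Cl
        nlinarith
      rw [add_div] at h2
      have := abs_nonneg Ct
      linarith)
    (by
      intro y hy U hU
      simp only [hSb]
      rw [sum_const, nsmul_eq_mul]
      have h1 := hco Unit k U hU
      rw [Fintype.card_unit, mul_one] at h1
      have h2 : (U.card : ℝ) ≤ 4 ^ k := by exact_mod_cast h1
      rw [← mul_div_assoc, div_le_iff₀ h4, mul_comm]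
      exact mul_le_mul_of_nonneg_left h2 (hS0 y))
    (by
      intro i y r e hy hr hsq hpr
      have h1 := ht i y r e hy hr hsq hpr
      have hll := loglog_nonneg (by omega : 2 ≤ z) hr hpr
      have h2 : ∑ p ∈ PS z y, b i p * (Jr p r * Jr (κK k κ i) p * x4 e p) / (p : ℝ) =
          (∑ p ∈ PS z y, a p * (Jr p r * Jr (κK k κ i) p * x4 e p) / (p : ℝ)) / 4 ^ k := by
        rw [sum_div]
        refine sum_congr rfl fun p hp => ?_
        rw [hb]
        simp only
        ring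
      rw [h2, hSb i]
      have h3 : (∑ p ∈ PS z y, a p * (Jr p r * Jr (κK k κ i) p * x4 e p) / (p : ℝ)) ≤
          E0 * Real.log (Real.log r) + |Ct| := by
        linarith [le_abs_self Ct]
      have h5 : 0 ≤ E0 * Real.log (Real.log r) + |Ct| := by positivity
      have h6 : (∑ p ∈ PS z y, a p * (Jr p r * Jr (κK k κ i) p * x4 e p) / (p : ℝ)) /
          4 ^ k ≤ E0 * Real.log (Real.log r) + |Ct| := by
        rw [div_le_iff₀ h4]
        nlinarith
      have h7 : 0 ≤ 1 / 2 * (Sp a z y / 4 ^ k) := by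
        have := hS0 y
        positivity
      have h8 := abs_nonneg Cl
      linarith)
  refine ⟨C, fun y hy => ?_⟩
  rw [hexp Unit k κ (fun _ => a) c z y (by omega) hκ hκz]
  refine le_trans (le_of_eq ?_) ((le_abs_self _).trans (hC y hy))
  refine sum_congr rfl fun d _ => ?_
  congr 1

end Pool.Agent.Y668
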