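import Mathlib
import Pool.Agent.Y668.AlAdd

set_option autoImplicit false

/-!
# Descent by a 2-isogeny: halving
-/

namespace Pool.Agent.Y668

open WeierstrassCurve

variable {K : Type*} [Field K]

lemma Wt_nonsing (h2 : (2 : K) ≠ 0) {a b x y : K} (hb : b ≠ 0) (hd : a ^ 2 - 4 * b ≠ 0)
    (h : y ^ 2 = x ^ 3 + a * x ^ 2 + b * x) : (Wt a b).toAffine.Nonsingular x y := by
  rw [WeierstrassCurve.Affine.nonsingular_iff]
  refine ⟨Wt_eqn.mpr h, ?_⟩
  by_cases hy : y = 0
  · left
    simp only [Wt]
    intro h'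
    rw [hy] at h h'
    have h3 : 3 * x ^ 2 + 2 * a * x + b = 0 := by linear_combination -h'
    have h0 : x * (x ^ 2 + a * x + b) = 0 := by linear_combination -h
    rcases mul_eq_zero.1 h0 with h0 | h0
    · rw [h0] at h3
      exact hb (by linear_combination h3)
    · -- `x² + a x + b = 0` and `2 x + a = 0`
      have hx : x * (2 * x + a) = 0 := by linear_combination h3 - h0
      rcases mul_eq_zero.1 hx with hx | hx
      · rw [hx] at h3
        exact hb (by linear_combination h3)
      · apply hd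
        linear_combination (2 * x + a) * hx - 4 * h0
  · right
    simp only [Wt]
    intro h'
    apply hy
    have : 2 * y = 0 := by linear_combination h'
    rcases mul_eq_zero.1 this with h3 | h3
    · exact absurd h3 h2
    · exact h3

/-- halving: if `x = w²`, `y = w q`, `q² = x² + a x + b` and `2 x + a - 2 q = v²` then the point
is a double -/
lemma half_of (h2 : (2 : K) ≠ 0) [DecidableEq K] {a b w q v : K} (hb : b ≠ 0)
    (hd : a ^ 2 - 4 * b ≠ 0) (hq : q ^ 2 = (w ^ 2) ^ 2 + a * w ^ 2 + b)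
    (hv : 2 * w ^ 2 + a - 2 * q = v ^ 2)
    (h : (Wt a b).toAffine.Nonsingular (w ^ 2) (w * q)) :
    ∃ Q : (Wt a b).toAffine.Point, Q + Q = Affine.Point.some (w ^ 2) (w * q) h := by
  have h4 : (4 : K) ≠ 0 := by
    have : (4 : K) = 2 * 2 := by norm_num
    rw [this]
    exact mul_ne_zero h2 h2
  obtain ⟨X, hX⟩ : ∃ X : K, 2 * X = v ^ 2 - a + 2 * w * v :=
    ⟨(v ^ 2 - a + 2 * w * v) / 2, by rw [mul_div_cancel₀ _ h2]⟩
  have hq2 : 2 * q = 2 * w ^ 2 + a - v ^ 2 := by linear_combination -hv
  have hbX : 2 * b = X * (v ^ 2 - a - 2 * w * v) := by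
    have h5 : 4 * b = (v ^ 2 - a + 2 * w * v) * (v ^ 2 - a - 2 * w * v) := by
      have : 4 * q ^ 2 = (2 * w ^ 2 + a - v ^ 2) ^ 2 := by rw [← hq2]; ring
      linear_combination -4 * hq + this
    have h6 : 2 * (2 * b) = 2 * (X * (v ^ 2 - a - 2 * w * v)) := by
      rw [← hX] at h5
      linear_combination h5
    exact mul_left_cancel₀ h2 h6
  have hX0 : X ≠ 0 := by
    intro h0
    rw [h0, zero_mul] at hbX
    rcases mul_eq_zero.1 hbX with h3 | h3
    · exact h2 h3
    · exact hb h3
  -- `X² + a X + b = v² X`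
  have hcv : X ^ 2 + a * X + b = v ^ 2 * X := by
    have h6 : 2 * (X ^ 2 + a * X + b) = 2 * (v ^ 2 * X) := by
      linear_combination X * hX + hbX
    exact mul_left_cancel₀ h2 h6
  have hv0 : v ≠ 0 := by
    intro h0
    have e1 : 2 * X + a = 0 := by rw [hX, h0]; ring
    rw [h0] at hcv
    apply hd
    linear_combination (2 * X + a) * e1 - 4 * hcv
  have hQn : (Wt a b).toAffine.Nonsingular X (-(v * X)) := by
    apply Wt_nonsing h2 hb hd
    linear_combination -X * hcv
  refine ⟨Affine.Point.some X (-(v * X)) hQn, ?_⟩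
  have hvX : v * X ≠ 0 := mul_ne_zero hv0 hX0
  have hy' : -(v * X) ≠ (Wt a b).toAffine.negY X (-(v * X)) := by
    simp only [Affine.negY, Wt]
    intro hh
    have : 2 * (v * X) = 0 := by linear_combination -hh
    rcases mul_eq_zero.1 this with h3 | h3
    · exact h2 h3
    · exact hvX h3
  have hslope : (Wt a b).toAffine.slope X X (-(v * X)) (-(v * X)) = -(v + w) := by
    rw [Affine.slope_of_Y_ne rfl hy']
    simp only [Affine.negY, Wt]
    have e3' : -(v * X) - (- -(v * X) - 0 * X - 0) = -(2 * (v * X)) := by ring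
    rw [e3', div_eq_iff (neg_ne_zero.2 (mul_ne_zero h2 hvX))]
    linear_combination hcv + X * hX
  rw [Affine.Point.add_self_of_Y_ne hy']
  simp only [Affine.Point.some.injEq]
  rw [hslope]
  constructor
  · simp only [Affine.addX, Wt]
    linear_combination -hX
  · simp only [Affine.addY, Affine.negAddY, Affine.negY, Affine.addX, Wt]
    have h7 : 2 * (w * q) = w * (2 * w ^ 2 + a - v ^ 2) := by rw [← hq2]; ring
    apply mul_left_cancel₀ h2
    rw [h7]
    linear_combination (-2 * v - 3 * w) * hX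
end Pool.Agent.Y668
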