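import Mathlib
import Pool.Agent.H918R3.TB1
import Pool.Agent.H64R2.DC_MW
import Pool.Agent.W505.RK.RKB
import Pool.Agent.Y668.Half

set_option autoImplicit false

/-!
# Descent by a 2-isogeny: the bound for the rank
-/

namespace Pool.Agent.Y668

open WeierstrassCurve Pool.Agent.H918R3 Pool.Agent.H918R3.TB1

/-- `P = (w², w q)` and `X` is the `x`-coordinate of a point of the dual curve above `P` -/
def NX (a b : ℚ) (P : (Wt a b).toAffine.Point) (X : ℚ) : Prop :=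
  (P = 0 ∧ X = 1) ∨ ∃ (w q : ℚ) (h : (Wt a b).toAffine.Nonsingular (w ^ 2) (w * q)),
    P = Affine.Point.some (w ^ 2) (w * q) h ∧ q ^ 2 = (w ^ 2) ^ 2 + a * w ^ 2 + b ∧
      X = 2 * w ^ 2 + a - 2 * q

lemma NX_of {a b : ℚ} (P : (Wt a b).toAffine.Point) (h : IsSquare (al a b P)) :
    ∃ X, NX a b P X := by
  cases P with
  | zero => exact ⟨1, Or.inl ⟨rfl, rfl⟩⟩
  | some x y hn =>
    have hy := Wt_eqn.mp hn.1
    rw [al_some] at h
    by_cases hx : x = 0
    · rw [if_pos hx] at h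
      obtain ⟨r, hr⟩ := h
      subst hx
      have hy0 : y = 0 := by
        have : y ^ 2 = 0 := by rw [hy]; ring
        exact pow_eq_zero_iff (two_ne_zero) |>.1 this
      subst hy0
      refine ⟨_, Or.inr ⟨0, r, ?_, ?_, ?_, rfl⟩⟩
      · convert hn using 1
        · ring
        · ring
      · congr 1
        ring
      · rw [hr]; ring
    · rw [if_neg hx] at h
      obtain ⟨r, hr⟩ := h
      have hr0 : r ≠ 0 := by
        rintro rfl
        exact hx (by rw [hr]; ring)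
      refine ⟨_, Or.inr ⟨r, y / r, ?_, ?_, ?_, rfl⟩⟩
      · convert hn using 1
        · rw [hr]; ring
        · field_simp
      · congr 1
        · rw [hr]; ring
        · field_simp
      · rw [div_pow, hy, hr]
        field_simp

lemma NX_mul {a b w q : ℚ} (hq : q ^ 2 = (w ^ 2) ^ 2 + a * w ^ 2 + b) :
    (2 * w ^ 2 + a - 2 * q) * (2 * w ^ 2 + a + 2 * q) = a ^ 2 - 4 * b := by
  linear_combination -4 * hq

lemma NX_ne {a b : ℚ} (hd : a ^ 2 - 4 * b ≠ 0) {P : (Wt a b).toAffine.Point} {X : ℚ}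
    (h : NX a b P X) : X ≠ 0 := by
  rcases h with ⟨_, rfl⟩ | ⟨w, q, _, _, hq, rfl⟩
  · exact one_ne_zero
  · intro h0
    have := NX_mul hq
    rw [h0, zero_mul] at this
    exact hd this.symm

/-- the point of the dual curve -/
lemma NX_dual {a b : ℚ} {P : (Wt a b).toAffine.Point} {X : ℚ}
    (h : NX a b P X) : X = 1 ∨ ∃ Y : ℚ, Y ^ 2 = X ^ 3 + (-2 * a) * X ^ 2 + (a ^ 2 - 4 * b) * X := by
  rcases h with ⟨_, rfl⟩ | ⟨w, q, _, _, hq, rfl⟩
  · exact Or.inl rfl
  · right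
    refine ⟨2 * w * (2 * w ^ 2 + a - 2 * q), ?_⟩
    linear_combination (-4 * (2 * w ^ 2 + a - 2 * q)) * hq

lemma NX_half {a b : ℚ} (hb : b ≠ 0) (hd : a ^ 2 - 4 * b ≠ 0) {P : (Wt a b).toAffine.Point}
    {X : ℚ} (h : NX a b P X) (hX : IsSquare X ∨ IsSquare (X * (a ^ 2 - 4 * b))) :
    ∃ Q : (Wt a b).toAffine.Point, P = Q + Q := by
  rcases h with ⟨rfl, rfl⟩ | ⟨w, q, hn, rfl, hq, rfl⟩
  · exact ⟨0, by rw [add_zero]⟩
  · rcases hX with ⟨v, hv⟩ | ⟨v, hv⟩
    · obtain ⟨Q, hQ⟩ := half_of two_ne_zero hb hd hq (by rw [hv, sq]) hn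
      exact ⟨Q, hQ.symm⟩
    · have hm := NX_mul hq
      have hX0 : 2 * w ^ 2 + a - 2 * q ≠ 0 := by
        intro h0
        rw [h0, zero_mul] at hm
        exact hd hm.symm
      set X := 2 * w ^ 2 + a - 2 * q with hXdef
      have h1 : 2 * (-w) ^ 2 + a - 2 * (-q) = (v / X) ^ 2 := by
        have h2 : 2 * (-w) ^ 2 + a - 2 * (-q) = 2 * w ^ 2 + a + 2 * q := by ring
        rw [h2, div_pow, eq_div_iff (pow_ne_zero 2 hX0), sq v, ← hv, ← hm]
        ring
      have e1 : w ^ 2 = (-w) ^ 2 := by ring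
      have e2 : w * q = (-w) * (-q) := by ring
      have hn' : (Wt a b).toAffine.Nonsingular ((-w) ^ 2) ((-w) * (-q)) := by
        rw [← e1, ← e2]
        exact hn
      obtain ⟨Q, hQ⟩ := half_of two_ne_zero hb hd (by rw [neg_sq, neg_sq]; exact hq) h1 hn'
      refine ⟨Q, ?_⟩
      rw [hQ]
      congr 1

section field

variable {L : Type} [Field L] [DecidableEq L]

lemma dlW_add (h2 : (2 : L) ≠ 0) {W : WeierstrassCurve L} {e f g : L} (hW : crv e f g = W)
    (P Q : W.toAffine.Point) :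
    IsSquare (dlW e f g (P + Q) * (dlW e f g P * dlW e f g Q)) := by
  subst hW
  cases P with
  | zero =>
    change IsSquare (dlW e f g (0 + Q) * (1 * dlW e f g Q))
    rw [zero_add, one_mul]
    exact ⟨_, rfl⟩
  | some x1 y1 h1 =>
    cases Q with
    | zero =>
      change IsSquare (dlW e f g (Affine.Point.some x1 y1 h1 + 0) *
        (dlW e f g (Affine.Point.some x1 y1 h1) * 1))
      rw [add_zero, mul_one]
      exact ⟨_, rfl⟩
    | some x2 y2 h1' => exact dlW_add_some h2 h1 h1'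

omit [DecidableEq L] in
lemma dlW_neg {W : WeierstrassCurve L} {e f g : L} 
    (P : W.toAffine.Point) : dlW e f g (-P) = dlW e f g P := by
  cases P with
  | zero => rfl
  | some x y h =>
    rw [Affine.Point.neg_some, dlW_some, dlW_some]

variable [CharZero L] [Algebra ℚ L]

/-- the embedding -/
noncomputable def emb (L : Type) [Field L] [DecidableEq L] [Algebra ℚ L] (a b : ℚ) :
    (Wt a b).toAffine.Point →+ ((Wt a b).baseChange L).toAffine.Point :=
  WeierstrassCurve.Affine.Point.map (W' := Wt a b) (Algebra.ofId ℚ L)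

omit [CharZero L] in
lemma emb_inj (a b : ℚ) : Function.Injective (emb L a b) :=
  WeierstrassCurve.Affine.Point.map_injective (W' := Wt a b) (Algebra.ofId ℚ L)

omit [CharZero L] in
lemma emb_some (a b x y : ℚ) (h : (Wt a b).toAffine.Nonsingular x y) :
    ∃ h', emb L a b (Affine.Point.some x y h) =
      Affine.Point.some (algebraMap ℚ L x) (algebraMap ℚ L y) h' :=
  ⟨_, rfl⟩

omit [CharZero L] [DecidableEq L] in
lemma crv_eq {a b : ℚ} {e1 e2 : L} (hs : e1 + e2 = -algebraMap ℚ L a)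
    (hp : e1 * e2 = algebraMap ℚ L b) : crv e1 0 e2 = (Wt a b).baseChange L := by
  apply WeierstrassCurve.ext
  · change (0 : L) = algebraMap ℚ L 0
    rw [map_zero]
  · change -(e1 + 0 + e2) = algebraMap ℚ L a
    linear_combination -hs
  · change (0 : L) = algebraMap ℚ L 0
    rw [map_zero]
  · change e1 * 0 + e1 * e2 + 0 * e2 = algebraMap ℚ L b
    linear_combination hp
  · change -(e1 * 0 * e2) = algebraMap ℚ L 0
    rw [map_zero]
    ring

/-- over `L` the class of `X` is the class of `x - e` -/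
lemma NX_dl {a b : ℚ} {e1 e2 : L} (hs : e1 + e2 = -algebraMap ℚ L a)
    (hp : e1 * e2 = algebraMap ℚ L b) {P : (Wt a b).toAffine.Point} {X : ℚ} (h : NX a b P X) :
    IsSquare (dlW e1 0 e2 (emb L a b P) * algebraMap ℚ L X) := by
  rcases h with ⟨rfl, rfl⟩ | ⟨w, q, hn, rfl, hq, rfl⟩
  · rw [map_zero, map_one, mul_one]
    exact ⟨1, by change (1 : L) = 1 * 1; rw [one_mul]⟩
  · obtain ⟨h', hh⟩ := emb_some (L := L) a b _ _ hn
    rw [hh, dlW_some]
    have hq' : (algebraMap ℚ L q) ^ 2 = ((algebraMap ℚ L w) ^ 2) ^ 2 +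
        (algebraMap ℚ L a) * (algebraMap ℚ L w) ^ 2 + algebraMap ℚ L b := by
      rw [← map_pow, hq]
      simp only [map_add, map_mul, map_pow]
    have hX : algebraMap ℚ L (2 * w ^ 2 + a - 2 * q) =
        2 * (algebraMap ℚ L w) ^ 2 + algebraMap ℚ L a - 2 * algebraMap ℚ L q := by
      simp only [map_add, map_sub, map_mul, map_pow, map_ofNat]
    rw [hX, map_pow]
    set W := algebraMap ℚ L w
    set Q := algebraMap ℚ L q
    set A := algebraMap ℚ L a
    set B := algebraMap ℚ L b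
    have hA : A = -(e1 + e2) := by linear_combination hs
    have hB : B = e1 * e2 := hp.symm
    have hq2 : Q ^ 2 = (W ^ 2 - e1) * (W ^ 2 - e2) := by
      rw [hq', hA, hB]; ring
    split_ifs with hx
    · -- `x = e1`
      have hQ : Q = 0 := by
        have : Q ^ 2 = 0 := by rw [hq2, hx]; ring
        exact pow_eq_zero_iff (two_ne_zero) |>.1 this
      refine ⟨W * (e1 - e2), ?_⟩
      rw [hQ, hA]
      have : e1 = W ^ 2 := hx.symm
      rw [this]
      ring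
    · refine ⟨W ^ 2 - e1 - Q, ?_⟩
      rw [hA]
      linear_combination (-1 : L) * hq2

/-- the counting argument -/
theorem desc_aux [NumberField L] {a b : ℚ} (hb : b ≠ 0) (hd : a ^ 2 - 4 * b ≠ 0) {e1 e2 : L}
    (hs : e1 + e2 = -algebraMap ℚ L a) (hp : e1 * e2 = algebraMap ℚ L b) (hne : e1 ≠ e2)
    (hsq : ∀ c : ℚ, c ≠ 0 → IsSquare (algebraMap ℚ L c) →
      IsSquare c ∨ IsSquare (c * (a ^ 2 - 4 * b)))
    (Z1 Z2 : Finset ℤ) (h1 : ∀ P : (Wt a b).toAffine.Point, ∃ z ∈ Z1, IsSquare (al a b P * z))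
    (h2 : ∀ X : ℚ, X ≠ 0 → (X = 1 ∨
      ∃ Y : ℚ, Y ^ 2 = X ^ 3 + (-2 * a) * X ^ 2 + (a ^ 2 - 4 * b) * X) →
      ∃ z ∈ Z2, IsSquare (X * z)) (hz1 : ∀ z ∈ Z1, z ≠ 0) (hz2 : ∀ z ∈ Z2, z ≠ 0) :
    2 ^ Module.finrank ℤ (Wt a b).toAffine.Point ≤ Z1.card * Z2.card := by
  classical
  have h20 : (2 : L) ≠ 0 := two_ne_zero
  -- finite generation
  have he0 : e1 * e2 ≠ 0 := by
    rw [hp]
    exact (map_ne_zero _).2 hb
  have he1 : e1 ≠ 0 := left_ne_zero_of_mul he0
  have he2 : e2 ≠ 0 := right_ne_zero_of_mul he0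
  have hfg : AddGroup.FG (Wt a b).toAffine.Point := by
    have hK : AddGroup.FG (Pool.Agent.H437R2.Man.MW.crv (-e1) 0 (-e2)).toAffine.Point :=
      Pool.Agent.H437R2.Man.MW.pt_fg (neg_ne_zero.2 he1) (fun h => hne (neg_injective h))
        (neg_ne_zero.2 he2).symm
    have heq : Pool.Agent.H437R2.Man.MW.crv (-e1) 0 (-e2) = (Wt a b).baseChange L := by
      rw [← crv_eq hs hp]
      simp only [Pool.Agent.H437R2.Man.MW.crv, crv]
      congr 1 <;> ring
    rw [heq] at hK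
    exact Pool.Agent.H64R2.DCMW.fg_of_inj _ (emb_inj (L := L) a b) hK
  -- representatives
  let S1 : Finset ℤ := Z1
  obtain ⟨t1, ht1⟩ : ∃ t1 : ℤ → (Wt a b).toAffine.Point, ∀ z : ℤ,
      (∃ P, IsSquare (al a b P * z)) → IsSquare (al a b (t1 z) * z) :=
    ⟨fun z => if h : ∃ P, IsSquare (al a b P * z) then h.choose else 0, fun z h => by
      simp only [dif_pos h]
      exact h.choose_spec⟩
  obtain ⟨t2, ht2⟩ : ∃ t2 : ℤ → (Wt a b).toAffine.Point, ∀ z : ℤ,
      (∃ P X, NX a b P X ∧ IsSquare (X * z)) → ∃ X, NX a b (t2 z) X ∧ IsSquare (X * z) :=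
    ⟨fun z => if h : ∃ P X, NX a b P X ∧ IsSquare (X * z) then h.choose else 0, fun z h => by
      simp only [dif_pos h]
      exact h.choose_spec⟩
  set T : Finset (Wt a b).toAffine.Point := (Z1 ×ˢ Z2).image (fun z => t1 z.1 + t2 z.2) with hT
  have hcard : T.card ≤ Z1.card * Z2.card := by
    rw [← Finset.card_product]
    exact Finset.card_image_le
  refine Pool.Agent.W505.RK.rkb (Wt a b).toAffine.Point hfg _ T hcard fun g => ?_
  obtain ⟨z1, hz1m, hz1s⟩ := h1 g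
  have hz10 : (z1 : ℚ) ≠ 0 := by exact_mod_cast hz1 z1 hz1m
  have ht := ht1 z1 ⟨g, hz1s⟩
  -- `g - t1` is in `N`
  have hN : IsSquare (al a b (g - t1 z1)) := by
    have h3 := al_add (two_ne_zero : (2 : ℚ) ≠ 0) g (-(t1 z1))
    rw [← sub_eq_add_neg, al_neg] at h3
    have h4 := (h3.mul hz1s).mul ht
    have hg0 := al_ne hb g
    have ht0 := al_ne hb (t1 z1)
    have h5 : al a b (g - t1 z1) * (al a b g * al a b (t1 z1)) * (al a b g * z1) *
        (al a b (t1 z1) * z1) = al a b (g - t1 z1) * (al a b g * al a b (t1 z1) * z1) ^ 2 := by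
      ring
    rw [h5] at h4
    have h6 := h4.div (IsSquare.sq (al a b g * al a b (t1 z1) * z1))
    rwa [mul_div_assoc, div_self (pow_ne_zero 2 (mul_ne_zero (mul_ne_zero hg0 ht0) hz10)),
      mul_one] at h6
  obtain ⟨X, hX⟩ := NX_of _ hN
  have hX0 := NX_ne hd hX
  obtain ⟨z2, hz2m, hz2s⟩ := h2 X hX0 (NX_dual hX)
  have hz20 : (z2 : ℚ) ≠ 0 := by exact_mod_cast hz2 z2 hz2m
  obtain ⟨X2, hX2, hX2s⟩ := ht2 z2 ⟨_, X, hX, hz2s⟩
  have hX20 := NX_ne hd hX2
  refine ⟨t1 z1 + t2 z2, Finset.mem_image.2 ⟨(z1, z2), Finset.mem_product.2 ⟨hz1m, hz2m⟩, rfl⟩, ?_⟩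
  -- the difference
  set R := g - t1 z1 - t2 z2 with hR
  have hal2 : IsSquare (al a b (t2 z2)) := by
    rcases hX2 with ⟨h0, _⟩ | ⟨w, q, hn, h0, hq, _⟩
    · rw [h0, al_zero]
      exact ⟨1, by ring⟩
    · rw [h0, al_some]
      split_ifs with hw
      · have : w = 0 := pow_eq_zero_iff (two_ne_zero) |>.1 hw
        rw [this] at hq
        exact ⟨q, by rw [← sq, hq]; ring⟩
      · exact IsSquare.sq w
  have hRs : IsSquare (al a b R) := by
    have h3 := al_add (two_ne_zero : (2 : ℚ) ≠ 0) (g - t1 z1) (-(t2 z2))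
    rw [← sub_eq_add_neg, al_neg] at h3
    have h4 := h3.div (hN.mul hal2)
    rwa [mul_div_assoc, div_self (mul_ne_zero (al_ne hb _) (al_ne hb _)), mul_one] at h4
  obtain ⟨XR, hXR⟩ := NX_of _ hRs
  have hXR0 := NX_ne hd hXR
  have hXRL : IsSquare (algebraMap ℚ L XR) := by
    have k1 := NX_dl hs hp hX
    have k2 := NX_dl hs hp hX2
    have k3 := NX_dl hs hp hXR
    have k4 := dlW_add h20 (crv_eq hs hp) (emb L a b (g - t1 z1)) (emb L a b (-(t2 z2)))
    rw [← map_add, ← sub_eq_add_neg, ← hR, map_neg, dlW_neg] at k4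
    have k5 : IsSquare (algebraMap ℚ L (X * X2)) := by
      have h3 := hz2s.mul hX2s
      have h4 : X * z2 * (X2 * z2) = X * X2 * (z2 : ℚ) ^ 2 := by ring
      rw [h4] at h3
      have h5 := h3.div (IsSquare.sq (z2 : ℚ))
      rw [mul_div_assoc, div_self (pow_ne_zero 2 hz20), mul_one] at h5
      exact h5.map (algebraMap ℚ L)
    rw [map_mul] at k5
    have n1 : dlW e1 0 e2 (emb L a b (g - t1 z1)) ≠ 0 := dlW_ne he1 hne _
    have n2 : dlW e1 0 e2 (emb L a b (t2 z2)) ≠ 0 := dlW_ne he1 hne _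
    have n3 : dlW e1 0 e2 (emb L a b R) ≠ 0 := dlW_ne he1 hne _
    have n4 : algebraMap ℚ L X ≠ 0 := (map_ne_zero _).2 hX0
    have n5 : algebraMap ℚ L X2 ≠ 0 := (map_ne_zero _).2 hX20
    set d1 := dlW e1 0 e2 (emb L a b (g - t1 z1))
    set d2 := dlW e1 0 e2 (emb L a b (t2 z2))
    set d3 := dlW e1 0 e2 (emb L a b R)
    have k6 := (((k1.mul k2).mul k3).mul k4).mul k5
    have h7 : d1 * algebraMap ℚ L X * (d2 * algebraMap ℚ L X2) * (d3 * algebraMap ℚ L XR) *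
        (d3 * (d1 * d2)) * (algebraMap ℚ L X * algebraMap ℚ L X2) =
        algebraMap ℚ L XR * (d1 * d2 * d3 * algebraMap ℚ L X * algebraMap ℚ L X2) ^ 2 := by ring
    rw [h7] at k6
    have k7 := k6.div (IsSquare.sq (d1 * d2 * d3 * algebraMap ℚ L X * algebraMap ℚ L X2))
    rwa [mul_div_assoc, div_self (pow_ne_zero 2 (mul_ne_zero (mul_ne_zero (mul_ne_zero
      (mul_ne_zero n1 n2) n3) n4) n5)), mul_one] at k7
  obtain ⟨Q, hQ⟩ := NX_half hb hd hXR (hsq XR hXR0 hXRL)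
  refine ⟨Q, ?_⟩
  rw [← hQ, hR]
  abel

end field

lemma quad_map (D c : ℚ) [Fact (∀ r : ℚ, r ^ 2 ≠ D + 0 * r)] :
    algebraMap ℚ (QuadraticAlgebra ℚ D 0) c = ⟨c, 0⟩ := rfl

/-- squares of a quadratic field -/
lemma quad_sq (D c : ℚ) [Fact (∀ r : ℚ, r ^ 2 ≠ D + 0 * r)]
    (h : IsSquare (algebraMap ℚ (QuadraticAlgebra ℚ D 0) c)) :
    IsSquare c ∨ IsSquare (c * D) := by
  obtain ⟨x, hx⟩ := h
  rw [quad_map] at hx
  have h1 := congrArg QuadraticAlgebra.re hx
  have h2 := congrArg QuadraticAlgebra.im hx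
  rw [QuadraticAlgebra.re_mul] at h1
  rw [QuadraticAlgebra.im_mul] at h2
  simp only at h1 h2
  have h3 : x.re * x.im = 0 := by linear_combination -(1 / 2) * h2
  rcases mul_eq_zero.1 h3 with h4 | h4
  · right
    exact ⟨D * x.im, by rw [h1, h4]; ring⟩
  · left
    exact ⟨x.re, by rw [h1, h4]; ring⟩

/-- **the bound for the rank** -/
theorem desc {a b : ℚ} (hb : b ≠ 0) (hd : a ^ 2 - 4 * b ≠ 0) (Z1 Z2 : Finset ℤ)
    (h1 : ∀ P : (Wt a b).toAffine.Point, ∃ z ∈ Z1, IsSquare (al a b P * z))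
    (h2 : ∀ X : ℚ, X ≠ 0 → (X = 1 ∨
      ∃ Y : ℚ, Y ^ 2 = X ^ 3 + (-2 * a) * X ^ 2 + (a ^ 2 - 4 * b) * X) →
      ∃ z ∈ Z2, IsSquare (X * z)) (hz1 : ∀ z ∈ Z1, z ≠ 0) (hz2 : ∀ z ∈ Z2, z ≠ 0) :
    2 ^ Module.finrank ℤ (Wt a b).toAffine.Point ≤ Z1.card * Z2.card := by
  classical
  by_cases hsq : IsSquare (a ^ 2 - 4 * b)
  · obtain ⟨r, hr⟩ := hsq
    have hr0 : r ≠ 0 := by
      rintro rfl
      exact hd (by rw [hr]; ring)
    refine desc_aux (L := ℚ) hb hd (e1 := (-a + r) / 2) (e2 := (-a - r) / 2) ?_ ?_ ?_ ?_ Z1 Z2 h1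
      h2 hz1 hz2
    · change _ = -a
      ring
    · change _ = b
      linear_combination (1 / 4 : ℚ) * hr
    · intro h
      apply hr0
      linear_combination h
    · intro c _ hc
      exact Or.inl hc
  · have hF : Fact (∀ r : ℚ, r ^ 2 ≠ (a ^ 2 - 4 * b) + 0 * r) :=
      ⟨fun r hr => hsq ⟨r, by linear_combination -hr⟩⟩
    have hnf : NumberField (QuadraticAlgebra ℚ (a ^ 2 - 4 * b) 0) :=
      { to_charZero := inferInstance
        to_finiteDimensional := inferInstance }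
    set ω : QuadraticAlgebra ℚ (a ^ 2 - 4 * b) 0 := ⟨0, 1⟩ with hω
    have hω2 : ω * ω = algebraMap ℚ _ (a ^ 2 - 4 * b) := by
      rw [quad_map, hω, QuadraticAlgebra.mk_mul_mk]
      congr 1 <;> ring
    have h20 : (2 : QuadraticAlgebra ℚ (a ^ 2 - 4 * b) 0) ≠ 0 := two_ne_zero
    have hω0 : ω ≠ 0 := by
      intro h0
      have := congrArg QuadraticAlgebra.im h0
      simp [hω] at this
    set A := algebraMap ℚ (QuadraticAlgebra ℚ (a ^ 2 - 4 * b) 0) a with hA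
    set B := algebraMap ℚ (QuadraticAlgebra ℚ (a ^ 2 - 4 * b) 0) b with hB
    have hD : algebraMap ℚ (QuadraticAlgebra ℚ (a ^ 2 - 4 * b) 0) (a ^ 2 - 4 * b) =
        A ^ 2 - 4 * B := by
      rw [map_sub, map_mul, map_pow, map_ofNat]
    rw [hD] at hω2
    refine desc_aux (L := QuadraticAlgebra ℚ (a ^ 2 - 4 * b) 0) hb hd (e1 := (-A + ω) / 2)
      (e2 := (-A - ω) / 2) ?_ ?_ ?_ ?_ Z1 Z2 h1 h2 hz1 hz2
    · field_simp
      ring
    · rw [div_mul_div_comm, div_eq_iff (mul_ne_zero h20 h20)]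
      linear_combination -hω2
    · intro h
      apply hω0
      have h5 : (-A + ω) / 2 * 2 = (-A - ω) / 2 * 2 := by rw [h]
      rw [div_mul_cancel₀ _ h20, div_mul_cancel₀ _ h20] at h5
      have h6 : 2 * ω = 0 := by linear_combination h5
      exact (mul_eq_zero.1 h6).resolve_left h20
    · intro c _ hc
      exact quad_sq _ c hc

end Pool.Agent.Y668
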