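import Mathlib
import Pool.Agent.W342.RK2.LocL

set_option autoImplicit false

/-!
# Local conditions for the descent by a 2-isogeny
-/

namespace Pool.Agent.Y668

open Pool.Agent.W262.RK Pool.Agent.W22.RK Pool.Agent.W342.RK2

section loc

variable {p : ℕ} [hp : Fact p.Prime]

/-- the class of `x` from an approximation of the cofactor -/
lemma comb (hp2 : p ≠ 2) {x r c y : ℚ} (hc : c ≠ 0) (hxy : y ^ 2 = x * r)
    (h : r - c = 0 ∨ padicValRat p c < padicValRat p (r - c)) :
    IsSquare ((x * c : ℚ) : ℚ_[p]) := by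
  have hr : r ≠ 0 := by
    rintro rfl
    rcases h with h | h
    · exact hc (by linear_combination -h)
    · rw [zero_sub, v_neg] at h
      exact lt_irrefl _ h
  have h1 := near hp2 hc h
  obtain ⟨u, hu⟩ := h1
  have hrc : ((r : ℚ) : ℚ_[p]) ≠ 0 := by exact_mod_cast hr
  have hyc : ((y : ℚ) : ℚ_[p]) ^ 2 = (x : ℚ_[p]) * r := by
    exact_mod_cast congrArg (fun w : ℚ => (w : ℚ_[p])) hxy
  refine ⟨(y : ℚ_[p]) * u / r, ?_⟩
  rw [div_mul_div_comm, eq_div_iff (mul_ne_zero hrc hrc)]
  push_cast at hu ⊢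
  linear_combination ((x : ℚ_[p]) * r) * hu - u * u * hyc

lemma isSq_q {x : ℚ} {z : ℤ} (h : IsSquare (x * z)) : IsSquare ((x * z : ℚ) : ℚ_[p]) :=
  h.map (Rat.castHom ℚ_[p])

omit hp in
lemma v_nonneg (a : ℤ) : 0 ≤ padicValRat p (a : ℚ) := by
  rw [padicValRat.of_int]
  positivity

/-- the valuation of `a x + b` -/
lemma v_lin {a x b : ℚ} {n : ℤ} (h1 : a * x = 0 ∨ n ≤ padicValRat p (a * x))
    (h2 : b = 0 ∨ n ≤ padicValRat p b) : a * x + b = 0 ∨ n ≤ padicValRat p (a * x + b) := by
  rcases h1 with h1 | h1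
  · rw [h1, zero_add]
    exact h2
  · rcases h2 with h2 | h2
    · rw [h2, add_zero]
      exact Or.inr h1
    · by_cases h3 : a * x + b = 0
      · exact Or.inl h3
      · right
        have := padicValRat.min_le_padicValRat_add (p := p) (q := a * x) (r := b) h3
        omega

/-- good reduction -/
lemma loc_good {a b z : ℤ} {x y : ℚ} (hp2 : p ≠ 2) (hb : ¬ (p : ℤ) ∣ b) (hx : x ≠ 0)
    (hxy : y ^ 2 = x ^ 3 + a * x ^ 2 + b * x) (hz : Squarefree z) (hs : IsSquare (x * z)) :
    dv p z = false := by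
  rw [← par hx (not_sq_of_squarefree hz) (isSq_q hs)]
  have hb0 : (b : ℚ) ≠ 0 := by
    intro h
    apply hb
    have : b = 0 := by exact_mod_cast h
    simp [this]
  have hxy' : y ^ 2 = x * (x ^ 2 + a * x + b) := by rw [hxy]; ring
  have vb : padicValRat p (b : ℚ) = 0 := v_int hb
  have va : ∀ n : ℤ, n ≤ padicValRat p x → (a : ℚ) * x = 0 ∨ n ≤ padicValRat p ((a : ℚ) * x) := by
    intro n hn
    by_cases ha : (a : ℚ) = 0
    · left; rw [ha, zero_mul]
    · right
      rw [padicValRat.mul ha hx]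
      have := v_nonneg (p := p) a
      omega
  rcases lt_trichotomy (padicValRat p x) 0 with h | h | h
  · -- `x ~ x²`
    have h1 := comb hp2 (c := x ^ 2) (pow_ne_zero 2 hx) hxy' (by
      have e : x ^ 2 + (a : ℚ) * x + b - x ^ 2 = a * x + b := by ring
      rw [e]
      rcases v_lin (va _ le_rfl) (Or.inr (vb.symm ▸ h.le)) with h2 | h2
      · exact Or.inl h2
      · right
        rw [padicValRat.pow]
        push_cast
        omega)
    have h2 := val_sq (mul_ne_zero hx (pow_ne_zero 2 hx)) h1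
    rw [padicValRat.mul hx (pow_ne_zero 2 hx), padicValRat.pow] at h2
    push_cast at h2
    rw [Int.even_iff] at h2 ⊢
    omega
  · rw [h]
    exact Even.zero
  · have h1 := comb hp2 (c := (b : ℚ)) hb0 hxy' (by
      have e : x ^ 2 + (a : ℚ) * x + b - b = a * x + x ^ 2 := by ring
      rw [e, vb]
      rcases v_lin (n := 1) (va 1 (by omega)) (b := x ^ 2) (Or.inr (by
        rw [padicValRat.pow]
        push_cast
        omega)) with h2 | h2
      · exact Or.inl h2
      · exact Or.inr (by omega))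
    have h2 := val_sq (mul_ne_zero hx hb0) h1
    rw [padicValRat.mul hx hb0, vb, add_zero] at h2
    exact h2

/-- comparison with `b = u * (q * q)` -/
lemma cmp_of {x b q : ℚ} {z u : ℤ} (hx : x ≠ 0) (hz : Squarefree z) (hs : IsSquare (x * z))
    (hu : ¬ (p : ℤ) ^ 2 ∣ u) (hq : q ≠ 0) (hb : b = u * (q * q))
    (h : IsSquare ((x * b : ℚ) : ℚ_[p])) : dv p z = dv p u ∧ sgn p z = sgn p u := by
  refine cmpx hx (not_sq_of_squarefree hz) hu (isSq_q hs) ?_
  apply sq_cancel hq
  have : x * u * (q * q) = x * b := by rw [hb]; ring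
  rw [this]
  exact h

/-- a ramified quartic twist -/
lemma loc_quart {b β z : ℤ} {m : ℕ} {x y : ℚ} (hp2 : p ≠ 2) (hm : Odd m)
    (hb : b = (p : ℤ) ^ m * β) (hβ : ¬ (p : ℤ) ∣ β) (hx : x ≠ 0)
    (hxy : y ^ 2 = x ^ 3 + b * x) (hz : Squarefree z) (hs : IsSquare (x * z)) :
    sgn p z = (dv p z && sg0 p β) := by
  have hpq : ((p : ℚ)) ≠ 0 := by exact_mod_cast hp.out.ne_zero
  have hβ0 : (β : ℚ) ≠ 0 := by
    intro h
    apply hβ
    have : β = 0 := by exact_mod_cast h
    simp [this]
  have hbq : (b : ℚ) = (p : ℚ) ^ m * β := by rw [hb]; push_cast; ring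
  have hb0 : (b : ℚ) ≠ 0 := by rw [hbq]; exact mul_ne_zero (pow_ne_zero m hpq) hβ0
  have vb : padicValRat p (b : ℚ) = m := by
    rw [hbq, padicValRat.mul (pow_ne_zero m hpq) hβ0, padicValRat.pow, v_int hβ,
      padicValRat.self hp.out.one_lt]
    ring
  have hxy' : y ^ 2 = x * (x ^ 2 + b) := by rw [hxy]; ring
  obtain ⟨j, hj⟩ := hm
  rcases lt_or_ge (2 * padicValRat p x) (m : ℤ) with h | h
  · -- `x` is a square
    have h1 := comb hp2 (c := x ^ 2) (pow_ne_zero 2 hx) hxy' (by
      right
      have e : x ^ 2 + (b : ℚ) - x ^ 2 = b := by ring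
      rw [e, padicValRat.pow, vb]
      push_cast
      omega)
    have h2 := cmp_of (u := 1) (q := x) hx hz hs (not_sq_of_unit not_dvd_one) hx (by
      push_cast; ring) h1
    rw [dv_unit not_dvd_one, sgn_unit not_dvd_one, sg0_one] at h2
    rw [h2.1, h2.2]
    rfl
  · have h1 := comb hp2 (c := (b : ℚ)) hb0 hxy' (by
      right
      have e : x ^ 2 + (b : ℚ) - b = x ^ 2 := by ring
      rw [e, padicValRat.pow, vb]
      push_cast
      omega)
    have h2 := cmp_of (u := (p : ℤ) * β) (q := (p : ℚ) ^ j) hx hz hs (by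
      rw [pow_two]
      intro h3
      exact hβ ((mul_dvd_mul_iff_left (by exact_mod_cast hp.out.ne_zero)).1 h3))
      (pow_ne_zero j hpq) (by
        rw [hbq, hj]
        push_cast
        ring) h1
    rw [dv_mul, sgn_mul] at h2
    rw [h2.1, h2.2]
    rfl

/-- the class of `b` -/
lemma loc_quart_b {b β z : ℤ} {m : ℕ} (hm : Odd m)
    (hb : b = (p : ℤ) ^ m * β) (hβ : ¬ (p : ℤ) ∣ β) (hz : Squarefree z)
    (hs : IsSquare ((b : ℚ) * z)) : sgn p z = (dv p z && sg0 p β) := by
  have hpq : ((p : ℚ)) ≠ 0 := by exact_mod_cast hp.out.ne_zero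
  have hβ0 : (β : ℚ) ≠ 0 := by
    intro h
    apply hβ
    have : β = 0 := by exact_mod_cast h
    simp [this]
  have hbq : (b : ℚ) = (p : ℚ) ^ m * β := by rw [hb]; push_cast; ring
  have hb0 : (b : ℚ) ≠ 0 := by rw [hbq]; exact mul_ne_zero (pow_ne_zero m hpq) hβ0
  obtain ⟨j, hj⟩ := hm
  have h2 := cmp_of (u := (p : ℤ) * β) (q := (p : ℚ) ^ j) hb0 hz hs (by
    rw [pow_two]
    intro h3
    exact hβ ((mul_dvd_mul_iff_left (by exact_mod_cast hp.out.ne_zero)).1 h3))
    (pow_ne_zero j hpq) (b := (b : ℚ)) (by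
      rw [hbq, hj]
      push_cast
      ring) ⟨(b : ℚ_[p]), by push_cast; ring⟩
  rw [dv_mul, sgn_mul] at h2
  rw [h2.1, h2.2]
  rfl

/-- an integer close to a `p`-adic integral rational -/
lemma approx {u : ℚ} (hu : u ≠ 0) (hv : 0 ≤ padicValRat p u) :
    ∃ n : ℤ, u - n = 0 ∨ 1 ≤ padicValRat p (u - n) := by
  have hden : ¬ (p : ℤ) ∣ (u.den : ℤ) := by
    intro h
    have hd : p ∣ u.den := by exact_mod_cast h
    have hnum : ¬ (p : ℤ) ∣ u.num := by
      intro h2
      have h3 : p ∣ u.num.natAbs := Int.natCast_dvd.1 h2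
      have := Nat.dvd_gcd h3 hd
      rw [u.reduced.gcd_eq_one] at this
      exact hp.out.one_lt.ne' (Nat.dvd_one.1 this)
    have h4 : padicValRat p u = padicValRat p (u.num : ℚ) - padicValRat p ((u.den : ℤ) : ℚ) := by
      have hd0 : ((u.den : ℤ) : ℚ) ≠ 0 := by exact_mod_cast u.den_nz
      have hn0 : (u.num : ℚ) ≠ 0 := by exact_mod_cast Rat.num_ne_zero.2 hu
      rw [← padicValRat.div hn0 hd0]
      congr 1
      exact_mod_cast (Rat.num_div_den u).symm
    have h5 : 1 ≤ padicValRat p ((u.den : ℤ) : ℚ) := by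
      rw [padicValRat.of_int]
      have h1 := (padicValInt_dvd_iff (p := p) 1 (u.den : ℤ)).1 (by simpa using h)
      rcases h1 with h1 | h1
      · exact absurd h1 (by exact_mod_cast u.den_nz)
      · exact_mod_cast h1
    rw [v_int hnum] at h4
    omega
  have hcop : IsCoprime (p : ℤ) (u.den : ℤ) :=
    (Prime.coprime_iff_not_dvd (Nat.prime_iff_prime_int.1 hp.out)).2 hden
  obtain ⟨s, t, hst⟩ := hcop
  -- `t * den ≡ 1`
  refine ⟨t * u.num, ?_⟩
  have hd0 : ((u.den : ℤ) : ℚ) ≠ 0 := by exact_mod_cast u.den_nz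
  have hnd : u * ((u.den : ℤ) : ℚ) = u.num := by exact_mod_cast Rat.mul_den_eq_num u
  have e : u - ((t * u.num : ℤ) : ℚ) = (p : ℚ) * (s * u) := by
    have hst' : (s : ℚ) * p + t * ((u.den : ℤ) : ℚ) = 1 := by exact_mod_cast hst
    push_cast at hnd hst' ⊢
    rw [← hnd]
    linear_combination (-u) * hst'
  rw [e]
  have hpq : ((p : ℚ)) ≠ 0 := by exact_mod_cast hp.out.ne_zero
  by_cases hs : (s : ℚ) = 0
  · left
    rw [hs]; ring
  · right
    rw [padicValRat.mul hpq (mul_ne_zero hs hu), padicValRat.mul hs hu,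
      padicValRat.self hp.out.one_lt]
    have := v_nonneg (p := p) s
    omega

lemma dvd_of_v {n : ℤ} (h : (n : ℚ) = 0 ∨ 1 ≤ padicValRat p (n : ℚ)) : (p : ℤ) ∣ n := by
  rcases h with h | h
  · have : n = 0 := by exact_mod_cast h
    rw [this]
    exact dvd_zero _
  · by_contra h2
    rw [v_int h2] at h
    omega

/-- a ramified quadratic twist: the three cases -/
lemma loc_quad {a b A B z : ℤ} {x y : ℚ} (hp2 : p ≠ 2) (ha : a = p * A)
    (hb : b = (p : ℤ) ^ 2 * B) (hB : ¬ (p : ℤ) ∣ B) (hx : x ≠ 0)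
    (hxy : y ^ 2 = x ^ 3 + a * x ^ 2 + b * x) (hz : Squarefree z) (hs : IsSquare (x * z)) :
    (dv p z = false ∧ sgn p z = false) ∨ (dv p z = false ∧ sgn p z = sg0 p B) ∨
      (dv p z = true ∧ ∃ n : ℤ, ¬ (p : ℤ) ∣ n ∧ (p : ℤ) ∣ n ^ 2 + A * n + B ∧
        sgn p z = sg0 p n) := by
  have hpq : ((p : ℚ)) ≠ 0 := by exact_mod_cast hp.out.ne_zero
  have hB0 : (B : ℚ) ≠ 0 := by
    intro h
    apply hB
    have : B = 0 := by exact_mod_cast h
    simp [this]
  have hbq : (b : ℚ) = (p : ℚ) ^ 2 * B := by rw [hb]; push_cast; ring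
  have haq : (a : ℚ) = (p : ℚ) * A := by rw [ha]; push_cast; ring
  have hb0 : (b : ℚ) ≠ 0 := by rw [hbq]; exact mul_ne_zero (pow_ne_zero 2 hpq) hB0
  have vb : padicValRat p (b : ℚ) = 2 := by
    rw [hbq, padicValRat.mul (pow_ne_zero 2 hpq) hB0, padicValRat.pow, v_int hB,
      padicValRat.self hp.out.one_lt]
    ring
  have hxy' : y ^ 2 = x * (x ^ 2 + a * x + b) := by rw [hxy]; ring
  have va : (a : ℚ) * x = 0 ∨ 1 + padicValRat p x ≤ padicValRat p ((a : ℚ) * x) := by
    by_cases hA : (A : ℚ) = 0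
    · left; rw [haq, hA]; ring
    · right
      have ha0 : (a : ℚ) ≠ 0 := by rw [haq]; exact mul_ne_zero hpq hA
      rw [padicValRat.mul ha0 hx, haq, padicValRat.mul hpq hA, padicValRat.self hp.out.one_lt]
      have := v_nonneg (p := p) A
      omega
  rcases lt_trichotomy (padicValRat p x) 1 with h | h | h
  · left
    have h1 := comb hp2 (c := x ^ 2) (pow_ne_zero 2 hx) hxy' (by
      have e : x ^ 2 + (a : ℚ) * x + b - x ^ 2 = a * x + b := by ring
      rw [e]
      rcases v_lin (n := 1 + padicValRat p x) va (b := (b : ℚ)) (Or.inr (by omega)) with h2 | h2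
      · exact Or.inl h2
      · right
        rw [padicValRat.pow]
        push_cast
        omega)
    have h2 := cmp_of (u := 1) (q := x) hx hz hs (not_sq_of_unit not_dvd_one) hx (by
      push_cast; ring) h1
    rw [dv_unit not_dvd_one, sgn_unit not_dvd_one, sg0_one] at h2
    exact h2
  · right; right
    -- `x = p u`
    set u : ℚ := x / p with hu
    have hxu : x = p * u := by rw [hu]; field_simp
    have hu0 : u ≠ 0 := div_ne_zero hx hpq
    have vu : padicValRat p u = 0 := by
      rw [hu, padicValRat.div hx hpq, h, padicValRat.self hp.out.one_lt]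
      ring
    obtain ⟨n, hn⟩ := approx hu0 vu.ge
    have hnp : ¬ (p : ℤ) ∣ n := by
      intro h2
      have h3 : (n : ℚ) = 0 ∨ 1 ≤ padicValRat p (n : ℚ) := by
        by_cases h4 : n = 0
        · left; exact_mod_cast h4
        · right
          rw [padicValRat.of_int]
          have h1 := (padicValInt_dvd_iff (p := p) 1 n).1 (by simpa using h2)
          rcases h1 with h1 | h1
          · exact absurd h1 h4
          · exact_mod_cast h1
      have h4 : u = 0 ∨ 1 ≤ padicValRat p u := by
        have := v_lin (p := p) (n := 1) (a := 1) (x := u - n) (b := (n : ℚ))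
          (by rwa [one_mul]) h3
        rw [one_mul, sub_add_cancel] at this
        exact this
      rcases h4 with h4 | h4
      · exact hu0 h4
      · omega
    have hn0 : (n : ℚ) ≠ 0 := by
      intro h2
      apply hnp
      have : n = 0 := by exact_mod_cast h2
      simp [this]
    -- `x ~ p n`
    have h1 : IsSquare ((x * ((p : ℤ) * n : ℤ) : ℚ) : ℚ_[p]) := by
      have h2 := near (p := p) hp2 (r := u) (c := (n : ℚ)) hn0 (by
        rcases hn with hn | hn
        · exact Or.inl hn
        · right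
          rw [v_int hnp]
          omega)
      obtain ⟨w, hw⟩ := h2
      refine ⟨p * w, ?_⟩
      rw [hxu]
      push_cast at hw ⊢
      linear_combination ((p : ℚ_[p]) ^ 2) * hw
    have h2 := cmpx hx (not_sq_of_squarefree hz) (f := (p : ℤ) * n) (by
      rw [pow_two]
      intro h3
      exact hnp ((mul_dvd_mul_iff_left (by exact_mod_cast hp.out.ne_zero)).1 h3)) (isSq_q hs) h1
    rw [dv_mul, sgn_mul] at h2
    refine ⟨h2.1, n, hnp, ?_, h2.2⟩
    -- the root
    have hr : x ^ 2 + (a : ℚ) * x + b = (p : ℚ) ^ 2 * (u ^ 2 + A * u + B) := by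
      rw [hxu, haq, hbq]; ring
    have h5 : u ^ 2 + A * u + B = 0 ∨ 1 ≤ padicValRat p (u ^ 2 + A * u + B) := by
      by_cases h6 : u ^ 2 + A * u + (B : ℚ) = 0
      · exact Or.inl h6
      · right
        have h7 : 0 ≤ padicValRat p (u ^ 2 + A * u + (B : ℚ)) := by
          have k1 : (A : ℚ) * u = 0 ∨ (0 : ℤ) ≤ padicValRat p ((A : ℚ) * u) := by
            by_cases hA : (A : ℚ) = 0
            · left; rw [hA]; ring
            · right
              rw [padicValRat.mul hA hu0, vu]
              have := v_nonneg (p := p) A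
              omega
          have k2 : (A : ℚ) * u + (u ^ 2 + B) = 0 ∨
              0 ≤ padicValRat p ((A : ℚ) * u + (u ^ 2 + B)) := by
            refine v_lin k1 ?_
            have := v_lin (p := p) (n := 0) (a := u) (x := u) (b := (B : ℚ))
              (Or.inr (by rw [padicValRat.mul hu0 hu0, vu]; rfl))
              (Or.inr (by rw [v_int hB]))
            rwa [← sq] at this
          have e : (A : ℚ) * u + (u ^ 2 + B) = u ^ 2 + A * u + B := by ring
          rw [e] at k2
          exact k2.resolve_left h6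
        have hy0 : y ≠ 0 := by
          intro h8
          rw [h8, hr] at hxy'
          have : x * ((p : ℚ) ^ 2 * (u ^ 2 + A * u + B)) ≠ 0 :=
            mul_ne_zero hx (mul_ne_zero (pow_ne_zero 2 hpq) h6)
          exact this (by rw [← hxy']; ring)
        have h9 : 2 * padicValRat p y = 1 + (2 + padicValRat p (u ^ 2 + A * u + (B : ℚ))) := by
          have h10 : padicValRat p (y ^ 2) = 2 * padicValRat p y := by
            rw [padicValRat.pow]
            norm_num
          rw [← h10, hxy', hr, padicValRat.mul hx (mul_ne_zero (pow_ne_zero 2 hpq) h6),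
            padicValRat.mul (pow_ne_zero 2 hpq) h6, padicValRat.pow, h,
            padicValRat.self hp.out.one_lt]
          norm_num
        omega
    -- from `u` to `n`
    apply dvd_of_v (p := p)
    have e : ((n ^ 2 + A * n + B : ℤ) : ℚ) = (-(u + n + A)) * (u - n) + (u ^ 2 + A * u + B) := by
      push_cast; ring
    rw [e]
    refine v_lin ?_ h5
    rcases hn with hn | hn
    · left; rw [hn, mul_zero]
    · by_cases h6 : (-(u + n + A)) * (u - n) = 0
      · exact Or.inl h6
      · right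
        have h7 : -(u + n + A) ≠ 0 := left_ne_zero_of_mul h6
        have h8 : u - n ≠ 0 := right_ne_zero_of_mul h6
        rw [padicValRat.mul h7 h8]
        have h9 : 0 ≤ padicValRat p (-(u + n + A)) := by
          rw [v_neg]
          have k := v_lin (p := p) (n := 0) (a := 1) (x := u) (b := ((n + A : ℤ) : ℚ))
            (Or.inr (by rw [one_mul, vu])) (Or.inr (v_nonneg _))
          have e2 : 1 * u + ((n + A : ℤ) : ℚ) = u + n + A := by push_cast; ring
          rw [e2] at k
          rcases k with k | k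
          · exact absurd (by rw [k, neg_zero]) h7
          · exact k
        omega
  · right; left
    have h1 := comb hp2 (c := (b : ℚ)) hb0 hxy' (by
      have e : x ^ 2 + (a : ℚ) * x + b - b = a * x + x ^ 2 := by ring
      rw [e, vb]
      rcases v_lin (n := 1 + padicValRat p x) va (b := x ^ 2) (Or.inr (by
        rw [padicValRat.pow]
        push_cast
        omega)) with h2 | h2
      · exact Or.inl h2
      · exact Or.inr (by omega))
    have h2 := cmp_of (u := B) (q := (p : ℚ)) hx hz hs (not_sq_of_unit hB) hpq (by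
      rw [hbq]; ring) h1
    rw [dv_unit hB, sgn_unit hB] at h2
    exact h2

end loc

end Pool.Agent.Y668
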