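import Mathlib
import Pool.Agent.Y668.Desc
import Pool.Agent.Y668.Loc
import Pool.Agent.Y668.Cnt

set_option autoImplicit false

/-!
# The rank and the sets of the classes with local conditions
-/

namespace Pool.Agent.Y668

open Pool.Agent.W262.RK Pool.Agent.W214.RK2 Pool.Agent.W342.RK2

/-- the integers of the set contain the classes of the points of `y² = x³ + a x² + b x` -/
def Cov (a b : ℤ) (S : Set ℤ) : Prop :=
  ∀ x y : ℚ, x ≠ 0 → y ^ 2 = x ^ 3 + a * x ^ 2 + b * x → ∀ z : ℤ, Squarefree z →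
    IsSquare (x * z) → z ∈ S

theorem rank_le {a b u : ℤ} (hu : u ≠ 0) (hb : b ≠ 0) (hd : a ^ 2 - 4 * b ≠ 0) {S1 S2 : Set ℤ}
    (hf1 : S1.Finite) (hf2 : S2.Finite) (hs1 : ∀ z ∈ S1, Squarefree z)
    (hs2 : ∀ z ∈ S2, Squarefree z) (h1 : Cov a b S1) (h1b : ∀ z : ℤ, Squarefree z →
      IsSquare ((b : ℚ) * z) → z ∈ S1) (h1c : (1 : ℤ) ∈ S1)
    (h2 : Cov (-2 * a) (a ^ 2 - 4 * b) S2) (h2c : (1 : ℤ) ∈ S2) :
    2 ^ Module.finrank ℤ (Wt ((a : ℚ) * (u : ℚ) ^ 2) ((b : ℚ) * (u : ℚ) ^ 4)).toAffine.Point ≤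
      S1.ncard * S2.ncard := by
  classical
  have huq : (u : ℚ) ≠ 0 := by exact_mod_cast hu
  have hbq : (b : ℚ) ≠ 0 := by exact_mod_cast hb
  have hdq : (a : ℚ) ^ 2 - 4 * b ≠ 0 := by exact_mod_cast hd
  have key : ∀ x z : ℚ, IsSquare (x / u ^ 2 * z) → IsSquare (x * z) := by
    rintro x z ⟨r, hr⟩
    refine ⟨r * u, ?_⟩
    have : x * z = x / u ^ 2 * z * u ^ 2 := by field_simp
    rw [this, hr]
    ring
  have hrep : ∀ x : ℚ, x ≠ 0 → ∃ z : ℤ, Squarefree z ∧ IsSquare (x * z) := exists_rep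
  rw [Set.ncard_eq_toFinset_card S1 hf1, Set.ncard_eq_toFinset_card S2 hf2]
  refine desc (mul_ne_zero hbq (pow_ne_zero 4 huq)) ?_ hf1.toFinset hf2.toFinset ?_ ?_ ?_ ?_
  · have : ((a : ℚ) * (u : ℚ) ^ 2) ^ 2 - 4 * ((b : ℚ) * (u : ℚ) ^ 4) =
        ((a : ℚ) ^ 2 - 4 * b) * (u : ℚ) ^ 4 := by ring
    rw [this]
    exact mul_ne_zero hdq (pow_ne_zero 4 huq)
  · intro P
    cases P with
    | zero => exact ⟨1, hf1.mem_toFinset.2 h1c, ⟨1, by change (1 : ℚ) * ((1 : ℤ) : ℚ) = 1 * 1; norm_num⟩⟩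
    | some x y h =>
      have hy := Wt_eqn.mp h.1
      rw [al_some]
      split_ifs with hx
      · obtain ⟨z, hz, hzs⟩ := hrep b hbq
        refine ⟨z, hf1.mem_toFinset.2 (h1b z hz hzs), ?_⟩
        obtain ⟨r, hr⟩ := hzs
        exact ⟨r * u ^ 2, by linear_combination (u : ℚ) ^ 4 * hr⟩
      · have hx' : x / u ^ 2 ≠ 0 := div_ne_zero hx (pow_ne_zero 2 huq)
        obtain ⟨z, hz, hzs⟩ := hrep (x / u ^ 2) hx'
        refine ⟨z, hf1.mem_toFinset.2 (h1 (x / u ^ 2) (y / u ^ 3) hx' ?_ z hz hzs), key x z hzs⟩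
        rw [div_pow, hy]
        field_simp
  · intro X hX hXY
    rcases hXY with rfl | ⟨Y, hY⟩
    · exact ⟨1, hf2.mem_toFinset.2 h2c, ⟨1, by norm_num⟩⟩
    · have hX' : X / u ^ 2 ≠ 0 := div_ne_zero hX (pow_ne_zero 2 huq)
      obtain ⟨z, hz, hzs⟩ := hrep (X / u ^ 2) hX'
      refine ⟨z, hf2.mem_toFinset.2 (h2 (X / u ^ 2) (Y / u ^ 3) hX' ?_ z hz hzs), key X z hzs⟩
      rw [div_pow, hY]
      push_cast
      field_simp
  · intro z hz
    exact (hs1 z (hf1.mem_toFinset.1 hz)).ne_zero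
  · intro z hz
    exact (hs2 z (hf2.mem_toFinset.1 hz)).ne_zero

/-! ### Quartic twists -/

/-- the hypotheses for a quartic twist -/
def HQ (z0 : ℕ) (σ : ℕ → Bool) (d b : ℤ) : Prop :=
  ∀ p : ℕ, p.Prime → z0 < p → (¬ (p : ℤ) ∣ d → ¬ (p : ℤ) ∣ b) ∧
    ((p : ℤ) ∣ d → ¬ (p : ℤ) ^ 2 ∣ d → ∃ (m : ℕ) (β : ℤ), Odd m ∧ b = (p : ℤ) ^ m * β ∧
      ¬ (p : ℤ) ∣ β ∧ sg0 p β = xor (sg0 p (d / p)) (σ p))

/-- type R everywhere -/
def allR : ℕ → Bool := fun _ => true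

lemma one_Lz (z0 : ℕ) (τ σ : ℕ → Bool) (d : ℤ) : (1 : ℤ) ∈ Zs z0 τ σ d := by
  refine ⟨squarefree_one, fun p hp hz => ?_⟩
  have hF : Fact p.Prime := ⟨hp⟩
  have h1 : dv p 1 = false := dv_unit not_dvd_one
  have h2 : sgn p 1 = false := by rw [sgn_unit not_dvd_one, sg0_one]
  rw [h1, h2]
  simp

lemma quart_mem {z0 : ℕ} (hz0 : 2 ≤ z0) {σ : ℕ → Bool} {d b : ℤ} (h : HQ z0 σ d b) :
    Cov 0 b (Zs z0 allR σ d) := by
  intro x y hx hxy z hz hs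
  refine ⟨hz, fun p hp hzp => ?_⟩
  have hF : Fact p.Prime := ⟨hp⟩
  have hp2 : p ≠ 2 := by omega
  obtain ⟨h1, h2⟩ := h p hp hzp
  refine ⟨fun hpd => loc_good hp2 (h1 hpd) hx hxy hz hs, fun hpd hpd2 => ?_⟩
  obtain ⟨m, β, hm, hb, hβ, hsg⟩ := h2 hpd hpd2
  refine ⟨fun h3 => by simp [allR] at h3, fun _ => ?_⟩
  rw [← hsg]
  exact loc_quart hp2 hm hb hβ hx (by rw [hxy]; push_cast; ring) hz hs

lemma quart_mem_b {z0 : ℕ} (hz0 : 2 ≤ z0) {σ : ℕ → Bool} {d b : ℤ} (hb0 : b ≠ 0)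
    (h : HQ z0 σ d b) : ∀ z : ℤ, Squarefree z → IsSquare ((b : ℚ) * z) → z ∈ Zs z0 allR σ d := by
  intro z hz hs
  refine ⟨hz, fun p hp hzp => ?_⟩
  have hF : Fact p.Prime := ⟨hp⟩
  have hp2 : p ≠ 2 := by omega
  have hbq : (b : ℚ) ≠ 0 := by exact_mod_cast hb0
  obtain ⟨h1, h2⟩ := h p hp hzp
  refine ⟨fun hpd => ?_, fun hpd hpd2 => ?_⟩
  · have h3 := cmpx (p := p) hbq (not_sq_of_squarefree hz) (not_sq_of_unit (h1 hpd)) (isSq_q hs)
      ⟨(b : ℚ_[p]), by push_cast; ring⟩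
    rw [h3.1, dv_unit (h1 hpd)]
  · obtain ⟨m, β, hm, hb, hβ, hsg⟩ := h2 hpd hpd2
    refine ⟨fun h3 => by simp [allR] at h3, fun _ => ?_⟩
    rw [← hsg]
    exact loc_quart_b hm hb hβ hz hs

/-- the sign for the dual curve -/
def σm (σ : ℕ → Bool) : ℕ → Bool := fun p => xor (sg0 p (-1)) (σ p)

lemma HQ_dual {z0 : ℕ} (hz0 : 2 ≤ z0) {σ : ℕ → Bool} {d b : ℤ} (h : HQ z0 σ d b) :
    HQ z0 (σm σ) d (-4 * b) := by
  intro p hp hzp
  have hF : Fact p.Prime := ⟨hp⟩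
  have h2 : ¬ (p : ℤ) ∣ 2 := by
    intro h
    have := Int.le_of_dvd (by norm_num) h
    omega
  have h4 : ¬ (p : ℤ) ∣ 2 * 2 := not_dvd_mul h2 h2
  have h4' : ¬ (p : ℤ) ∣ -1 * (2 * 2) := not_dvd_mul not_dvd_neg_one h4
  obtain ⟨h1, h3⟩ := h p hp hzp
  refine ⟨fun hpd => ?_, fun hpd hpd2 => ?_⟩
  · have := not_dvd_mul h4' (h1 hpd)
    rwa [show (-1 * (2 * 2) : ℤ) = -4 by norm_num] at this
  · obtain ⟨m, β, hm, hb, hβ, hsg⟩ := h3 hpd hpd2
    refine ⟨m, -1 * (2 * 2) * β, hm, by rw [hb]; ring, not_dvd_mul h4' hβ, ?_⟩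
    rw [sg0_mul h4' hβ, sg0_mul not_dvd_neg_one h4, sg0_mul h2 h2, hsg]
    unfold σm
    cases sg0 p (-1) <;> cases sg0 p 2 <;> cases sg0 p (d / p) <;> cases σ p <;> rfl

/-- **the rank of a quartic twist** -/
theorem rank_quart {z0 : ℕ} (hz0 : 2 ≤ z0) {σ : ℕ → Bool} {d b u : ℤ} (hu : u ≠ 0) (hb : b ≠ 0)
    (h : HQ z0 σ d b) (hf1 : (Zs z0 allR σ d).Finite) (hf2 : (Zs z0 allR (σm σ) d).Finite) :
    2 ^ Module.finrank ℤ (Wt (0 : ℚ) ((b : ℚ) * (u : ℚ) ^ 4)).toAffine.Point ≤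
      (Zs z0 allR σ d).ncard * (Zs z0 allR (σm σ) d).ncard := by
  have h1 := rank_le (a := 0) (b := b) hu hb (by
    intro h3
    apply hb
    linarith) hf1 hf2 (fun z hz => hz.1) (fun z hz => hz.1) (quart_mem hz0 h)
    (quart_mem_b hz0 hb h) (one_Lz _ _ _ _) (by
      have := quart_mem hz0 (HQ_dual hz0 h)
      have e1 : (-2 * 0 : ℤ) = 0 := by norm_num
      have e2 : (0 : ℤ) ^ 2 - 4 * b = -4 * b := by ring
      rw [e1, e2]
      exact this) (one_Lz _ _ _ _)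
  have e : ((0 : ℤ) : ℚ) * (u : ℚ) ^ 2 = 0 := by push_cast; ring
  rw [e] at h1
  exact h1

/-! ### Quadratic twists -/

open Classical in
/-- a root of `e² + a e + b` modulo `p` -/
noncomputable def rt (a b : ℤ) (p : ℕ) : ℤ :=
  if h : ∃ e : ℤ, (p : ℤ) ∣ e ^ 2 + a * e + b then h.choose else 0

/-- its sign -/
noncomputable def σq (a b : ℤ) : ℕ → Bool := fun p => sg0 p (rt a b p)

/-- type R: `b` is a square -/
def τq (b : ℤ) : ℕ → Bool := fun p => !sg0 p b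

lemma sg0_congr {p : ℕ} {a b : ℤ} (h : (p : ℤ) ∣ a - b) : sg0 p a = sg0 p b := by
  unfold sg0
  have : jacobiSym a p = jacobiSym b p := by
    apply jacobiSym.mod_left'
    exact Int.emod_eq_emod_iff_emod_sub_eq_zero.2 (Int.emod_eq_zero_of_dvd h)
  rw [this]

lemma rt_spec {a b e : ℤ} {p : ℕ} (h : (p : ℤ) ∣ e ^ 2 + a * e + b) :
    (p : ℤ) ∣ (rt a b p) ^ 2 + a * rt a b p + b := by
  have h' : ∃ e : ℤ, (p : ℤ) ∣ e ^ 2 + a * e + b := ⟨e, h⟩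
  unfold rt
  rw [dif_pos h']
  exact h'.choose_spec

section

variable {p : ℕ} [hp : Fact p.Prime]

/-- a root gives a square discriminant -/
lemma disc_sq {a b n : ℤ} (hd : ¬ (p : ℤ) ∣ a ^ 2 - 4 * b) (h : (p : ℤ) ∣ n ^ 2 + a * n + b) :
    sg0 p (a ^ 2 - 4 * b) = false := by
  have h1 : (p : ℤ) ∣ (2 * n + a) * (2 * n + a) - (a ^ 2 - 4 * b) := by
    have : (2 * n + a) * (2 * n + a) - (a ^ 2 - 4 * b) = 4 * (n ^ 2 + a * n + b) := by ring
    rw [this]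
    exact h.mul_left 4
  rw [← sg0_congr h1]
  have h2 : ¬ (p : ℤ) ∣ 2 * n + a := by
    intro h3
    apply hd
    have h4 := dvd_sub (h3.mul_left (2 * n + a)) h1
    have : (2 * n + a) * (2 * n + a) - ((2 * n + a) * (2 * n + a) - (a ^ 2 - 4 * b)) =
      a ^ 2 - 4 * b := by ring
    rwa [this] at h4
  rw [sg0_mul h2 h2]
  cases sg0 p (2 * n + a) <;> rfl

/-- two roots have the same sign if `b` is a square -/
lemma rt_sign {a b n e : ℤ} (hb : ¬ (p : ℤ) ∣ b) (hsb : sg0 p b = false)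
    (h : (p : ℤ) ∣ n ^ 2 + a * n + b) (h' : (p : ℤ) ∣ e ^ 2 + a * e + b) :
    sg0 p n = sg0 p e := by
  have h1 : (p : ℤ) ∣ (n - e) * (n + e + a) := by
    have : (n - e) * (n + e + a) = (n ^ 2 + a * n + b) - (e ^ 2 + a * e + b) := by ring
    rw [this]
    exact dvd_sub h h'
  rcases (Nat.prime_iff_prime_int.1 hp.out).dvd_or_dvd h1 with h2 | h2
  · exact sg0_congr h2
  · -- `n e ≡ b`
    have h3 : (p : ℤ) ∣ n * e - b := by
      have : n * e - b = e * (n + e + a) - (e ^ 2 + a * e + b) := by ring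
      rw [this]
      exact dvd_sub (h2.mul_left e) h'
    have h4 : ¬ (p : ℤ) ∣ n * e := by
      intro h5
      apply hb
      have := dvd_sub h5 h3
      rwa [sub_sub_cancel] at this
    have hn : ¬ (p : ℤ) ∣ n := fun h5 => h4 (h5.mul_right e)
    have he : ¬ (p : ℤ) ∣ e := fun h5 => h4 (h5.mul_left n)
    have h5 := sg0_congr h3
    rw [hsb, sg0_mul hn he] at h5
    revert h5
    cases sg0 p n <;> cases sg0 p e <;> decide

end

/-- the hypotheses for a quadratic twist -/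
def HK (z0 : ℕ) (a b d : ℤ) : Prop :=
  ∀ p : ℕ, p.Prime → z0 < p → ¬ (p : ℤ) ∣ b ∧ ¬ (p : ℤ) ∣ a ^ 2 - 4 * b ∧
    ((p : ℤ) ∣ d → sg0 p b = sg0 p (a ^ 2 - 4 * b))

lemma quad_mem {z0 : ℕ} (hz0 : 2 ≤ z0) {a b d : ℤ} (h : HK z0 a b d) :
    Cov (a * d) (b * d ^ 2) (Zs z0 (τq b) (σq a b) d) := by
  intro x y hx hxy z hz hs
  refine ⟨hz, fun p hp hzp => ?_⟩
  have hF : Fact p.Prime := ⟨hp⟩
  have hp2 : p ≠ 2 := by omega
  have hpp := Nat.prime_iff_prime_int.1 hp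
  obtain ⟨h1, h2, h3⟩ := h p hp hzp
  refine ⟨fun hpd => ?_, fun hpd hpd2 => ?_⟩
  · refine loc_good (a := a * d) (b := b * d ^ 2) hp2 ?_ hx hxy hz hs
    intro h4
    rcases hpp.dvd_or_dvd h4 with h4 | h4
    · exact h1 h4
    · exact hpd (hpp.dvd_of_dvd_pow h4)
  · obtain ⟨d', rfl⟩ := hpd
    have hp0 : (p : ℤ) ≠ 0 := by exact_mod_cast hp.ne_zero
    have hd' : ¬ (p : ℤ) ∣ d' := fun h4 => hpd2 (by rw [pow_two]; exact mul_dvd_mul_left _ h4)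
    have hdd : (p : ℤ) * d' / p = d' := Int.mul_ediv_cancel_left _ hp0
    rw [hdd]
    have hbd : ¬ (p : ℤ) ∣ b * d' ^ 2 := by
      rw [pow_two]
      exact not_dvd_mul h1 (not_dvd_mul hd' hd')
    have hsbd : sg0 p (b * d' ^ 2) = sg0 p b := by
      rw [pow_two, sg0_mul h1 (not_dvd_mul hd' hd'), sg0_mul hd' hd']
      cases sg0 p b <;> cases sg0 p d' <;> rfl
    have h4 := loc_quad (a := a * (p * d')) (b := b * (p * d') ^ 2) (A := a * d')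
      (B := b * d' ^ 2) hp2 (by ring) (by ring) hbd hx hxy hz hs
    have h3' := h3 (dvd_mul_right _ _)
    refine ⟨fun hτ => ?_, fun hτ => ?_⟩
    · -- type N
      unfold τq at hτ
      simp only [Bool.not_eq_false'] at hτ
      rcases h4 with h4 | h4 | h4
      · exact h4.1
      · exact h4.1
      · exfalso
        obtain ⟨_, n, hn, hroot, _⟩ := h4
        have h5 : ¬ (p : ℤ) ∣ (a * d') ^ 2 - 4 * (b * d' ^ 2) := by
          have : (a * d') ^ 2 - 4 * (b * d' ^ 2) = (a ^ 2 - 4 * b) * (d' * d') := by ring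
          rw [this]
          exact not_dvd_mul h2 (not_dvd_mul hd' hd')
        have h6 := disc_sq h5 hroot
        have h7 : (a * d') ^ 2 - 4 * (b * d' ^ 2) = (a ^ 2 - 4 * b) * (d' * d') := by ring
        rw [h7, sg0_mul h2 (not_dvd_mul hd' hd'), sg0_mul hd' hd', ← h3', hτ] at h6
        revert h6
        cases sg0 p d' <;> decide
    · -- type R
      unfold τq at hτ
      simp only [Bool.not_eq_true'] at hτ
      rcases h4 with h4 | h4 | h4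
      · rw [h4.1, h4.2]
        rfl
      · rw [h4.1, h4.2, hsbd, hτ]
        rfl
      · obtain ⟨h5, n, hn, hroot, h6⟩ := h4
        rw [h5, h6, Bool.true_and]
        -- the inverse of `d'`
        obtain ⟨s, t, hst⟩ := (Prime.coprime_iff_not_dvd hpp).2 hd'
        have ht : ¬ (p : ℤ) ∣ t := by
          intro h7
          apply not_dvd_one (p := p)
          rw [← hst]
          exact dvd_add (Dvd.intro_left _ rfl) (h7.mul_right d')
        have hdt : (p : ℤ) ∣ d' * t - 1 := ⟨-s, by linear_combination hst⟩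
        have hr : (p : ℤ) ∣ (n * t) ^ 2 + a * (n * t) + b := by
          have e : (n * t) ^ 2 + a * (n * t) + b =
              t ^ 2 * (n ^ 2 + a * d' * n + b * d' ^ 2) -
              (a * n * t + b * (d' * t + 1)) * (d' * t - 1) := by ring
          rw [e]
          exact dvd_sub (hroot.mul_left _) (hdt.mul_left _)
        have h7 := rt_sign h1 hτ hr (rt_spec hr)
        rw [sg0_mul hn ht] at h7
        have h8 : xor (sg0 p d') (sg0 p t) = false := by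
          rw [← sg0_mul hd' ht, sg0_congr hdt, sg0_one]
        unfold σq
        rw [← h7]
        revert h8
        cases sg0 p d' <;> cases sg0 p t <;> cases sg0 p n <;> decide

lemma quad_mem_b {z0 : ℕ} {a b d : ℤ} (hb0 : b ≠ 0) (hd0 : d ≠ 0)
    (h : HK z0 a b d) : ∀ z : ℤ, Squarefree z → IsSquare (((b * d ^ 2 : ℤ) : ℚ) * z) →
    z ∈ Zs z0 (τq b) (σq a b) d := by
  intro z hz hs
  refine ⟨hz, fun p hp hzp => ?_⟩
  have hF : Fact p.Prime := ⟨hp⟩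
  have hbq : (b : ℚ) ≠ 0 := by exact_mod_cast hb0
  have hdq : (d : ℚ) ≠ 0 := by exact_mod_cast hd0
  obtain ⟨h1, h2, h3⟩ := h p hp hzp
  have h4 := cmpx (p := p) hbq (not_sq_of_squarefree hz) (not_sq_of_unit h1)
    (isSq_q (by
      obtain ⟨r, hr⟩ := hs
      refine ⟨r / d, ?_⟩
      push_cast at hr
      field_simp
      linear_combination hr))
    ⟨(b : ℚ_[p]), by push_cast; ring⟩
  rw [dv_unit h1, sgn_unit h1] at h4
  refine ⟨fun _ => h4.1, fun _ _ => ⟨fun _ => h4.1, fun hτ => ?_⟩⟩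
  unfold τq at hτ
  simp only [Bool.not_eq_true'] at hτ
  rw [h4.1, h4.2, hτ]
  rfl

lemma HK_dual {z0 : ℕ} (hz0 : 2 ≤ z0) {a b d : ℤ} (h : HK z0 a b d) :
    HK z0 (-2 * a) (a ^ 2 - 4 * b) d := by
  intro p hp hzp
  have hF : Fact p.Prime := ⟨hp⟩
  have h2 : ¬ (p : ℤ) ∣ 2 := by
    intro h
    have := Int.le_of_dvd (by norm_num) h
    omega
  have h4 : ¬ (p : ℤ) ∣ 2 * 2 := not_dvd_mul h2 h2
  have h16 : ¬ (p : ℤ) ∣ 2 * 2 * (2 * 2) := not_dvd_mul h4 h4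
  obtain ⟨h1, h3, h5⟩ := h p hp hzp
  have e : (-2 * a) ^ 2 - 4 * (a ^ 2 - 4 * b) = 2 * 2 * (2 * 2) * b := by ring
  refine ⟨h3, by rw [e]; exact not_dvd_mul h16 h1, fun hpd => ?_⟩
  rw [e, sg0_mul h16 h1, sg0_mul h4 h4, ← h5 hpd]
  cases sg0 p (2 * 2) <;> cases sg0 p b <;> rfl

/-- **the rank of a quadratic twist** -/
theorem rank_quad {z0 : ℕ} (hz0 : 2 ≤ z0) {a b d u : ℤ} (hu : u ≠ 0) (hb : b ≠ 0)
    (hab : a ^ 2 - 4 * b ≠ 0) (hd : d ≠ 0) (h : HK z0 a b d)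
    (hf1 : (Zs z0 (τq b) (σq a b) d).Finite)
    (hf2 : (Zs z0 (τq (a ^ 2 - 4 * b)) (σq (-2 * a) (a ^ 2 - 4 * b)) d).Finite) :
    2 ^ Module.finrank ℤ (Wt (((a * d : ℤ) : ℚ) * (u : ℚ) ^ 2)
      (((b * d ^ 2 : ℤ) : ℚ) * (u : ℚ) ^ 4)).toAffine.Point ≤
      (Zs z0 (τq b) (σq a b) d).ncard *
        (Zs z0 (τq (a ^ 2 - 4 * b)) (σq (-2 * a) (a ^ 2 - 4 * b)) d).ncard := by
  refine rank_le (a := a * d) (b := b * d ^ 2) hu (mul_ne_zero hb (pow_ne_zero 2 hd)) ?_ hf1 hf2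
    (fun z hz => hz.1) (fun z hz => hz.1) (quad_mem hz0 h) (quad_mem_b hb hd h)
    (one_Lz _ _ _ _) ?_ (one_Lz _ _ _ _)
  · have : (a * d) ^ 2 - 4 * (b * d ^ 2) = (a ^ 2 - 4 * b) * d ^ 2 := by ring
    rw [this]
    exact mul_ne_zero hab (pow_ne_zero 2 hd)
  · have := quad_mem hz0 (HK_dual hz0 h)
    have e1 : -2 * (a * d) = -2 * a * d := by ring
    have e2 : (a * d) ^ 2 - 4 * (b * d ^ 2) = (a ^ 2 - 4 * b) * d ^ 2 := by ring
    rw [e1, e2]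
    exact this

end Pool.Agent.Y668
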