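import Mathlib
import Pool.Agent.Y668.Cnt
import Pool.Agent.Y668.MakG
import Pool.Agent.Y668.LowN
import Pool.Agent.Y668.Sets
import Pool.Agent.TH841.PT.Avg
import Pool.Agent.TH841.TR.EUL

/-!
# The main average with primes of two types
-/

set_option autoImplicit false

namespace Pool.Agent.Y668

open Finset Polynomial Pool.Agent.W262.RK Pool.Agent.W307.RT Pool.Agent.W307.RS
  Pool.Agent.TH841.PT

open Pool.Agent.H474R2.PG (rho)

/-- the part of type N -/
def sN (τ : ℕ → Bool) (s : ℕ) : ℕ := ∏ p ∈ s.primeFactors.filter (fun p => τ p = false), p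

/-- the weights for the primes of type R (or N) -/
noncomputable def rzt (D : ℤ[X]) (τ : ℕ → Bool) (e : Bool) (z p : ℕ) : ℝ :=
  if p.Prime ∧ z < p ∧ τ p = e then (rho D p : ℝ) else 0

lemma rzt_nonneg (D : ℤ[X]) (τ : ℕ → Bool) (e : Bool) (z p : ℕ) : 0 ≤ rzt D τ e z p := by
  unfold rzt
  split_ifs
  · exact Nat.cast_nonneg _
  · exact le_rfl

lemma rzt_le {D : ℤ[X]} {z c : ℕ} (hG : GoodD D z c) (τ : ℕ → Bool) (e : Bool) (p : ℕ) :
    rzt D τ e z p ≤ c := by
  unfold rzt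
  split_ifs with h
  · exact_mod_cast (hG p h.1 h.2.1).1
  · exact Nat.cast_nonneg _

lemma prod_filter_primeFactors {P : ℕ → Prop} [DecidablePred P] (s : ℕ) :
    (∏ p ∈ s.primeFactors.filter P, p).primeFactors = s.primeFactors.filter P :=
  Nat.primeFactors_prod fun _ hp => Nat.prime_of_mem_primeFactors (mem_filter.1 hp).1

lemma prod_filter_dvd {P : ℕ → Prop} [DecidablePred P] (s : ℕ) :
    (∏ p ∈ s.primeFactors.filter P, p) ∣ s :=
  (prod_dvd_prod_of_subset _ _ _ (filter_subset _ _)).trans (Nat.prod_primeFactors_dvd s)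

lemma sR_mul_sN {τ : ℕ → Bool} {s : ℕ} (hs : Squarefree s) : sR τ s * sN τ s = s := by
  unfold sR sN
  have h1 : s.primeFactors.filter (fun p => τ p = false) =
      s.primeFactors.filter (fun p => ¬ τ p = true) := by
    refine filter_congr fun p _ => ?_
    simp
  rw [h1, prod_filter_mul_prod_filter_not, Nat.prod_primeFactors_of_squarefree hs]

lemma gp_split (D : ℤ[X]) (τ : ℕ → Bool) {z y c s : ℕ} (hs : s ∣ PP z y) :
    gp (rz D z) c s = gp (rzt D τ true z) c (sR τ s) * gp (rzt D τ false z) c (sN τ s) := by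
  unfold gp sR sN
  rw [prod_filter_primeFactors, prod_filter_primeFactors]
  have h1 : s.primeFactors.filter (fun p => τ p = false) =
      s.primeFactors.filter (fun p => ¬ τ p = true) := by
    refine filter_congr fun p _ => ?_
    simp
  have h2 : ∀ p ∈ s.primeFactors.filter (fun p => τ p = true),
      rzt D τ true z p / ((p : ℝ) - c) = rz D z p / ((p : ℝ) - c) := by
    intro p hp
    rw [mem_filter] at hp
    unfold rzt rz
    rw [if_pos ⟨Nat.prime_of_mem_primeFactors hp.1, prime_gt hs hp.1, hp.2⟩,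
      if_pos (prime_gt hs hp.1)]
  have h3 : ∀ p ∈ s.primeFactors.filter (fun p => τ p = false),
      rzt D τ false z p / ((p : ℝ) - c) = rz D z p / ((p : ℝ) - c) := by
    intro p hp
    rw [mem_filter] at hp
    unfold rzt rz
    rw [if_pos ⟨Nat.prime_of_mem_primeFactors hp.1, prime_gt hs hp.1, hp.2⟩,
      if_pos (prime_gt hs hp.1)]
  rw [prod_congr rfl h2, prod_congr rfl h3, h1, prod_filter_mul_prod_filter_not]

lemma Sp_split (D : ℤ[X]) (τ : ℕ → Bool) (z y : ℕ) :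
    Sp (rzt D τ true z) z y + Sp (rzt D τ false z) z y = Sp (fun p => rho D p) z y := by
  unfold Sp
  rw [← sum_add_distrib]
  refine sum_congr rfl fun p hp => ?_
  have hp' := mem_filter.1 hp
  have hz := (mem_Ioc.1 hp'.1).1
  unfold rzt
  by_cases h : τ p = true
  · rw [if_pos ⟨hp'.2, hz, h⟩, if_neg (by simp [h])]
    ring
  · have h' : τ p = false := by simpa using h
    rw [if_neg (by simp [h']), if_pos ⟨hp'.2, hz, h'⟩]
    ring

/-- the sum over the divisors -/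
lemma sum_gp_le {w : ℕ → ℝ} (hw0 : ∀ p, 0 ≤ w p) {c : ℕ} (hwc : ∀ p, w p ≤ c) {z : ℕ}
    (hz : 2 * c + 2 ≤ z) : ∃ C : ℝ, 0 ≤ C ∧ ∀ y,
      ∑ v ∈ (PP z y).divisors, gp w c v ≤ C * Real.exp (Sp w z y) := by
  -- `w p / (p - c) ≤ w p / p + 2 c² / p²`
  have hsum : Summable (fun n : ℕ => 2 * (c : ℝ) ^ 2 / (n : ℝ) ^ 2) := by
    have := (Real.summable_one_div_nat_pow (p := 2)).2 one_lt_two
    exact (this.mul_left (2 * (c : ℝ) ^ 2)).congr fun n => by rw [mul_one_div]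
  refine ⟨Real.exp (∑' n : ℕ, 2 * (c : ℝ) ^ 2 / (n : ℝ) ^ 2), (Real.exp_pos _).le, fun y => ?_⟩
  have h1 : ∑ v ∈ (PP z y).divisors, gp w c v = ∏ p ∈ PS z y, (w p / ((p : ℝ) - c) + 1) := by
    have h := Pool.Agent.TH841.TR.EULf.one_var (fun p => w p / ((p : ℝ) - c)) (fun _ => 1) z y 1
    simp only [prod_const_one, mul_one, Nat.coprime_one_right_eq_true, filter_true] at h
    have h2 : (PS z y).filter (fun p => ¬ p ∣ 1) = PS z y := by
      refine filter_true_of_mem fun p hp => ?_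
      intro h3
      exact (mem_filter.1 hp).2.one_lt.ne' (Nat.dvd_one.1 h3)
    rw [h2] at h
    exact h
  rw [h1, ← Real.exp_add]
  have h2 : ∀ p ∈ PS z y, w p / ((p : ℝ) - c) ≤ w p / p + 2 * (c : ℝ) ^ 2 / (p : ℝ) ^ 2 := by
    intro p hp
    have hzp := (mem_Ioc.1 (mem_filter.1 hp).1).1
    have hp1 : (2 * c + 2 : ℝ) ≤ p := by exact_mod_cast (by omega : 2 * c + 2 ≤ p)
    have hc0 : (0 : ℝ) ≤ c := Nat.cast_nonneg c
    have hp0 : (0 : ℝ) < p := by linarith
    have hpc : (0 : ℝ) < p - c := by linarith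
    have e : w p / ((p : ℝ) - c) = w p / p + w p * c / (p * (p - c)) := by
      field_simp
      ring
    rw [e]
    have h3 : w p * c / (p * (p - c)) ≤ 2 * (c : ℝ) ^ 2 / (p : ℝ) ^ 2 := by
      rw [div_le_div_iff₀ (mul_pos hp0 hpc) (pow_pos hp0 2)]
      have h4 : w p * c ≤ c * c := mul_le_mul_of_nonneg_right (hwc p) hc0
      have h5 : (p : ℝ) ≤ 2 * (p - c) := by linarith
      calc w p * c * (p : ℝ) ^ 2 ≤ c * c * (p : ℝ) ^ 2 :=
            mul_le_mul_of_nonneg_right h4 (by positivity)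
        _ = (c * c * p) * p := by ring
        _ ≤ (c * c * p) * (2 * (p - c)) := mul_le_mul_of_nonneg_left h5 (by positivity)
        _ = 2 * (c : ℝ) ^ 2 * (p * (p - c)) := by ring
    linarith
  calc ∏ p ∈ PS z y, (w p / ((p : ℝ) - c) + 1)
      ≤ ∏ p ∈ PS z y, Real.exp (w p / p + 2 * (c : ℝ) ^ 2 / (p : ℝ) ^ 2) := by
        refine prod_le_prod (fun p hp => ?_) fun p hp => ?_
        · have hzp := (mem_Ioc.1 (mem_filter.1 hp).1).1
          have hp1 : (c : ℝ) ≤ p := by exact_mod_cast (by omega : c ≤ p)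
          have := div_nonneg (hw0 p) (by linarith : (0 : ℝ) ≤ p - c)
          linarith
        · exact (Real.add_one_le_exp _).trans (Real.exp_le_exp.2 (h2 p hp))
    _ = Real.exp (∑ p ∈ PS z y, w p / p + ∑ p ∈ PS z y, 2 * (c : ℝ) ^ 2 / (p : ℝ) ^ 2) := by
        rw [← Real.exp_sum, sum_add_distrib]
    _ ≤ Real.exp (Sp w z y + ∑' n : ℕ, 2 * (c : ℝ) ^ 2 / (n : ℝ) ^ 2) := by
        refine Real.exp_le_exp.2 (add_le_add le_rfl ?_)
        exact hsum.sum_le_tsum _ fun n _ => by positivity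
    _ = _ := by rw [add_comm]

lemma jr_one_or {b : ℤ} {p : ℕ} (hp : p.Prime) (hb : b ≠ 0) (hbp : b.natAbs < p) :
    (sg0 p b = false ∧ Jr b p = 1) ∨ (sg0 p b = true ∧ Jr b p = -1) := by
  have hF : Fact p.Prime := ⟨hp⟩
  have hnd : ¬ (p : ℤ) ∣ b := by
    intro h
    have := Nat.le_of_dvd (Int.natAbs_pos.2 hb) (Int.natCast_dvd.1 h)
    omega
  unfold sg0 Jr
  rcases Pool.Agent.W342.RK2.jac_ne hnd with h | h
  · left
    rw [h]
    exact ⟨by decide, by norm_num⟩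
  · right
    rw [h]
    exact ⟨by decide, by norm_num⟩

lemma Jr_mul (a b : ℤ) (n : ℕ) : Jr (a * b) n = Jr a n * Jr b n := by
  unfold Jr
  rw [jacobiSym.mul_left]
  push_cast
  ring

/-- the average over the primes of type R -/
theorem sum_R (hat : ATG) (hexp : EXPG) (hl : LWP) (ht : TWP) (hgd : GDP) (hco : COMBK)
    (D : ℤ[X]) (hD : Squarefree (D.map (Int.castRingHom ℚ))) (hd : 0 < D.natDegree)
    (b : ℤ) (hb : b ≠ 0) (c k : ℕ) (hc : D.natDegree ≤ c) (hk : 2 * c ≤ 4 ^ k)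
    (κ : Unit → Fin 3 → ℤ) (hκ : ∀ j i, κ j i ≠ 0) :
    ∃ z0 : ℕ, ∀ z, z0 ≤ z → ∃ C' : ℝ, ∀ y, z < y →
      ∑ s ∈ Tup Unit z y, NBK k κ s * ∏ j, gp (rzt D (τq b) true z) c (s j) ≤
        C' * Real.exp (Sp (rzt D (τq b) true z) z y) := by
  obtain ⟨δ, zl, hδ, hzl⟩ := low_n hl hgd D hD hd b hb
  obtain ⟨zg, hzg⟩ := hgd D hD
  choose E0 zt hE0 hzt using fun i : IK k Unit => ht D hD hd (κK k κ i) (κK_ne k κ hκ i)
  choose E1 zu hE1 hzu using fun i : IK k Unit => ht D hD hd (κK k κ i * b)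
    (mul_ne_zero (κK_ne k κ hκ i) hb)
  refine ⟨zl + zg + (2 * c + 2) + univ.sup zt + univ.sup zu + (∑ j, ∑ i, (κ j i).natAbs) +
    b.natAbs, fun z hz => ?_⟩
  have hzt' : ∀ i, zt i ≤ z := fun i => (le_sup (f := zt) (mem_univ i)).trans (by omega)
  have hzu' : ∀ i, zu i ≤ z := fun i => (le_sup (f := zu) (mem_univ i)).trans (by omega)
  choose Ct hCt using fun i : IK k Unit => hzt i z (hzt' i)
  choose Cu hCu using fun i : IK k Unit => hzu i z (hzu' i)
  obtain ⟨Cl, hCl⟩ := hzl z (by omega)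
  have hG := hzg z (by omega)
  have hG' : GoodD D z c := fun p hp hzp => ⟨(hG p hp hzp).1.trans hc, (hG p hp hzp).2⟩
  have hκz : ∀ j i, (κ j i).natAbs ≤ z := by
    intro j i
    have h1 := single_le_sum (f := fun i => (κ j i).natAbs) (fun _ _ => Nat.zero_le _) (mem_univ i)
    have h2 := single_le_sum (f := fun j => ∑ i, (κ j i).natAbs) (fun _ _ => Nat.zero_le _)
      (mem_univ j)
    omega
  have hSpe : ∀ y, Sp (fun p => if sg0 p b = false then (rho D p : ℝ) else 0) z y =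
      Sp (rzt D (τq b) true z) z y := by
    intro y
    unfold Sp
    refine sum_congr rfl fun p hp => ?_
    have hp' := mem_filter.1 hp
    have hzp := (mem_Ioc.1 hp'.1).1
    simp only
    unfold rzt τq
    congr 1
    by_cases h : sg0 p b = false
    · rw [if_pos h, if_pos ⟨hp'.2, hzp, by rw [h]; rfl⟩]
    · rw [if_neg h, if_neg (fun h2 => h (by simpa using h2.2.2))]
  refine mak_gen hat hexp hco c k hk κ hκ z (by omega) hκz (rzt D (τq b) true z)
    (fun p => ⟨rzt_nonneg _ _ _ _ _, rzt_le hG' _ _ _⟩) δ Cl hδ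
    (fun y hy => by rw [← hSpe]; exact hCl y hy)
    (∑ i, E0 i + ∑ i, E1 i) (∑ i, |Ct i| + ∑ i, |Cu i|)
    (add_nonneg (sum_nonneg fun i _ => hE0 i) (sum_nonneg fun i _ => hE1 i))
    (fun i y r e hy hr hsq hpr => ?_)
  have h1 := hCt i y r e hy hr hsq hpr
  have h2 := hCu i y r e hy hr hsq hpr
  have hll := loglog_nonneg (by omega : 2 ≤ z) hr hpr
  have h3 : ∑ p ∈ PS z y, rzt D (τq b) true z p * (Jr p r * Jr (κK k κ i) p * x4 e p) / (p : ℝ) =
      1 / 2 * (∑ p ∈ PS z y, (rho D p : ℝ) * (Jr p r * Jr (κK k κ i) p * x4 e p) / (p : ℝ)) +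
      1 / 2 * (∑ p ∈ PS z y, (rho D p : ℝ) * (Jr p r * Jr (κK k κ i * b) p * x4 e p) /
        (p : ℝ)) := by
    rw [mul_sum, mul_sum, ← sum_add_distrib]
    refine sum_congr rfl fun p hp => ?_
    have hp' := mem_filter.1 hp
    have hzp := (mem_Ioc.1 hp'.1).1
    rw [Jr_mul]
    unfold rzt τq
    rcases jr_one_or hp'.2 hb (by omega) with h | h
    · rw [h.2, if_pos ⟨hp'.2, hzp, by rw [h.1]; rfl⟩]
      ring
    · rw [h.2, if_neg (by rw [h.1]; simp)]
      ring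
  rw [h3]
  have hEs : E0 i ≤ ∑ i, E0 i := single_le_sum (f := E0) (fun j _ => hE0 j) (mem_univ i)
  have hEs1 : E1 i ≤ ∑ i, E1 i := single_le_sum (f := E1) (fun j _ => hE1 j) (mem_univ i)
  have hCs : Ct i ≤ ∑ i, |Ct i| :=
    (le_abs_self _).trans (single_le_sum (f := fun i => |Ct i|) (fun j _ => abs_nonneg _) (mem_univ i))
  have hCs1 : Cu i ≤ ∑ i, |Cu i| :=
    (le_abs_self _).trans (single_le_sum (f := fun i => |Cu i|) (fun j _ => abs_nonneg _) (mem_univ i))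
  have k1 := mul_le_mul_of_nonneg_right hEs hll
  have k2 := mul_le_mul_of_nonneg_right hEs1 hll
  have k3 : 0 ≤ (∑ i, E0 i) * Real.log (Real.log r) :=
    mul_nonneg (sum_nonneg fun i _ => hE0 i) hll
  have k4 : 0 ≤ (∑ i, E1 i) * Real.log (Real.log r) :=
    mul_nonneg (sum_nonneg fun i _ => hE1 i) hll
  have k5 : 0 ≤ ∑ i, |Ct i| := sum_nonneg fun i _ => abs_nonneg _
  have k6 : 0 ≤ ∑ i, |Cu i| := sum_nonneg fun i _ => abs_nonneg _
  rw [add_mul]
  linarith

/-- the average over the primes of both types -/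
theorem sum_RN (hat : ATG) (hexp : EXPG) (hl : LWP) (ht : TWP) (hgd : GDP) (hco : COMBK)
    (D : ℤ[X]) (hD : Squarefree (D.map (Int.castRingHom ℚ))) (hd : 0 < D.natDegree)
    (b : ℤ) (hb : b ≠ 0) (c k : ℕ) (hc : D.natDegree ≤ c) (hk : 2 * c ≤ 4 ^ k)
    (κ : Unit → Fin 3 → ℤ) (hκ : ∀ j i, κ j i ≠ 0) :
    ∃ z0 : ℕ, ∀ z, z0 ≤ z → ∃ C' : ℝ, ∀ y, z < y →
      ∑ s ∈ Tup Unit z y, NBK k κ (fun _ => sR (τq b) (s ())) * ∏ j, gp (rz D z) c (s j) ≤
        C' * Real.exp (Sp (fun p => rho D p) z y) := by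
  obtain ⟨z0, hz0⟩ := sum_R hat hexp hl ht hgd hco D hD hd b hb c k hc hk κ hκ
  obtain ⟨zg, hzg⟩ := hgd D hD
  refine ⟨z0 + zg + (2 * c + 2), fun z hz => ?_⟩
  obtain ⟨C', hC'⟩ := hz0 z (by omega)
  have hG := hzg z (by omega)
  have hG' : GoodD D z c := fun p hp hzp => ⟨(hG p hp hzp).1.trans hc, (hG p hp hzp).2⟩
  obtain ⟨C'', hC0, hC''⟩ := sum_gp_le (w := rzt D (τq b) false z) (rzt_nonneg _ _ _ _)
    (rzt_le hG' _ _) (by omega : 2 * c + 2 ≤ z)
  refine ⟨|C'| * C'', fun y hy => ?_⟩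
  have hcz : c ≤ z := by omega
  have hN0 : ∀ s, 0 ≤ NBK k κ s := by
    intro s
    unfold NBK
    exact mul_nonneg (by positivity) (sum_nonneg fun _ _ => pow_nonneg (Nat.cast_nonneg _) _)
  set f : (Unit → ℕ) → ℝ := fun u => NBK k κ u * ∏ j, gp (rzt D (τq b) true z) c (u j) with hf
  set g : ℕ → ℝ := fun v => gp (rzt D (τq b) false z) c v with hg
  have hf0 : ∀ u ∈ Tup Unit z y, 0 ≤ f u := fun u hu =>
    mul_nonneg (hN0 u) (prod_nonneg fun j _ => gp_nonneg (rzt_nonneg _ _ _ _) hcz (Tup_unit hu))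
  have hg0 : ∀ v ∈ (PP z y).divisors, 0 ≤ g v := fun v hv =>
    gp_nonneg (rzt_nonneg _ _ _ _) hcz (Nat.dvd_of_mem_divisors hv)
  set φ : (Unit → ℕ) → (Unit → ℕ) × ℕ := fun s => (fun _ => sR (τq b) (s ()), sN (τq b) (s ()))
    with hφ
  have hsq : ∀ s ∈ Tup Unit z y, Squarefree (s ()) := fun s hs =>
    (PP_squarefree z y).squarefree_of_dvd (Tup_unit hs)
  have hinj : Set.InjOn φ (Tup Unit z y : Set (Unit → ℕ)) := by
    intro s hs t ht' hst
    rw [hφ] at hst
    simp only [Prod.mk.injEq] at hst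
    have h1 := congrFun hst.1 ()
    funext u
    have hu : u = () := rfl
    rw [hu, ← sR_mul_sN (τ := τq b) (hsq s hs), ← sR_mul_sN (τ := τq b) (hsq t ht'), h1, hst.2]
  have hmaps : ∀ s ∈ Tup Unit z y, φ s ∈ Tup Unit z y ×ˢ (PP z y).divisors := by
    intro s hs
    rw [mem_product, mem_Tup', Nat.mem_divisors]
    refine ⟨⟨fun _ => (prod_filter_dvd _).trans (Tup_unit hs), fun i j hij => absurd rfl hij⟩,
      (prod_filter_dvd _).trans (Tup_unit hs), PP_ne_zero z y⟩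
  calc ∑ s ∈ Tup Unit z y, NBK k κ (fun _ => sR (τq b) (s ())) * ∏ j, gp (rz D z) c (s j)
      = ∑ s ∈ Tup Unit z y, f (φ s).1 * g (φ s).2 := by
        refine sum_congr rfl fun s hs => ?_
        rw [hφ, hf, hg]
        simp only [univ_unique, PUnit.default_eq_unit, prod_singleton]
        rw [gp_split D (τq b) (Tup_unit hs)]
        ring
    _ = ∑ x ∈ (Tup Unit z y).image φ, f x.1 * g x.2 := by
        rw [sum_image hinj]
    _ ≤ ∑ x ∈ Tup Unit z y ×ˢ (PP z y).divisors, f x.1 * g x.2 := by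
        refine sum_le_sum_of_subset_of_nonneg ?_ ?_
        · intro x hx
          obtain ⟨s, hs, rfl⟩ := mem_image.1 hx
          exact hmaps s hs
        · intro x hx _
          rw [mem_product] at hx
          exact mul_nonneg (hf0 _ hx.1) (hg0 _ hx.2)
    _ = (∑ u ∈ Tup Unit z y, f u) * ∑ v ∈ (PP z y).divisors, g v := by
        rw [sum_mul_sum, sum_product]
    _ ≤ (|C'| * Real.exp (Sp (rzt D (τq b) true z) z y)) *
        (C'' * Real.exp (Sp (rzt D (τq b) false z) z y)) := by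
        refine mul_le_mul ?_ (hC'' y) (sum_nonneg hg0)
          (mul_nonneg (abs_nonneg _) (Real.exp_pos _).le)
        exact (hC' y hy).trans (mul_le_mul_of_nonneg_right (le_abs_self _) (Real.exp_pos _).le)
    _ = _ := by
        rw [← Sp_split D (τq b) z y, Real.exp_add]
        ring

end Pool.Agent.Y668
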