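import Mathlib
import Pool.Agent.Y668.SumN

/-!
# The moments of the number of the classes over the values of a polynomial
-/

set_option autoImplicit false

namespace Pool.Agent.Y668

open Finset Polynomial Pool.Agent.W262.RK Pool.Agent.W307.RT Pool.Agent.W307.RS
  Pool.Agent.TH841.PT

open Pool.Agent.H474R2.PG (rho)

/-- the sum over the signs -/
lemma tw_sum (τ σ : ℕ → Bool) (s : ℕ) (h : Finset ℕ → ℝ) :
    ∑ E ∈ s.primeFactors.powerset, h (tw τ σ s E) =
      2 ^ (s.primeFactors.filter (fun p => τ p = false)).card *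
        ∑ E ∈ (s.primeFactors.filter (fun p => τ p = true)).powerset, h E := by
  classical
  set R := s.primeFactors.filter (fun p => τ p = true) with hR
  set N := s.primeFactors.filter (fun p => τ p = false) with hN
  have h1 : ∑ E ∈ s.primeFactors.powerset, h (tw τ σ s E) =
      ∑ x ∈ R.powerset ×ˢ N.powerset, h x.1 := by
    refine sum_nbij' (fun E => (tw τ σ s E, E ∩ N))
      (fun x => R.filter (fun p => xor (decide (p ∈ x.1)) (σ p) = true) ∪ x.2) ?_ ?_ ?_ ?_ ?_
    · intro E _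
      rw [mem_product, mem_powerset, mem_powerset]
      exact ⟨filter_subset _ _, inter_subset_right⟩
    · intro x hx
      rw [mem_product, mem_powerset, mem_powerset] at hx
      rw [mem_powerset]
      exact union_subset ((filter_subset _ _).trans (filter_subset _ _))
        (hx.2.trans (filter_subset _ _))
    · intro E hE
      rw [mem_powerset] at hE
      ext p
      simp only [mem_union, mem_filter, mem_inter]
      unfold tw
      rw [← hR]
      simp only [mem_filter]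
      by_cases hpE : p ∈ E
      · have hps := hE hpE
        by_cases hτ : τ p = true
        · have hpR : p ∈ R := mem_filter.2 ⟨hps, hτ⟩
          simp only [hpE, hpR, true_and, iff_true]
          left
          cases σ p <;> simp
        · have hτ' : τ p = false := by simpa using hτ
          have hpN : p ∈ N := mem_filter.2 ⟨hps, hτ'⟩
          simp [hpE, hpN]
      · simp only [hpE, false_and, or_false, iff_false]
        rintro ⟨hpR, h2⟩
        simp only [hpR, true_and] at h2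
        revert h2
        cases σ p <;> simp
    · intro x hx
      rw [mem_product, mem_powerset, mem_powerset] at hx
      obtain ⟨hx1, hx2⟩ := hx
      apply Prod.ext
      · ext p
        unfold tw
        rw [← hR]
        simp only [mem_filter, mem_union]
        by_cases hpR : p ∈ R
        · have hpN : p ∉ x.2 := by
            intro h3
            have h4 := (mem_filter.1 (hx2 h3)).2
            have h5 := (mem_filter.1 hpR).2
            rw [h4] at h5
            exact absurd h5 (by decide)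
          simp only [hpR, true_and, hpN, or_false]
          by_cases h3 : p ∈ x.1
          · simp only [h3, iff_true]
            cases σ p <;> simp
          · simp only [h3, iff_false]
            cases σ p <;> simp
        · simp only [hpR, false_and, false_iff]
          intro h3
          exact hpR (hx1 h3)
      · ext p
        simp only [mem_inter, mem_union, mem_filter]
        constructor
        · rintro ⟨h3 | h3, h4⟩
          · have h5 := (mem_filter.1 h3.1).2
            have h6 := (mem_filter.1 h4).2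
            rw [h5] at h6
            exact absurd h6 (by decide)
          · exact h3
        · intro h3
          exact ⟨Or.inr h3, hx2 h3⟩
    · intro E _
      rfl
  rw [h1, sum_product]
  simp only [sum_const, nsmul_eq_mul]
  rw [card_powerset, ← mul_sum]
  push_cast
  ring

lemma card_split (τ : ℕ → Bool) (s : ℕ) :
    s.primeFactors.card = (s.primeFactors.filter (fun p => τ p = true)).card +
      (s.primeFactors.filter (fun p => τ p = false)).card := by
  have h1 : s.primeFactors.filter (fun p => τ p = false) =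
      s.primeFactors.filter (fun p => ¬ τ p = true) := by
    refine filter_congr fun p _ => ?_
    simp
  rw [h1, card_filter_add_card_filter_not]

/-- the average over the signs -/
noncomputable def GN (τ : ℕ → Bool) (k : ℕ) (s : Unit → ℕ) : ℝ :=
  NBK k κ0 (fun _ => sR τ (s ()))

lemma GN_nonneg (τ : ℕ → Bool) (k : ℕ) (s : Unit → ℕ) : 0 ≤ GN τ k s := by
  unfold GN NBK
  exact mul_nonneg (by positivity) (sum_nonneg fun _ _ => pow_nonneg (Nat.cast_nonneg _) _)

lemma GN_eq (τ σ : ℕ → Bool) (k s : ℕ) :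
    (1 / 2 : ℝ) ^ s.primeFactors.card * ∑ E ∈ s.primeFactors.powerset,
      (NL (sR τ s) (LLs (c3 Unit) κ0 (fun _ => sR τ s) (tw τ σ s E)) : ℝ) ^ k =
    GN τ k (fun _ => s) := by
  rw [tw_sum τ σ s (fun E => (NL (sR τ s) (LLs (c3 Unit) κ0 (fun _ => sR τ s) E) : ℝ) ^ k),
    card_split τ s, pow_add]
  unfold GN NBK
  rw [P3_c3]
  have h1 : (sR τ s).primeFactors = s.primeFactors.filter (fun p => τ p = true) := by
    unfold sR
    exact prod_filter_primeFactors s
  rw [h1]
  have h2 : ∏ _j : Unit, sR τ s = sR τ s := by simp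
  rw [h2]
  have h3 : (1 / 2 : ℝ) ^ (s.primeFactors.filter (fun p => τ p = false)).card *
      2 ^ (s.primeFactors.filter (fun p => τ p = false)).card = 1 := by
    rw [← mul_pow]
    norm_num
  linear_combination ((1 / 2 : ℝ) ^ (s.primeFactors.filter (fun p => τ p = true)).card *
    ∑ E ∈ (s.primeFactors.filter (fun p => τ p = true)).powerset,
      (NL (sR τ s) (LLs (c3 Unit) κ0 (fun _ => sR τ s) E) : ℝ) ^ k) * h3

lemma sR_mul {τ : ℕ → Bool} {s e : ℕ} (h : Squarefree (s * e)) :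
    sR τ (s * e) = sR τ s * sR τ e := by
  have hc : s.Coprime e := Nat.coprime_of_squarefree_mul h
  unfold sR
  rw [hc.primeFactors_mul, filter_union, prod_union]
  exact disjoint_filter_filter hc.disjoint_primeFactors

lemma GN_sub (hsub : SUBBK) (τ : ℕ → Bool) (k z y : ℕ) (hz : 4 ≤ z) (s e : Unit → ℕ)
    (h : (fun j => s j * e j) ∈ Tup Unit z y) :
    GN τ k (fun j => s j * e j) ≤ (4 ^ k : ℝ) ^ (∑ j, (e j).primeFactors.card) * GN τ k s := by
  have hsq : Squarefree (s () * e ()) := (PP_squarefree z y).squarefree_of_dvd (Tup_unit h)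
  have h1 : GN τ k (fun j => s j * e j) =
      NBK k κ0 (fun j => (fun _ : Unit => sR τ (s ())) j * (fun _ : Unit => sR τ (e ())) j) := by
    unfold GN
    simp only
    rw [sR_mul hsq]
  have h2 : (fun j => (fun _ : Unit => sR τ (s ())) j * (fun _ : Unit => sR τ (e ())) j) ∈
      Tup Unit z y := by
    rw [mem_Tup']
    refine ⟨fun _ => ?_, fun i j hij => absurd rfl hij⟩
    simp only
    rw [← sR_mul hsq]
    exact (prod_filter_dvd _).trans (Tup_unit h)
  rw [h1]
  refine (hsub Unit k κ0 z y (by omega) κ0_ne (fun j i => (κ0_le j i).trans hz) _ _ h2).trans ?_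
  refine mul_le_mul_of_nonneg_right ?_ (GN_nonneg τ k s)
  refine pow_le_pow_right₀ (one_le_pow₀ (by norm_num)) ?_
  simp only [univ_unique, PUnit.default_eq_unit, sum_singleton]
  have h3 : (sR τ (e ())).primeFactors = (e ()).primeFactors.filter (fun p => τ p = true) := by
    unfold sR
    exact prod_filter_primeFactors _
  rw [h3]
  exact card_filter_le _ _

/-- the main average -/
def MAKZ (b : ℤ) : Prop := ∀ D : ℤ[X], Squarefree (D.map (Int.castRingHom ℚ)) → 0 < D.natDegree →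
  ∀ c k : ℕ, D.natDegree ≤ c → 2 * c ≤ 4 ^ k →
    ∃ z0 : ℕ, ∀ z, z0 ≤ z → ∃ C' : ℝ, ∀ y, z < y →
      ∑ s ∈ Tup Unit z y, GN (τq b) k s * ∏ j, gp (rz D z) c (s j) ≤
        C' * Real.exp (Sp (fun p => rho D p) z y)

/-- **the moments of the number of the classes**, large exponents -/
theorem avz_big (hcnt : CNTP) (hant : ANTX) (hrs : RSP) (hrv : RVP) (hru : RUP) (hgd : GDP)
    (hsub : SUBBK) (b : ℤ) (hma : MAKZ b) (D : ℤ[X]) (k0 B z1 : ℕ) (σ : ℕ → Bool)
    (hD : Squarefree (D.map (Int.castRingHom ℚ)))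
    (hd : 0 < D.natDegree) (hk0 : 2 * D.natDegree ≤ 4 ^ k0) :
    ∃ C : ℝ, ∀ (N : ℤ) (X : ℕ), 1 ≤ X → N.natAbs ≤ X ^ B →
      ∑ t ∈ (Icc 1 X).filter (fun t : ℕ => D.eval (N + (t : ℤ)) ≠ 0),
        ((Zs z1 (τq b) σ (D.eval (N + (t : ℤ)))).ncard : ℝ) ^ k0 ≤ C * X := by
  set c := D.natDegree with hc
  obtain ⟨z0, hz0⟩ := hma D hD hd c k0 le_rfl hk0
  obtain ⟨zg, hzg⟩ := hgd D hD
  set z : ℕ := z0 + zg + (2 * c + 2) + 4 + z1 with hz
  have hG := hzg z (by omega)
  obtain ⟨C', hC'⟩ := hz0 z (by omega)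
  obtain ⟨C, K, y0, hC0, hK1, hcn⟩ := hcnt c z (by omega)
  obtain ⟨Kd, hKd⟩ := eval_le D
  set B' : ℕ := (B + 2) * c + 1 with hB'
  set y1 : ℕ := y0 + Kd + 3 with hy1
  -- the summand
  let r : ℤ → ℝ := fun w => ((Zs z1 (τq b) σ (D.eval w)).ncard : ℝ) ^ k0
  have hr0 : ∀ w, 0 ≤ r w := fun w => pow_nonneg (Nat.cast_nonneg _) _
  suffices key : ∃ C2 : ℝ, ∀ θ : {θ : ℤ × ℕ // 1 ≤ θ.2 ∧ θ.1.natAbs ≤ θ.2 ^ B},
      ∑ t ∈ (Icc 1 θ.1.2).filter (fun t : ℕ => D.eval (θ.1.1 + (t : ℤ)) ≠ 0),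
        r (θ.1.1 + (t : ℤ)) ≤ C2 * (θ.1.2 : ℝ) by
    obtain ⟨C2, hC2⟩ := key
    exact ⟨C2, fun N X hX hN => hC2 ⟨(N, X), hX, hN⟩⟩
  set G : (Unit → ℕ) → ℝ := GN (τq b) k0 with hGdef
  have hG0 : ∀ s, 0 ≤ G s := fun s => GN_nonneg _ _ s
  have hcz : c ≤ z := by omega
  have hrc : ∀ p, p.Prime → rz D z p ≤ c := by
    intro p hp
    unfold rz
    split_ifs with h
    · exact_mod_cast (hG p hp h).1
    · exact Nat.cast_nonneg _
  -- the weights for the primes only
  set w : ℕ → ℝ := fun p => if p.Prime then rz D z p else 0 with hw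
  have hw0 : ∀ p, 0 ≤ w p := by
    intro p
    rw [hw]
    simp only
    split_ifs
    · exact rz_nonneg _ _ _
    · exact le_rfl
  have hwc : ∀ p, w p ≤ c := by
    intro p
    rw [hw]
    simp only
    split_ifs with h
    · exact hrc p h
    · exact Nat.cast_nonneg _
  have hgw : ∀ d, gp w c d = gp (rz D z) c d := by
    intro d
    unfold gp
    refine prod_congr rfl fun p hp => ?_
    rw [hw]
    simp only
    rw [if_pos (Nat.prime_of_mem_primeFactors hp)]
  have hgwn : ∀ {y d : ℕ}, d ∣ PP z y → 0 ≤ gp w c d := fun hd => gp_nonneg hw0 hcz hd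
  have hc1 : 1 ≤ c := hd
  refine hant Unit ℕ {θ : ℤ × ℕ // 1 ≤ θ.2 ∧ θ.1.natAbs ≤ θ.2 ^ B}
    (fun θ => (Icc 1 θ.1.2).filter (fun t : ℕ => D.eval (θ.1.1 + (t : ℤ)) ≠ 0))
    (fun θ => θ.1.2) (fun θ t _ => D.eval (θ.1.1 + (t : ℤ))) (fun θ => (θ.1.2 : ℝ)) z
    (fun y => Real.exp (Sp (fun p => rho D p) z y))
    (fun s => G s * ∏ j, gp w c (s j))
    (fun v => ∏ j, (((4 : ℝ) ^ k0) ^ (v j).primeFactors.card * (gp w c (v j) / v j)))
    (fun u => ∏ j, ((c : ℝ) ^ (u j).primeFactors.card / (u j : ℝ)))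
    (fun θ t => r (θ.1.1 + (t : ℤ)))
    (C * (4 ^ (z + 2)) ^ k0) ((4 ^ B') ^ k0) K y1 (by omega) (fun y _ => Real.exp_pos _)
    (fun θ => θ.2.1) (fun θ => Nat.cast_nonneg _) (fun X0 => ?_) (fun θ t ht => ?_)
    (fun θ t => hr0 _) (by positivity) (one_le_pow₀ (one_le_pow₀ (by norm_num))) hK1
    (fun y s hs => ⟨?_, ?_⟩) (fun y Y _ u hu => ?_) (fun lam hlam => ?_)
    (fun lam hlam => ?_) (fun lam hlam => ?_) ?_
  · -- small scales
    refine ⟨∑ N ∈ Icc (-((X0 : ℤ) ^ B)) ((X0 : ℤ) ^ B), ∑ t ∈ Icc 1 X0, r (N + (t : ℤ)), ?_⟩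
    rintro ⟨⟨N, X⟩, hX, hN⟩ hle
    simp only at hX hN hle ⊢
    have hX0 : X ^ B ≤ X0 ^ B := Nat.pow_le_pow_left hle B
    have hmem : N ∈ Icc (-((X0 : ℤ) ^ B)) ((X0 : ℤ) ^ B) := by
      rw [mem_Icc]
      have h1 : (N.natAbs : ℤ) ≤ (X0 : ℤ) ^ B := by exact_mod_cast hN.trans hX0
      omega
    have h1 : ∑ t ∈ (Icc 1 X).filter (fun t : ℕ => D.eval (N + (t : ℤ)) ≠ 0),
        r (N + (t : ℤ)) ≤ ∑ t ∈ Icc 1 X0, r (N + (t : ℤ)) := by
      refine sum_le_sum_of_subset_of_nonneg ?_ fun t _ _ => hr0 _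
      exact (filter_subset _ _).trans (Icc_subset_Icc_right hle)
    have h2 : ∑ t ∈ Icc 1 X0, r (N + (t : ℤ)) ≤
        ∑ N ∈ Icc (-((X0 : ℤ) ^ B)) ((X0 : ℤ) ^ B), ∑ t ∈ Icc 1 X0, r (N + (t : ℤ)) :=
      single_le_sum (f := fun N : ℤ => ∑ t ∈ Icc 1 X0, r (N + (t : ℤ)))
        (fun _ _ => sum_nonneg fun _ _ => hr0 _) hmem
    have h3 : 0 ≤ ∑ N ∈ Icc (-((X0 : ℤ) ^ B)) ((X0 : ℤ) ^ B), ∑ t ∈ Icc 1 X0, r (N + (t : ℤ)) :=
      sum_nonneg fun _ _ => sum_nonneg fun _ _ => hr0 _
    have h4 : (1 : ℝ) ≤ (X : ℝ) := by exact_mod_cast hX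
    exact (h1.trans h2).trans (le_mul_of_one_le_right h3 h4)
  · -- good values
    refine ⟨fun _ => (mem_filter.1 ht).2, fun p hp hzp j l hjl _ => absurd rfl hjl⟩
  · exact mul_nonneg (hG0 s) (prod_nonneg fun j _ => hgwn (Tup_unit hs))
  · exact prod_nonneg fun j _ => mul_nonneg (by positivity)
      (div_nonneg (hgwn (Tup_unit hs)) (Nat.cast_nonneg _))
  · exact prod_nonneg fun j _ => by positivity
  · -- the first sum
    obtain ⟨A, hA⟩ := hrs Unit z c (fun _ => w) G
      (fun y => C' * Real.exp (Sp (fun p => rho D p) z y)) (4 ^ k0) lam (by omega)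
      (fun _ p => ⟨hw0 p, hwc p⟩) (one_le_pow₀ (by norm_num)) hlam hG0
      (fun y hy s e hse => GN_sub hsub (τq b) k0 z y (by omega) s e hse)
      (fun y hy => by
        simp only [hgw]
        exact hC' y hy)
    refine ⟨A * C', fun y hy => ?_⟩
    have := hA y hy
    rw [mul_assoc]
    exact this
  · exact hrv Unit z c (fun _ => w) (4 ^ k0) lam (by omega)
      (fun _ p => ⟨hw0 p, hwc p⟩) (one_le_pow₀ (by norm_num)) hlam
  · exact hru Unit (c : ℝ) lam (by exact_mod_cast hc1) hlam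
  -- the local majorant
  rintro ⟨⟨N, X⟩, hX1, hN⟩ y Y k hy0 hzy hyK hk s hs v hv u hu h8 T' hT' hval
  simp only at hX1 hN hyK hk h8 hT' hval ⊢
  have hy00 : y0 ≤ y := by omega
  have hyX : y ≤ X := le_trans (Nat.le_self_pow (by omega) y) hyK
  set g : Finset ℕ → ℝ := fun E => (NL (sR (τq b) (s ()))
    (LLs (c3 Unit) κ0 (fun _ => sR (τq b) (s ())) (tw (τq b) σ (s ()) E)) : ℝ) ^ k0 with hg
  have hg0 : ∀ E, 0 ≤ g E := fun E => pow_nonneg (Nat.cast_nonneg _) _
  have h1 : ∀ t ∈ T', r (N + (t : ℤ)) ≤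
      (4 ^ (z + 2)) ^ k0 * ((4 ^ B') ^ k0) ^ k *
        (4 ^ k0) ^ (v ()).primeFactors.card * g (ngs (D.eval (N + (t : ℤ))) (s ())) := by
    intro t ht
    have htT := hT' ht
    rw [mem_filter] at htT
    obtain ⟨ht1, ht0⟩ := htT
    obtain ⟨hts, htv, _⟩ := hval t ht
    have hsize : (D.eval (N + (t : ℤ))).natAbs ≤ X ^ B' := by
      have e2 : t ≤ X := (mem_Icc.1 ht1).2
      have e5 : X ^ B ≤ X ^ (B + 1) := Nat.pow_le_pow_right hX1 (by omega)
      have e6 : X ≤ X ^ (B + 1) := Nat.le_self_pow (by omega) X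
      have e7 : 1 ≤ X ^ (B + 1) := Nat.one_le_pow _ _ hX1
      have e8 : (N + (t : ℤ)).natAbs ≤ X ^ (B + 2) := by
        calc (N + (t : ℤ)).natAbs ≤ N.natAbs + t :=
              (Int.natAbs_add_le _ _).trans (by rw [Int.natAbs_natCast])
          _ ≤ X ^ (B + 1) + X ^ (B + 1) := Nat.add_le_add (hN.trans e5) (e2.trans e6)
          _ = 2 * X ^ (B + 1) := by ring
          _ ≤ X * X ^ (B + 1) := Nat.mul_le_mul_right _ (by omega)
          _ = X ^ (B + 2) := by ring
      calc (D.eval (N + (t : ℤ))).natAbs ≤ Kd * (X ^ (B + 2)) ^ c :=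
            hKd _ _ (Nat.one_le_pow _ _ hX1) e8
        _ ≤ X * (X ^ (B + 2)) ^ c := Nat.mul_le_mul_right _ (by omega)
        _ = X ^ B' := by rw [hB', ← pow_mul]; ring
    have hr := (zs_card (z0 := z1) (z := z) (y := y) (by omega) (by omega) (τq b) σ ht0 hsize hX1
      (by omega) hk).2
    have es1 : S1 z y (fun _ : Unit => D.eval (N + (t : ℤ))) = s := hts
    have es2 : S2 z y (fun _ : Unit => D.eval (N + (t : ℤ))) = v := htv
    rw [es1, es2] at hr
    have hr' : ((Zs z1 (τq b) σ (D.eval (N + (t : ℤ)))).ncard : ℝ) ≤ 4 ^ (z + 2) * (4 ^ B') ^ k *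
        4 ^ (v ()).primeFactors.card * (NL (sR (τq b) (s ())) (LLs (c3 Unit) κ0
          (fun _ => sR (τq b) (s ())) (tw (τq b) σ (s ()) (ngs (D.eval (N + (t : ℤ))) (s ())))) :
            ℝ) := by
      exact_mod_cast hr
    refine (pow_le_pow_left₀ (Nat.cast_nonneg _) hr' k0).trans (le_of_eq ?_)
    rw [hg]
    simp only [mul_pow]
    rw [← pow_mul 4 (v ()).primeFactors.card k0, ← pow_mul 4 k0, mul_comm k0,
      ← pow_mul (4 ^ B') k k0, ← pow_mul (4 ^ B') k0 k, mul_comm k k0]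
  have hneg : ∀ t ∈ T', ngs (D.eval (N + (t : ℤ))) (s ()) ∈ (s ()).primeFactors.powerset := by
    intro t _
    rw [mem_powerset]
    exact filter_subset _ _
  have h2 : ∑ t ∈ T', g (ngs (D.eval (N + (t : ℤ))) (s ())) =
      ∑ E ∈ (s ()).primeFactors.powerset,
        ((T'.filter (fun t : ℕ => ngs (D.eval (N + (t : ℤ))) (s ()) = E)).card : ℝ) * g E := by
    rw [← sum_fiberwise_of_maps_to hneg]
    refine sum_congr rfl fun E _ => ?_
    rw [← nsmul_eq_mul, ← sum_const]
    refine sum_congr rfl fun t ht => ?_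
    rw [(mem_filter.1 ht).2]
  set Q : ℝ := C * X * (1 / 2) ^ (s ()).primeFactors.card * gp (fun p => rho D p) c (s ()) *
        (gp (fun p => rho D p) c (v ()) / v ()) * ((c : ℝ) ^ (u ()).primeFactors.card / u ()) *
        Real.exp (-Sp (fun p => rho D p) z y) with hQ
  have h8' : (s () * v () * u ()) ^ 8 ≤ X := by simpa using h8
  have h3 : ∀ E ∈ (s ()).primeFactors.powerset,
      ((T'.filter (fun t : ℕ => ngs (D.eval (N + (t : ℤ))) (s ()) = E)).card : ℝ) * g E ≤
        Q * g E := by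
    intro E _
    refine mul_le_mul_of_nonneg_right ?_ (hg0 E)
    refine le_trans ?_ (hcn D hG N X y Y hy00 hzy hyK (s ()) (v ()) (u ()) (Tup_unit hs)
      (Tup_unit hv) (Tup_unit hu) h8' E)
    have h4 : T'.filter (fun t : ℕ => ngs (D.eval (N + (t : ℤ))) (s ()) = E) ⊆
        (Icc 1 X).filter (fun t : ℕ =>
          S1 z y (fun _ : Unit => D.eval (N + (t : ℤ))) () = s () ∧
          S2 z y (fun _ : Unit => D.eval (N + (t : ℤ))) () = v () ∧
          ((u () : ℕ) : ℤ) ∣ D.eval (N + (t : ℤ)) ∧ ngs (D.eval (N + (t : ℤ))) (s ()) = E) := by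
      intro t ht
      rw [mem_filter] at ht
      rw [mem_filter]
      obtain ⟨ht', htE⟩ := ht
      obtain ⟨hts, htv, htu⟩ := hval t ht'
      exact ⟨(mem_filter.1 (hT' ht')).1, congrFun hts (), congrFun htv (), htu (), htE⟩
    exact_mod_cast card_le_card h4
  calc ∑ t ∈ T', r (N + (t : ℤ))
      ≤ ∑ t ∈ T', (4 ^ (z + 2)) ^ k0 * ((4 ^ B') ^ k0) ^ k *
        (4 ^ k0) ^ (v ()).primeFactors.card * g (ngs (D.eval (N + (t : ℤ))) (s ())) :=
        sum_le_sum h1
    _ = (4 ^ (z + 2)) ^ k0 * ((4 ^ B') ^ k0) ^ k * (4 ^ k0) ^ (v ()).primeFactors.card *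
          ∑ E ∈ (s ()).primeFactors.powerset,
            ((T'.filter (fun t : ℕ => ngs (D.eval (N + (t : ℤ))) (s ()) = E)).card : ℝ) * g E := by
        rw [← mul_sum, h2]
    _ ≤ (4 ^ (z + 2)) ^ k0 * ((4 ^ B') ^ k0) ^ k * (4 ^ k0) ^ (v ()).primeFactors.card *
          ∑ E ∈ (s ()).primeFactors.powerset, Q * g E :=
        mul_le_mul_of_nonneg_left (sum_le_sum h3) (by positivity)
    _ = _ := by
        have e1 : G s = (1 / 2) ^ (s ()).primeFactors.card *
            ∑ E ∈ (s ()).primeFactors.powerset, g E := by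
          rw [hGdef, hg]
          exact (GN_eq (τq b) σ k0 (s ())).symm
        have e3 : gp w c (s ()) = gp (fun p => rho D p) c (s ()) := by
          rw [hgw, gp_rz D (Tup_unit hs)]
        have e4 : gp w c (v ()) = gp (fun p => rho D p) c (v ()) := by
          rw [hgw, gp_rz D (Tup_unit hv)]
        have e5 : ∀ F : Unit → ℝ, ∏ j, F j = F () := fun F => by simp
        rw [← mul_sum, e5, e5, e5, e1, e3, e4, hQ, Real.exp_neg]
        ring

end Pool.Agent.Y668
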