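import Mathlib
import Pool.Agent.Y668.AvgZ
import Pool.Agent.TH841.PT.Fin1
import Pool.Agent.TH841.PT.Sel

/-!
# The moments of the ranks
-/

set_option autoImplicit false

namespace Pool.Agent.Y668

open Finset Polynomial Pool.Agent.W262.RK Pool.Agent.W307.RT Pool.Agent.W307.RS
  Pool.Agent.TH841.PT

theorem makz {b : ℤ} (hb : b ≠ 0) : MAKZ b := by
  intro D hD hd c k hc hk
  exact sum_RN atg ExpG.expg (LWPf.lwp_of fact) twp GDPf.gdp Pool.Agent.W12.RS.combk D hD hd b hb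
    c k hc hk κ0 κ0_ne

/-- **all the moments of the number of the classes** -/
theorem avz {b : ℤ} (hb : b ≠ 0) (D : ℤ[X]) (k L z1 : ℕ) (σ : ℕ → Bool)
    (hD : Squarefree (D.map (Int.castRingHom ℚ))) :
    ∃ C : ℝ, ∀ (N : ℤ) (M : ℕ), 1 ≤ M → |N| ≤ (M : ℤ) ^ L →
      ∑ t ∈ (Ioc N (N + M)).filter (fun t => D.eval t ≠ 0),
        ((Zs z1 (τq b) σ (D.eval t)).ncard : ℝ) ^ k ≤ C * M := by
  classical
  by_cases hd : 0 < D.natDegree
  · set k' := k + 2 * D.natDegree with hk'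
    have hk2 : 2 * D.natDegree ≤ 4 ^ k' := by
      have h1 : k' < 4 ^ k' := Nat.lt_pow_self (by norm_num)
      omega
    obtain ⟨C, hC⟩ := avz_big (CNTPf.cntp_of SVPf.svp) antx RSPf.rsp RVU.rvp RVU.rup GDPf.gdp
      Pool.Agent.W925.RS.subbk b (makz hb) D k' L z1 σ hD hd hk2
    refine ⟨1 + C, fun N M hM hN => ?_⟩
    have h1 := to_Ioc (fun t => 1 + ((Zs z1 (τq b) σ (D.eval t)).ncard : ℝ) ^ k')
      (fun t => by positivity) (fun t => D.eval t ≠ 0) N M
    have h2 : ∑ t ∈ (Ioc N (N + M)).filter (fun t => D.eval t ≠ 0),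
        ((Zs z1 (τq b) σ (D.eval t)).ncard : ℝ) ^ k ≤
        ∑ t ∈ (Ioc N (N + M)).filter (fun t => D.eval t ≠ 0),
          (1 + ((Zs z1 (τq b) σ (D.eval t)).ncard : ℝ) ^ k') := by
      refine sum_le_sum fun t _ => ?_
      have h0 : (0 : ℝ) ≤ ((Zs z1 (τq b) σ (D.eval t)).ncard : ℝ) := Nat.cast_nonneg _
      rcases le_total ((Zs z1 (τq b) σ (D.eval t)).ncard : ℝ) 1 with h3 | h3
      · have := pow_le_one₀ (n := k) h0 h3
        have := pow_nonneg h0 k'
        linarith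
      · have := pow_le_pow_right₀ h3 (by omega : k ≤ k')
        linarith
    refine h2.trans (h1.trans ?_)
    rw [sum_add_distrib, add_mul]
    refine add_le_add ?_ ?_
    · rw [sum_const, nsmul_eq_mul, mul_one, one_mul]
      have := card_filter_le (Icc 1 M) (fun t : ℕ => D.eval (N + (t : ℤ)) ≠ 0)
      rw [Nat.card_Icc] at this
      exact_mod_cast this.trans (by omega)
    · convert hC N M hM (natAbs_le_of hN)
  · obtain ⟨c, hc⟩ : ∃ c : ℤ, D = C c :=
      ⟨D.coeff 0, Polynomial.eq_C_of_natDegree_eq_zero (by omega)⟩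
    refine ⟨((Zs z1 (τq b) σ c).ncard : ℝ) ^ k, fun N M hM hN => ?_⟩
    have h0 : (0 : ℝ) ≤ ((Zs z1 (τq b) σ c).ncard : ℝ) ^ k := by positivity
    calc ∑ t ∈ (Ioc N (N + M)).filter (fun t => D.eval t ≠ 0),
        ((Zs z1 (τq b) σ (D.eval t)).ncard : ℝ) ^ k
        = ((Ioc N (N + M)).filter (fun t => D.eval t ≠ 0)).card *
          ((Zs z1 (τq b) σ c).ncard : ℝ) ^ k := by
          rw [hc]
          simp only [eval_C]
          rw [sum_const, nsmul_eq_mul]
      _ ≤ M * ((Zs z1 (τq b) σ c).ncard : ℝ) ^ k := by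
          apply mul_le_mul_of_nonneg_right _ h0
          have := card_filter_le (Ioc N (N + M)) (fun t => D.eval t ≠ 0)
          rw [Int.card_Ioc] at this
          exact_mod_cast this.trans (by omega)
      _ = _ := mul_comm _ _

/-- the number of the classes is finite -/
lemma zs_fin (z1 : ℕ) (τ σ : ℕ → Bool) {d : ℤ} (hd : d ≠ 0) : (Zs z1 τ σ d).Finite := by
  refine (zs_card (z := z1 + 4) (y := 1) (X := d.natAbs) (k := d.natAbs + 1) (B := 1) (by omega)
    (by omega) τ σ hd (by rw [pow_one]) (Int.natAbs_pos.2 hd) le_rfl ?_).1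
  have : d.natAbs < 2 ^ d.natAbs := Nat.lt_two_pow_self
  calc d.natAbs < 2 ^ d.natAbs := this
    _ ≤ (1 + 1) ^ (d.natAbs + 1) := Nat.pow_le_pow_right (by norm_num) (by omega)

/-- the product of two numbers -/
lemma mul_pow_le (x y : ℝ) (hx : 0 ≤ x) (hy : 0 ≤ y) (k : ℕ) :
    (x * y) ^ k ≤ x ^ (2 * k) + y ^ (2 * k) := by
  rw [mul_pow, pow_mul', pow_mul']
  have h1 := sq_nonneg (x ^ k - y ^ k)
  have h2 := pow_nonneg hx k
  have h3 := pow_nonneg hy k
  nlinarith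

/-- from the classes to the ranks -/
theorem moments_of {b b' : ℤ} (hb : b ≠ 0) (hb' : b' ≠ 0) (D D1 : ℤ[X]) (k L z1 : ℕ)
    (σ σ' : ℕ → Bool) (hD : Squarefree (D1.map (Int.castRingHom ℚ))) (R : ℤ → ℕ)
    (hne : ∀ t, D.eval t ≠ 0 → D1.eval t ≠ 0)
    (hR : ∀ t : ℤ, D.eval t ≠ 0 → 2 ^ R t ≤ (Zs z1 (τq b) σ (D1.eval t)).ncard *
      (Zs z1 (τq b') σ' (D1.eval t)).ncard) :
    ∃ C : ℝ, ∀ (N : ℤ) (M : ℕ), 1 ≤ M → |N| ≤ (M : ℤ) ^ L →
      ∑ t ∈ (Ioc N (N + M)).filter (fun t => D.eval t ≠ 0), ((2 : ℝ) ^ R t) ^ k ≤ C * M := by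
  obtain ⟨C, hC⟩ := avz hb D1 (2 * k) L z1 σ hD
  obtain ⟨C', hC'⟩ := avz hb' D1 (2 * k) L z1 σ' hD
  refine ⟨C + C', fun N M hM hN => ?_⟩
  have hsub : (Ioc N (N + M)).filter (fun t => D.eval t ≠ 0) ⊆
      (Ioc N (N + M)).filter (fun t => D1.eval t ≠ 0) := by
    intro t ht
    rw [mem_filter] at ht ⊢
    exact ⟨ht.1, hne t ht.2⟩
  calc ∑ t ∈ (Ioc N (N + M)).filter (fun t => D.eval t ≠ 0), ((2 : ℝ) ^ R t) ^ k
      ≤ ∑ t ∈ (Ioc N (N + M)).filter (fun t => D.eval t ≠ 0),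
        (((Zs z1 (τq b) σ (D1.eval t)).ncard : ℝ) ^ (2 * k) +
          ((Zs z1 (τq b') σ' (D1.eval t)).ncard : ℝ) ^ (2 * k)) := by
        refine sum_le_sum fun t ht => ?_
        refine le_trans ?_ (mul_pow_le _ _ (Nat.cast_nonneg _) (Nat.cast_nonneg _) k)
        refine pow_le_pow_left₀ (by positivity) ?_ k
        exact_mod_cast hR t (mem_filter.1 ht).2
    _ ≤ ∑ t ∈ (Ioc N (N + M)).filter (fun t => D1.eval t ≠ 0),
        (((Zs z1 (τq b) σ (D1.eval t)).ncard : ℝ) ^ (2 * k) +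
          ((Zs z1 (τq b') σ' (D1.eval t)).ncard : ℝ) ^ (2 * k)) :=
        sum_le_sum_of_subset_of_nonneg hsub fun t _ _ => by positivity
    _ ≤ (C + C') * M := by
        rw [sum_add_distrib, add_mul]
        exact add_le_add (hC N M hM hN) (hC' N M hM hN)

/-! ### Quadratic twists -/

/-- the Chinese remainder theorem for square roots -/
lemma crt_sq (c : ℚ) (P : ℚ[X]) (hP : Squarefree P)
    (h : ∀ f : ℚ[X], Irreducible f → f ∣ P → ∃ q : ℚ[X], f ∣ q ^ 2 - C c) :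
    ∃ q : ℚ[X], P ∣ q ^ 2 - C c := by
  induction P using WfDvdMonoid.induction_on_irreducible with
  | zero => exact absurd hP not_squarefree_zero
  | unit u hu => exact ⟨0, hu.dvd⟩
  | mul a i ha hi ih =>
    have hcop : IsCoprime i a := by
      have := (squarefree_mul_iff.1 hP).1
      exact this.isCoprime
    obtain ⟨q1, h1⟩ := h i hi (dvd_mul_right _ _)
    obtain ⟨q2, h2⟩ := ih (hP.of_mul_right) (fun f hf hfa => h f hf (hfa.mul_left i))
    obtain ⟨u, v, huv⟩ := hcop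
    -- `q = q1 v a + q2 u i`
    refine ⟨q1 * (v * a) + q2 * (u * i), ?_⟩
    refine IsCoprime.mul_dvd ⟨u, v, huv⟩ ?_ ?_
    · have e : (q1 * (v * a) + q2 * (u * i)) ^ 2 - C c = (q1 ^ 2 - C c) +
          i * (u * (q2 - q1) * (q1 * (v * a) + q2 * (u * i) + q1)) := by
        have hv : v * a = 1 - u * i := by linear_combination huv
        rw [hv]
        ring
      rw [e]
      exact dvd_add h1 (dvd_mul_right _ _)
    · have e : (q1 * (v * a) + q2 * (u * i)) ^ 2 - C c = (q2 ^ 2 - C c) +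
          a * (v * (q1 - q2) * (q1 * (v * a) + q2 * (u * i) + q2)) := by
        have hv : u * i = 1 - v * a := by linear_combination huv
        rw [hv]
        ring
      rw [e]
      exact dvd_add h2 (dvd_mul_right _ _)

/-- `c` is a square modulo the large primes that divide a value -/
lemma sq_mod (c : ℤ) (hc : c ≠ 0) (P : ℤ[X])
    (h : ∃ q : ℚ[X], P.map (Int.castRingHom ℚ) ∣ q ^ 2 - C (c : ℚ)) :
    ∃ z0 : ℕ, ∀ p : ℕ, p.Prime → z0 < p → ∀ t : ℤ, (p : ℤ) ∣ P.eval t → sg0 p c = false := by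
  obtain ⟨q, r, hq⟩ := h
  obtain ⟨n, Q, hn, hQ⟩ := GDPf.clear q
  obtain ⟨m, H, hm, hH⟩ := GDPf.clear r
  have key : C m * (Q ^ 2 - C (c * n ^ 2)) = C (n ^ 2) * P * H := by
    apply Polynomial.map_injective (Int.castRingHom ℚ) Int.cast_injective
    rw [Polynomial.map_mul, Polynomial.map_sub, Polynomial.map_pow, Polynomial.map_mul,
      Polynomial.map_mul, Polynomial.map_C, Polynomial.map_C, Polynomial.map_C, hQ, hH]
    simp only [eq_intCast, Int.cast_mul, Int.cast_pow, C_mul, C_pow]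
    linear_combination (C (m : ℚ) * C (n : ℚ) ^ 2) * hq
  refine ⟨m.natAbs + n.natAbs + c.natAbs, fun p hp hz t ht => ?_⟩
  have hF : Fact p.Prime := ⟨hp⟩
  have hnd : ∀ x : ℤ, x ≠ 0 → x.natAbs < p → ¬ (p : ℤ) ∣ x := by
    intro x hx hxp h
    have := Nat.le_of_dvd (Int.natAbs_pos.2 hx) (Int.natCast_dvd.1 h)
    omega
  have hpm := hnd m hm (by omega)
  have hpn := hnd n hn (by omega)
  have hpc := hnd c hc (by omega)
  have h1 : (p : ℤ) ∣ (Q.eval t) ^ 2 - c * n ^ 2 := by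
    have h2 := congrArg (Polynomial.eval t) key
    simp only [eval_mul, eval_sub, eval_pow, eval_C] at h2
    have h3 : (p : ℤ) ∣ m * ((Q.eval t) ^ 2 - c * n ^ 2) := by
      rw [h2]
      exact (ht.mul_left _).mul_right _
    exact ((Nat.prime_iff_prime_int.1 hp).dvd_or_dvd h3).resolve_left hpm
  have h2 : ¬ (p : ℤ) ∣ Q.eval t := by
    intro h3
    have h4 : (p : ℤ) ∣ c * n ^ 2 := by
      have := dvd_sub (h3.mul_right (Q.eval t)) h1
      rwa [show Q.eval t * Q.eval t - ((Q.eval t) ^ 2 - c * n ^ 2) = c * n ^ 2 by ring] at this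
    rw [pow_two] at h4
    exact Pool.Agent.W342.RK2.not_dvd_mul hpc (Pool.Agent.W342.RK2.not_dvd_mul hpn hpn) h4
  have h3 := sg0_congr (p := p) (a := Q.eval t * Q.eval t) (b := c * (n * n)) (by
    rw [show Q.eval t * Q.eval t - c * (n * n) = (Q.eval t) ^ 2 - c * n ^ 2 by ring]
    exact h1)
  rw [Pool.Agent.W342.RK2.sg0_mul h2 h2,
    Pool.Agent.W342.RK2.sg0_mul hpc (Pool.Agent.W342.RK2.not_dvd_mul hpn hpn),
    Pool.Agent.W342.RK2.sg0_mul hpn hpn] at h3
  revert h3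
  cases sg0 p c <;> cases sg0 p n <;> cases sg0 p (Q.eval t) <;> decide

/-- the curve `y² = x³ + a x² + b x` -/
def W2 (a b : ℤ) : WeierstrassCurve ℚ := ⟨0, a, 0, b, 0⟩

lemma odd_mult {D D1 D2 : ℤ[X]} (hD : D = D1 * D2 ^ 2) (hD0 : D ≠ 0)
    (hsq : Squarefree (D1.map (Int.castRingHom ℚ))) {f : ℚ[X]} (hf : Irreducible f)
    (hfD : f ∣ D1.map (Int.castRingHom ℚ)) :
    Odd (multiplicity f (D.map (Int.castRingHom ℚ))) := by
  have hinj := RingHom.injective_int (Int.castRingHom ℚ)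
  have hDq : D.map (Int.castRingHom ℚ) ≠ 0 := by
    rwa [Ne, Polynomial.map_eq_zero_iff hinj]
  have h1 : D.map (Int.castRingHom ℚ) =
      D1.map (Int.castRingHom ℚ) * (D2.map (Int.castRingHom ℚ)) ^ 2 := by
    rw [hD, Polynomial.map_mul, Polynomial.map_pow]
  have hfp : Prime f := hf.prime
  have hfin : FiniteMultiplicity f (D.map (Int.castRingHom ℚ)) :=
    FiniteMultiplicity.of_not_isUnit hf.not_isUnit hDq
  rw [h1] at hfin ⊢
  have hfin2 : FiniteMultiplicity f (D2.map (Int.castRingHom ℚ)) := by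
    refine FiniteMultiplicity.of_not_isUnit hf.not_isUnit ?_
    intro h0
    apply hDq
    rw [h1, h0]
    ring
  rw [multiplicity_mul hfp hfin, hfin2.multiplicity_pow hfp]
  have h2 : multiplicity f (D1.map (Int.castRingHom ℚ)) = 1 := by
    refine multiplicity_eq_of_dvd_of_not_dvd (by rwa [pow_one]) ?_
    intro h3
    rw [one_add_one_eq_two, sq] at h3
    exact hf.not_isUnit (hsq f h3)
  rw [h2, add_comm]
  exact ⟨_, rfl⟩

/-- **Quadratic twists of a curve with a rational point of order two by the values of a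
polynomial**: all the moments of the rank are bounded -/
theorem quad_moments {a b : ℤ} (hb : b ≠ 0) (hab : a ^ 2 - 4 * b ≠ 0) (D : ℤ[X]) (hD : D ≠ 0)
    (hsq : ∀ f : ℚ[X], Irreducible f → Odd (multiplicity f (D.map (Int.castRingHom ℚ))) →
      ∃ q : ℚ[X], f ∣ q ^ 2 - C ((b * (a ^ 2 - 4 * b) : ℤ) : ℚ)) (k L : ℕ) :
    ∃ C : ℝ, ∀ (N : ℤ) (M : ℕ), 1 ≤ M → |N| ≤ (M : ℤ) ^ L →
      ∑ t ∈ (Ioc N (N + M)).filter (fun t => D.eval t ≠ 0),
        ((2 : ℝ) ^ Module.finrank ℤ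
          (W2 (a * D.eval t) (b * D.eval t ^ 2)).toAffine.Point) ^ k ≤ C * M := by
  obtain ⟨D1, D2, hfac, hsqf⟩ := exists_fac D hD
  obtain ⟨q, hq⟩ := crt_sq _ (D1.map (Int.castRingHom ℚ)) hsqf
    (fun f hf hfD => hsq f hf (odd_mult hfac hD hsqf hf hfD))
  obtain ⟨zs, hzs⟩ := sq_mod (b * (a ^ 2 - 4 * b)) (mul_ne_zero hb hab) D1 ⟨q, hq⟩
  set z1 : ℕ := zs + 2 + b.natAbs + (a ^ 2 - 4 * b).natAbs with hz1
  have hev : ∀ t, D.eval t = D1.eval t * D2.eval t ^ 2 := by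
    intro t
    rw [hfac, eval_mul, eval_pow]
  have hne1 : ∀ t, D.eval t ≠ 0 → D1.eval t ≠ 0 := fun t h h0 => h (by rw [hev, h0, zero_mul])
  have hne2 : ∀ t, D.eval t ≠ 0 → D2.eval t ≠ 0 := fun t h h0 => h (by rw [hev, h0]; ring)
  have hHK : ∀ t, HK z1 a b (D1.eval t) := by
    intro t p hp hzp
    have hF : Fact p.Prime := ⟨hp⟩
    have hnd : ∀ x : ℤ, x ≠ 0 → x.natAbs < p → ¬ (p : ℤ) ∣ x := by
      intro x hx hxp h
      have := Nat.le_of_dvd (Int.natAbs_pos.2 hx) (Int.natCast_dvd.1 h)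
      omega
    have hpb := hnd b hb (by omega)
    have hpd := hnd (a ^ 2 - 4 * b) hab (by omega)
    refine ⟨hpb, hpd, fun h => ?_⟩
    have h1 := hzs p hp (by omega) t h
    rw [Pool.Agent.W342.RK2.sg0_mul hpb hpd] at h1
    revert h1
    cases sg0 p b <;> cases sg0 p (a ^ 2 - 4 * b) <;> decide
  refine moments_of hb hab D D1 k L z1 (σq a b) (σq (-2 * a) (a ^ 2 - 4 * b)) hsqf
    (fun t => Module.finrank ℤ (W2 (a * D.eval t) (b * D.eval t ^ 2)).toAffine.Point) hne1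
    (fun t ht => ?_)
  have h1 := rank_quad (z0 := z1) (by omega) (hne2 t ht) hb hab (hne1 t ht) (hHK t)
    (zs_fin _ _ _ (hne1 t ht)) (zs_fin _ _ _ (hne1 t ht))
  have e : W2 (a * D.eval t) (b * D.eval t ^ 2) = Wt (((a * D1.eval t : ℤ) : ℚ) *
      ((D2.eval t : ℤ) : ℚ) ^ 2) (((b * D1.eval t ^ 2 : ℤ) : ℚ) * ((D2.eval t : ℤ) : ℚ) ^ 4) := by
    unfold W2 Wt
    rw [hev t]
    push_cast
    congr 1 <;> ring
  rw [e]
  exact h1

/-! ### Quartic twists -/

lemma allR_eq : allR = τq 1 := by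
  funext p
  unfold allR τq sg0
  rw [jacobiSym.one_left]
  decide

lemma dvd_of_irr (E P : ℚ[X]) (hP : Squarefree P)
    (h : ∀ f : ℚ[X], Irreducible f → f ∣ P → f ∣ E) : P ∣ E := by
  induction P using WfDvdMonoid.induction_on_irreducible with
  | zero => exact absurd hP not_squarefree_zero
  | unit u hu => exact hu.dvd
  | mul a i ha hi ih =>
    have hcop : IsCoprime i a := by
      have := (squarefree_mul_iff.1 hP).1
      exact this.isCoprime
    exact IsCoprime.mul_dvd hcop (h i hi (dvd_mul_right _ _))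
      (ih (hP.of_mul_right) (fun f hf hfa => h f hf (hfa.mul_left i)))

/-- the factorisation -/
lemma exists_fac4 (D : ℤ[X]) (hD : D ≠ 0)
    (h : ∀ f : ℚ[X], Irreducible f → multiplicity f (D.map (Int.castRingHom ℚ)) % 4 ≠ 2) :
    ∃ D1 W U : ℤ[X], D = D1 * W ^ 2 * U ^ 4 ∧ Squarefree (D1.map (Int.castRingHom ℚ)) ∧
      ∃ (m : ℤ) (H : ℤ[X]), m ≠ 0 ∧ C m * D1 = W * H := by
  obtain ⟨D1, D2, hfac, hsq⟩ := exists_fac D hD
  have hD2 : D2 ≠ 0 := by
    rintro rfl
    exact hD (by rw [hfac]; ring)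
  obtain ⟨W, U, hfac2, hsq2⟩ := exists_fac D2 hD2
  refine ⟨D1, W, U, by rw [hfac, hfac2]; ring, hsq, ?_⟩
  have hinj := RingHom.injective_int (Int.castRingHom ℚ)
  have hDq : D.map (Int.castRingHom ℚ) ≠ 0 := by
    rwa [Ne, Polynomial.map_eq_zero_iff hinj]
  have hWq : W.map (Int.castRingHom ℚ) ≠ 0 := hsq2.ne_zero
  have hD1q : D1.map (Int.castRingHom ℚ) ≠ 0 := hsq.ne_zero
  have h1 : D.map (Int.castRingHom ℚ) = D1.map (Int.castRingHom ℚ) *
      ((W.map (Int.castRingHom ℚ)) ^ 2 * (U.map (Int.castRingHom ℚ)) ^ 4) := by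
    rw [hfac, hfac2]
    simp only [Polynomial.map_mul, Polynomial.map_pow]
    ring
  have hUq : U.map (Int.castRingHom ℚ) ≠ 0 := by
    intro h0
    apply hDq
    rw [h1, h0]
    ring
  -- `W ∣ D1` over the rationals
  have hdvd : W.map (Int.castRingHom ℚ) ∣ D1.map (Int.castRingHom ℚ) := by
    refine dvd_of_irr _ _ hsq2 fun f hf hfW => ?_
    by_contra hfD
    apply h f hf
    have hfp : Prime f := hf.prime
    have hfin : FiniteMultiplicity f (D.map (Int.castRingHom ℚ)) :=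
      FiniteMultiplicity.of_not_isUnit hf.not_isUnit hDq
    have hfinW : FiniteMultiplicity f (W.map (Int.castRingHom ℚ)) :=
      FiniteMultiplicity.of_not_isUnit hf.not_isUnit hWq
    have hfinU : FiniteMultiplicity f (U.map (Int.castRingHom ℚ)) :=
      FiniteMultiplicity.of_not_isUnit hf.not_isUnit hUq
    have hfinWU : FiniteMultiplicity f
        ((W.map (Int.castRingHom ℚ)) ^ 2 * (U.map (Int.castRingHom ℚ)) ^ 4) :=
      FiniteMultiplicity.of_not_isUnit hf.not_isUnit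
        (mul_ne_zero (pow_ne_zero 2 hWq) (pow_ne_zero 4 hUq))
    have h2 : multiplicity f (W.map (Int.castRingHom ℚ)) = 1 := by
      refine multiplicity_eq_of_dvd_of_not_dvd (by rwa [pow_one]) ?_
      intro h3
      rw [one_add_one_eq_two, sq] at h3
      exact hf.not_isUnit (hsq2 f h3)
    have h3 : multiplicity f (D1.map (Int.castRingHom ℚ)) = 0 :=
      multiplicity_eq_zero.2 hfD
    rw [h1] at hfin ⊢
    rw [multiplicity_mul hfp hfin, multiplicity_mul hfp hfinWU, hfinW.multiplicity_pow hfp,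
      hfinU.multiplicity_pow hfp, h2, h3]
    omega
  obtain ⟨r, hr⟩ := hdvd
  obtain ⟨m, H, hm, hH⟩ := GDPf.clear r
  refine ⟨m, H, hm, ?_⟩
  apply Polynomial.map_injective (Int.castRingHom ℚ) Int.cast_injective
  rw [Polynomial.map_mul, Polynomial.map_mul, Polynomial.map_C, hH, hr]
  simp only [eq_intCast]
  ring

/-- **Quartic twists of `y² = x³ + x` by the values of a polynomial**: all the moments of the rank
are bounded -/
theorem quart_moments (D : ℤ[X]) (hD : D ≠ 0)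
    (h : ∀ f : ℚ[X], Irreducible f → multiplicity f (D.map (Int.castRingHom ℚ)) % 4 ≠ 2)
    (k L : ℕ) :
    ∃ C : ℝ, ∀ (N : ℤ) (M : ℕ), 1 ≤ M → |N| ≤ (M : ℤ) ^ L →
      ∑ t ∈ (Ioc N (N + M)).filter (fun t => D.eval t ≠ 0),
        ((2 : ℝ) ^ Module.finrank ℤ (W2 0 (D.eval t)).toAffine.Point) ^ k ≤ C * M := by
  obtain ⟨D1, W, U, hfac, hsqf, m, H, hm, hH⟩ := exists_fac4 D hD h
  set z1 : ℕ := 2 + m.natAbs with hz1
  have hev : ∀ t, D.eval t = D1.eval t * W.eval t ^ 2 * U.eval t ^ 4 := by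
    intro t
    rw [hfac, eval_mul, eval_mul, eval_pow, eval_pow]
  have hevH : ∀ t, m * D1.eval t = W.eval t * H.eval t := by
    intro t
    have := congrArg (Polynomial.eval t) hH
    simpa using this
  have hne1 : ∀ t, D.eval t ≠ 0 → D1.eval t ≠ 0 := fun t h h0 => h (by rw [hev, h0]; ring)
  have hneW : ∀ t, D.eval t ≠ 0 → W.eval t ≠ 0 := fun t h h0 => h (by rw [hev, h0]; ring)
  have hneU : ∀ t, D.eval t ≠ 0 → U.eval t ≠ 0 := fun t h h0 => h (by rw [hev, h0]; ring)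
  have hHQ : ∀ t, HQ z1 (fun _ => false) (D1.eval t) (D1.eval t * W.eval t ^ 2) := by
    intro t p hp hzp
    have hF : Fact p.Prime := ⟨hp⟩
    have hpp := Nat.prime_iff_prime_int.1 hp
    have hp0 : (p : ℤ) ≠ 0 := by exact_mod_cast hp.ne_zero
    have hpm : ¬ (p : ℤ) ∣ m := by
      intro h
      have := Nat.le_of_dvd (Int.natAbs_pos.2 hm) (Int.natCast_dvd.1 h)
      omega
    have hWd : (p : ℤ) ∣ W.eval t → (p : ℤ) ∣ D1.eval t := by
      intro h
      have h1 : (p : ℤ) ∣ m * D1.eval t := by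
        rw [hevH]
        exact h.mul_right _
      exact (hpp.dvd_or_dvd h1).resolve_left hpm
    refine ⟨fun hpd hpb => ?_, fun hpd hpd2 => ?_⟩
    · rcases hpp.dvd_or_dvd hpb with h1 | h1
      · exact hpd h1
      · exact hpd (hWd (hpp.dvd_of_dvd_pow h1))
    · obtain ⟨d', hd'⟩ := hpd
      have hd'p : ¬ (p : ℤ) ∣ d' := by
        intro h1
        apply hpd2
        rw [hd', pow_two]
        exact mul_dvd_mul_left _ h1
      have hdiv : D1.eval t / p = d' := by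
        rw [hd']
        exact Int.mul_ediv_cancel_left _ hp0
      rw [hdiv]
      by_cases hpW : (p : ℤ) ∣ W.eval t
      · obtain ⟨w', hw'⟩ := hpW
        have hw'p : ¬ (p : ℤ) ∣ w' := by
          intro h1
          apply hpd2
          have h2 : (p : ℤ) ^ 2 ∣ m * D1.eval t := by
            rw [hevH, hw', pow_two]
            exact (mul_dvd_mul_left _ h1).mul_right _
          have h3 : IsCoprime ((p : ℤ) ^ 2) m :=
            ((Prime.coprime_iff_not_dvd hpp).2 hpm).pow_left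
          exact h3.dvd_of_dvd_mul_left h2
        refine ⟨3, d' * (w' * w'), by decide, by rw [hd', hw']; ring,
          Pool.Agent.W342.RK2.not_dvd_mul hd'p (Pool.Agent.W342.RK2.not_dvd_mul hw'p hw'p), ?_⟩
        rw [Pool.Agent.W342.RK2.sg0_mul hd'p (Pool.Agent.W342.RK2.not_dvd_mul hw'p hw'p),
          Pool.Agent.W342.RK2.sg0_mul hw'p hw'p]
        cases sg0 p d' <;> cases sg0 p w' <;> rfl
      · refine ⟨1, d' * (W.eval t * W.eval t), by decide, by rw [hd']; ring,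
          Pool.Agent.W342.RK2.not_dvd_mul hd'p (Pool.Agent.W342.RK2.not_dvd_mul hpW hpW), ?_⟩
        rw [Pool.Agent.W342.RK2.sg0_mul hd'p (Pool.Agent.W342.RK2.not_dvd_mul hpW hpW),
          Pool.Agent.W342.RK2.sg0_mul hpW hpW]
        cases sg0 p d' <;> cases sg0 p (W.eval t) <;> rfl
  refine moments_of one_ne_zero one_ne_zero D D1 k L z1 (fun _ => false) (σm (fun _ => false))
    hsqf (fun t => Module.finrank ℤ (W2 0 (D.eval t)).toAffine.Point) hne1 (fun t ht => ?_)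
  have h1 := rank_quart (z0 := z1) (by omega) (hneU t ht)
    (mul_ne_zero (hne1 t ht) (pow_ne_zero 2 (hneW t ht))) (hHQ t)
    (zs_fin _ _ _ (hne1 t ht)) (zs_fin _ _ _ (hne1 t ht))
  rw [allR_eq] at h1
  have e : W2 0 (D.eval t) = Wt (0 : ℚ) (((D1.eval t * W.eval t ^ 2 : ℤ) : ℚ) *
      ((U.eval t : ℤ) : ℚ) ^ 4) := by
    unfold W2 Wt
    rw [hev t]
    push_cast
    rfl
  rw [e]
  exact h1

end Pool.Agent.Y668
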