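import Mathlib
import Pool.Agent.TH841.SH.Grp

/-!
# The Selmer cocycles, the rank and the Tate-Shafarevich group

As `Pool.Agent.TH841.SH.Grp`, without the assumption that the points of order two are rational.
-/

set_option autoImplicit false

namespace Pool.Agent.Y668

open WeierstrassCurve

open scoped Classical

open Pool.Agent.W262.SH (QB Pt act IsCoc IsCob LocTriv shaCoc cob Sha)
open Pool.Agent.TH841.SH

/-- the Selmer cocycles: cocycles with values in the points of order two, locally coboundaries -/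
noncomputable def selCoc (W : WeierstrassCurve ℚ) :
    AddSubgroup ((QB ≃ₐ[ℚ] QB) → Pt W QB) where
  carrier := {f | IsLocallyConstant f ∧ (∀ σ, f σ + f σ = 0) ∧
    (∀ σ τ, f (σ * τ) = f σ + act W σ.toAlgHom (f τ)) ∧ EvLoc W f}
  zero_mem' := ⟨IsLocallyConstant.const _, fun σ => by simp, fun σ τ => by simp, EvLoc.zero W⟩
  add_mem' := by
    rintro f g ⟨hf1, hf2, hf3, hf4⟩ ⟨hg1, hg2, hg3, hg4⟩
    refine ⟨hf1.add hg1, fun σ => ?_, fun σ τ => ?_, hf4.add hg4⟩
    · have e : (f + g) σ + (f + g) σ = (f σ + f σ) + (g σ + g σ) := by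
        simp only [Pi.add_apply]
        abel
      rw [e, hf2, hg2, add_zero]
    · simp only [Pi.add_apply, hf3, hg3, map_add]
      abel
  neg_mem' := by
    rintro f ⟨hf1, hf2, hf3, hf4⟩
    refine ⟨hf1.neg, fun σ => ?_, fun σ τ => ?_, hf4.neg⟩
    · have e : (-f) σ + (-f) σ = -(f σ + f σ) := by
        simp only [Pi.neg_apply]
        abel
      rw [e, hf2, neg_zero]
    · simp only [Pi.neg_apply, hf3, map_neg]
      abel

lemma selCoc_le (W : WeierstrassCurve ℚ) : selCoc W ≤ shaCoc W := by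
  rintro f ⟨h1, h2, h3, h4⟩
  exact ⟨⟨h1, h3⟩, h4⟩

lemma cob_selCoc (W : WeierstrassCurve ℚ) (Q : Pt W QB)
    (hQ : ∀ σ : QB ≃ₐ[ℚ] QB, act W σ.toAlgHom Q - Q + (act W σ.toAlgHom Q - Q) = 0) :
    (fun σ : QB ≃ₐ[ℚ] QB => act W σ.toAlgHom Q - Q) ∈ selCoc W :=
  ⟨lc_cob W Q, hQ, fun σ τ => coc_cob W Q σ τ, evLoc_cob W Q⟩

/-- from the Selmer cocycles to the Tate-Shafarevich group -/
noncomputable def toShaC (W : WeierstrassCurve ℚ) : selCoc W →+ Sha W :=
  (QuotientAddGroup.mk' _).comp (AddSubgroup.inclusion (selCoc_le W))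

lemma toShaC_ker (W : WeierstrassCurve ℚ) (f : selCoc W) :
    f ∈ (toShaC W).ker ↔
      ∃ P, ∀ σ, (f : (QB ≃ₐ[ℚ] QB) → Pt W QB) σ = act W σ.toAlgHom P - P := by
  rw [AddMonoidHom.mem_ker]
  show (QuotientAddGroup.mk' _) (AddSubgroup.inclusion (selCoc_le W) f) = 0 ↔ _
  rw [QuotientAddGroup.mk'_apply, QuotientAddGroup.eq_zero_iff, AddSubgroup.mem_addSubgroupOf]
  rfl

variable {W : WeierstrassCurve ℚ} {a b c : QB}

lemma toShaC_range (h : IsR (W.baseChange QB) a b c) (hab : a ≠ b) (hac : a ≠ c) (hbc : b ≠ c)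
    (x : Sha W) : x ∈ (toShaC W).range ↔ x + x = 0 := by
  constructor
  · rintro ⟨f, rfl⟩
    rw [← map_add]
    have : f + f = 0 := by
      apply Subtype.ext
      funext σ
      exact f.2.2.1 σ
    rw [this, map_zero]
  · intro hx
    obtain ⟨f, rfl⟩ := QuotientAddGroup.mk_surjective x
    rw [← QuotientAddGroup.mk_add, QuotientAddGroup.eq_zero_iff,
      AddSubgroup.mem_addSubgroupOf] at hx
    obtain ⟨P, hP⟩ := hx
    obtain ⟨Q, rfl⟩ := h.div two_ne_zero hab hac hbc P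
    obtain ⟨⟨f1, f2⟩, f3⟩ := f.2
    have hP' : ∀ σ, (f : (QB ≃ₐ[ℚ] QB) → Pt W QB) σ + (f : (QB ≃ₐ[ℚ] QB) → Pt W QB) σ =
      act W σ.toAlgHom (Q + Q) - (Q + Q) := hP
    set g : (QB ≃ₐ[ℚ] QB) → Pt W QB :=
      fun σ => (f : (QB ≃ₐ[ℚ] QB) → Pt W QB) σ - (act W σ.toAlgHom Q - Q) with hg
    have hg2 : ∀ σ, g σ + g σ = 0 := by
      intro σ
      have e1 : g σ + g σ = ((f : (QB ≃ₐ[ℚ] QB) → Pt W QB) σ +
        (f : (QB ≃ₐ[ℚ] QB) → Pt W QB) σ) - ((act W σ.toAlgHom Q + act W σ.toAlgHom Q) -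
          (Q + Q)) := by
        rw [hg]
        simp only
        abel
      rw [e1, hP', map_add, sub_self]
    have hgsel : g ∈ selCoc W := by
      refine ⟨f1.sub (lc_cob W Q), hg2, fun σ τ => ?_, ?_⟩
      · have e3 : act W σ.toAlgHom (g τ) = act W σ.toAlgHom ((f : (QB ≃ₐ[ℚ] QB) → Pt W QB) τ) -
            act W σ.toAlgHom (act W τ.toAlgHom Q - Q) := by
          rw [hg]
          simp only
          rw [map_sub]
        have e4 : g (σ * τ) = (f : (QB ≃ₐ[ℚ] QB) → Pt W QB) (σ * τ) -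
          (act W (σ * τ).toAlgHom Q - Q) := rfl
        rw [e3, e4, f2, coc_cob]
        rw [hg]
        simp only
        abel
      · have e5 : g = (f : (QB ≃ₐ[ℚ] QB) → Pt W QB) +
          -(fun σ : QB ≃ₐ[ℚ] QB => act W σ.toAlgHom Q - Q) := by
          funext σ
          rw [hg]
          simp only [Pi.add_apply, Pi.neg_apply]
          abel
        rw [e5]
        exact EvLoc.add f3 (evLoc_cob W Q).neg
    refine ⟨⟨g, hgsel⟩, ?_⟩
    show (QuotientAddGroup.mk' _) (AddSubgroup.inclusion (selCoc_le W) ⟨g, hgsel⟩) =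
      QuotientAddGroup.mk f
    rw [QuotientAddGroup.mk'_apply, QuotientAddGroup.eq, AddSubgroup.mem_addSubgroupOf]
    refine ⟨Q, fun σ => ?_⟩
    show -g σ + (f : (QB ≃ₐ[ℚ] QB) → Pt W QB) σ = _
    rw [hg]
    simp only
    abel

/-- **The rank, the Tate-Shafarevich group and the Selmer cocycles.** -/
theorem card_leC (h : IsR (W.baseChange QB) a b c) (hab : a ≠ b) (hac : a ≠ c) (hbc : b ≠ c)
    (hfg : AddGroup.FG W.toAffine.Point) [Finite (selCoc W)] :
    Finite {x : Sha W // x + x = 0} ∧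
    2 ^ Module.finrank ℤ W.toAffine.Point * Nat.card {x : Sha W // x + x = 0} ≤
      Nat.card (selCoc W) := by
  have e1 : Nat.card {x : Sha W // x + x = 0} = Nat.card (toShaC W).range :=
    Nat.card_congr (Equiv.subtypeEquivRight (fun x => (toShaC_range h hab hac hbc x).symm))
  have hfr : Finite (toShaC W).range :=
    Finite.of_surjective _ (toShaC W).rangeRestrict_surjective
  have e2 : Nat.card (selCoc W) = Nat.card (toShaC W).range * Nat.card (toShaC W).ker := by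
    rw [AddSubgroup.card_eq_card_quotient_mul_card_addSubgroup (toShaC W).ker]
    congr 1
    exact Nat.card_congr (QuotientAddGroup.quotientKerEquivRange (toShaC W)).toEquiv
  refine ⟨Finite.of_equiv _ (Equiv.subtypeEquivRight (fun x => toShaC_range h hab hac hbc x)), ?_⟩
  rw [e1, e2, mul_comm]
  refine Nat.mul_le_mul_left _ ?_
  obtain ⟨j, hj, hjσ, hjf⟩ := exists_rat W
  have : Fintype (toShaC W).ker := Fintype.ofFinite _
  let R : (toShaC W).ker → W.toAffine.Point → Prop := fun f g =>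
    ∃ Q : Pt W QB, Q + Q = j g ∧ ∀ σ, (f.1 : (QB ≃ₐ[ℚ] QB) → Pt W QB) σ =
      act W σ.toAlgHom Q - Q
  let T : Finset W.toAffine.Point :=
    Finset.univ.image (fun f : (toShaC W).ker => if hd : ∃ g, R f g then hd.choose else 0)
  have hT : T.card ≤ Nat.card (toShaC W).ker := by
    rw [Nat.card_eq_fintype_card]
    exact Finset.card_image_le.trans_eq Finset.card_univ
  refine Pool.Agent.W505.RK.rkb _ hfg _ T hT (fun g => ?_)
  obtain ⟨Q, hQ⟩ := h.div two_ne_zero hab hac hbc (j g)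
  have hsel : (fun σ : QB ≃ₐ[ℚ] QB => act W σ.toAlgHom Q - Q) ∈ selCoc W := by
    apply cob_selCoc
    intro σ
    have e3 : act W σ.toAlgHom Q - Q + (act W σ.toAlgHom Q - Q) =
      (act W σ.toAlgHom Q + act W σ.toAlgHom Q) - (Q + Q) := by abel
    rw [e3, ← map_add, ← hQ, hjσ, sub_self]
  have hker : (⟨_, hsel⟩ : selCoc W) ∈ (toShaC W).ker := by
    rw [toShaC_ker]
    exact ⟨Q, fun σ => rfl⟩
  set f : (toShaC W).ker := ⟨⟨_, hsel⟩, hker⟩ with hf
  have hex : ∃ g', R f g' := ⟨g, Q, hQ.symm, fun σ => rfl⟩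
  obtain ⟨Q', hQ', hf'⟩ := hex.choose_spec
  refine ⟨hex.choose, ?_, ?_⟩
  · refine Finset.mem_image.2 ⟨f, Finset.mem_univ _, ?_⟩
    rw [dif_pos hex]
  · have hfix : ∀ σ : QB ≃ₐ[ℚ] QB, act W σ.toAlgHom (Q - Q') = Q - Q' := by
      intro σ
      have e4 : act W σ.toAlgHom Q - Q = act W σ.toAlgHom Q' - Q' := hf' σ
      rw [map_sub]
      have e5 : act W σ.toAlgHom Q = act W σ.toAlgHom Q' - Q' + Q := by
        rw [← e4]
        abel
      rw [e5]
      abel
    obtain ⟨q, hq⟩ := hjf _ hfix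
    refine ⟨q, hj ?_⟩
    rw [map_add, map_add, hq, ← hQ', hQ]
    abel

end Pool.Agent.Y668
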