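import Mathlib
import Pool.Agent.Y668.CC
import Pool.Agent.TH841.SH.Sel

/-!
# The characters of a Selmer cocycle
-/

set_option autoImplicit false

namespace Pool.Agent.Y668

open WeierstrassCurve

open scoped Classical

open Pool.Agent.W262.SH (QB Pt act IsCoc IsCob LocTriv shaCoc cob Sha)
open Pool.Agent.TH841.SH

lemma bool_xor' {p q r : Prop} [Decidable p] [Decidable q] [Decidable r] (h : r ↔ (p ↔ q)) :
    decide (¬ r) = xor (decide (¬ p)) (decide (¬ q)) := by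
  by_cases hp : p <;> by_cases hq : q <;> simp [h, hp, hq]

lemma act_isX0 (W : WeierstrassCurve ℚ) {F L : Type} [Field F] [Field L] [Algebra ℚ F]
    [Algebra ℚ L] (φ : F →ₐ[ℚ] L) (T : Pt W F) :
    IsX (W.baseChange L) 0 (act W φ T) ↔ IsX (W.baseChange F) 0 T := by
  have h := act_isX W φ 0 T
  simpa only [map_zero] using h

section

variable {K : Type} [Field K] {W : WeierstrassCurve K} {b c : K}

/-- the multiples of the point of order two with abscissa zero -/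
lemma isX_two (h : IsR W 0 b c) (h2 : (2 : K) ≠ 0) {T : W.toAffine.Point}
    (hX : IsX W 0 T) (hT : T + T = 0) : T = 0 ∨ ∃ hn, T = .some 0 0 hn := by
  rcases hX with hX | ⟨y, hn, rfl⟩
  · exact Or.inl hX
  · right
    have hy := (h.add_self h2 hn).1 hT
    subst hy
    exact ⟨hn, rfl⟩

lemma neg_eq_self {T : W.toAffine.Point} (hT : T + T = 0) : -T = T :=
  neg_eq_of_add_eq_zero_left hT

end

variable {W : WeierstrassCurve ℚ} {e1 e2 : QB}

lemma isX_fix (h : IsR (W.baseChange QB) 0 e1 e2) {T : Pt W QB} (hX : IsX (W.baseChange QB) 0 T)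
    (hT : T + T = 0) (σ : QB ≃ₐ[ℚ] QB) : act W σ.toAlgHom T = T := by
  rcases isX_two h two_ne_zero hX hT with rfl | ⟨hn, rfl⟩
  · exact map_zero _
  · rw [act_some]
    congr 1
    · exact map_zero σ
    · exact map_zero σ

/-- the first character -/
lemma exists_z1 (h : IsR (W.baseChange QB) 0 e1 e2) (h1 : (0 : QB) ≠ e1) (h2 : (0 : QB) ≠ e2)
    (h12 : e1 ≠ e2) (f : (QB ≃ₐ[ℚ] QB) → Pt W QB) (hf : f ∈ selCoc W) :
    ∃ e : ℤ, Squarefree e ∧ ∀ s : QB, s ^ 2 = e → ∀ σ : QB ≃ₐ[ℚ] QB, σ s = s ↔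
      IsX (W.baseChange QB) 0 (f σ) := by
  obtain ⟨hc, ht, hcoc, -⟩ := hf
  obtain ⟨e, he, hs⟩ := kum (fun σ => decide (¬ IsX (W.baseChange QB) 0 (f σ)))
    (hc.comp (fun T => decide (¬ IsX (W.baseChange QB) 0 T))) (by
      intro σ τ
      have h4 := h.isX_add two_ne_zero h1 h2 h12 (ht σ)
        (T' := act W σ.toAlgHom (f τ)) (by rw [← map_add, ht, map_zero])
      rw [← hcoc, act_isX0] at h4
      exact bool_xor h4)
  refine ⟨e, he, fun s hs' σ => ?_⟩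
  rw [hs s hs' σ, decide_eq_false_iff_not, not_not]

/-- the second character -/
lemma exists_z2 (h : IsR (W.baseChange QB) 0 e1 e2) (f : (QB ≃ₐ[ℚ] QB) → Pt W QB)
    (hf : f ∈ selCoc W) (hX : ∀ σ, IsX (W.baseChange QB) 0 (f σ)) :
    ∃ e : ℤ, Squarefree e ∧ ∀ s : QB, s ^ 2 = e → ∀ σ : QB ≃ₐ[ℚ] QB, σ s = s ↔ f σ = 0 := by
  obtain ⟨hc, ht, hcoc, -⟩ := hf
  obtain ⟨e, he, hs⟩ := kum (fun σ => decide (¬ f σ = 0))
    (hc.comp (fun T => decide (¬ T = 0))) (by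
      intro σ τ
      apply bool_xor'
      rw [hcoc, isX_fix h (hX τ) (ht τ)]
      rcases isX_two h two_ne_zero (hX σ) (ht σ) with h3 | ⟨hn, h3⟩ <;>
        rcases isX_two h two_ne_zero (hX τ) (ht τ) with h4 | ⟨hn', h4⟩
      · rw [h3, h4, add_zero]
        simp
      · rw [h3, h4, zero_add]
        simp
      · rw [h3, h4, add_zero]
        simp
      · have h5 := ht σ
        rw [h3] at h5 ⊢
        rw [h4, h5]
        simp)
  refine ⟨e, he, fun s hs' σ => ?_⟩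
  rw [hs s hs' σ, decide_eq_false_iff_not, not_not]

/-- **the number of the Selmer cocycles** -/
theorem card_selCoc (h : IsR (W.baseChange QB) 0 e1 e2) (h1 : (0 : QB) ≠ e1)
    (h2 : (0 : QB) ≠ e2) (h12 : e1 ≠ e2) {S1 S2 : Set ℤ} (hf1 : S1.Finite) (hf2 : S2.Finite)
    (H1 : ∀ f ∈ selCoc W, ∀ z : ℤ, Squarefree z → (∀ s : QB, s ^ 2 = z →
      ∀ σ : QB ≃ₐ[ℚ] QB, σ s = s ↔ IsX (W.baseChange QB) 0 (f σ)) → z ∈ S1)
    (H2 : ∀ f ∈ selCoc W, (∀ σ, IsX (W.baseChange QB) 0 (f σ)) → ∀ z : ℤ, Squarefree z →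
      (∀ s : QB, s ^ 2 = z → ∀ σ : QB ≃ₐ[ℚ] QB, σ s = s ↔ f σ = 0) → z ∈ S2) :
    Finite (selCoc W) ∧ Nat.card (selCoc W) ≤ S1.ncard * S2.ncard := by
  have K1 := fun f : selCoc W => exists_z1 h h1 h2 h12 f.1 f.2
  choose E hE hE' using K1
  have K2 : ∀ f : selCoc W, ∃ e : ℤ, (∀ σ, IsX (W.baseChange QB) 0 (f.1 σ)) → Squarefree e ∧
      ∀ s : QB, s ^ 2 = e → ∀ σ : QB ≃ₐ[ℚ] QB, σ s = s ↔ f.1 σ = 0 := by
    intro f
    by_cases hX : ∀ σ, IsX (W.baseChange QB) 0 (f.1 σ)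
    · obtain ⟨e, he⟩ := exists_z2 h f.1 f.2 hX
      exact ⟨e, fun _ => he⟩
    · exact ⟨1, fun h' => absurd h' hX⟩
  choose F hF using K2
  let g : selCoc W → selCoc W := fun f => (⟨f, rfl⟩ : ∃ g : selCoc W, E g = E f).choose
  have hg : ∀ f, E (g f) = E f := fun f => (⟨f, rfl⟩ : ∃ g : selCoc W, E g = E f).choose_spec
  have hgg : ∀ f f', E f = E f' → g f = g f' := by
    intro f f' hff
    show (⟨f, rfl⟩ : ∃ g : selCoc W, E g = E f).choose =
      (⟨f', rfl⟩ : ∃ g : selCoc W, E g = E f').choose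
    congr 1
    funext g
    rw [hff]
  have hd : ∀ f : selCoc W, ∀ σ, IsX (W.baseChange QB) 0 ((f - g f).1 σ) := by
    intro f σ
    obtain ⟨s, hs⟩ := IsAlgClosed.exists_pow_nat_eq ((E f : ℤ) : QB) (n := 2) (by norm_num)
    have e3 : (f - g f).1 σ = f.1 σ + (g f).1 σ := by
      show f.1 σ - (g f).1 σ = _
      rw [sub_eq_add_neg, neg_eq_self ((g f).2.2.1 σ)]
    rw [e3, h.isX_add two_ne_zero h1 h2 h12 (f.2.2.1 σ) ((g f).2.2.1 σ), ← hE' f s hs σ,
      ← hE' (g f) s (by rw [hs, hg]) σ]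
  let Φ : selCoc W → S1 × S2 := fun f =>
    (⟨E f, H1 f.1 f.2 (E f) (hE f) (hE' f)⟩,
      ⟨F (f - g f), H2 _ (f - g f).2 (hd f) _ (hF _ (hd f)).1 (hF _ (hd f)).2⟩)
  have hΦ : Function.Injective Φ := by
    intro f f' hff
    simp only [Φ, Prod.mk.injEq, Subtype.mk.injEq] at hff
    obtain ⟨h3, h4⟩ := hff
    have h5 := hgg f f' h3
    obtain ⟨s, hs⟩ := IsAlgClosed.exists_pow_nat_eq ((F (f - g f) : ℤ) : QB) (n := 2)
      (by norm_num)
    have h6 : f - g f = f' - g f' := by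
      apply Subtype.ext
      funext σ
      have k1 := (hF _ (hd f)).2 s hs σ
      have k2 := (hF _ (hd f')).2 s (by rw [hs, h4]) σ
      rcases isX_two h two_ne_zero (hd f σ) ((f - g f).2.2.1 σ) with h7 | ⟨hn, h7⟩ <;>
        rcases isX_two h two_ne_zero (hd f' σ) ((f' - g f').2.2.1 σ) with h8 | ⟨hn', h8⟩
      · rw [h7, h8]
      · exfalso
        have := k2.1 (k1.2 h7)
        rw [h8] at this
        exact Affine.Point.some_ne_zero _ this
      · exfalso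
        have := k1.1 (k2.2 h8)
        rw [h7] at this
        exact Affine.Point.some_ne_zero _ this
      · rw [h7, h8]
    rw [h5] at h6
    exact sub_left_injective h6
  have hfin1 : Finite S1 := hf1
  have hfin2 : Finite S2 := hf2
  refine ⟨Finite.of_injective Φ hΦ, (Nat.card_le_card_of_injective Φ hΦ).trans ?_⟩
  rw [Nat.card_prod, Nat.card_coe_set_eq, Nat.card_coe_set_eq]

end Pool.Agent.Y668
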