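import Mathlib
import Pool.Agent.Y668.CK
import Pool.Agent.Y668.AlAdd

/-!
# The local conditions for a Selmer cocycle
-/

set_option autoImplicit false

namespace Pool.Agent.Y668

open WeierstrassCurve

open scoped Classical

open Pool.Agent.W262.SH (QB Pt act IsCoc IsCob LocTriv shaCoc cob Sha)
open Pool.Agent.TH841.SH

/-- the roots -/
lemma exists_roots (L : Type) [Field L] [Algebra ℚ L] [IsAlgClosed L] (a b : ℚ) :
    ∃ e1 e2 : L, e1 * e2 = algebraMap ℚ L b ∧ IsR ((Wt a b).baseChange L) 0 e1 e2 ∧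
      (b ≠ 0 → a ^ 2 - 4 * b ≠ 0 → (0 : L) ≠ e1 ∧ (0 : L) ≠ e2 ∧ e1 ≠ e2) := by
  have hinj : Function.Injective (algebraMap ℚ L) := (algebraMap ℚ L).injective
  have : CharZero L := charZero_of_injective_algebraMap hinj
  obtain ⟨d, hd⟩ := IsAlgClosed.exists_pow_nat_eq (algebraMap ℚ L (a ^ 2 - 4 * b)) (n := 2)
    (by norm_num)
  have hd' : d ^ 2 = (algebraMap ℚ L a) ^ 2 - 4 * algebraMap ℚ L b := by
    rw [hd, map_sub, map_pow, map_mul, map_ofNat]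
  have hp : ((-(algebraMap ℚ L a) + d) / 2) * ((-(algebraMap ℚ L a) - d) / 2) =
      algebraMap ℚ L b := by
    linear_combination (-1 / 4) * hd'
  refine ⟨(-(algebraMap ℚ L a) + d) / 2, (-(algebraMap ℚ L a) - d) / 2, hp, ?_, ?_⟩
  · refine ⟨?_, ?_, ?_, ?_, ?_⟩
    · show algebraMap ℚ L 0 = 0
      rw [map_zero]
    · show algebraMap ℚ L a = _
      ring
    · show algebraMap ℚ L 0 = 0
      rw [map_zero]
    · show algebraMap ℚ L b = _
      rw [← hp]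
      ring
    · show algebraMap ℚ L 0 = _
      rw [map_zero]
      ring
  · intro hb hab
    have hb' : algebraMap ℚ L b ≠ 0 := fun h => hb (hinj (by rw [h, map_zero]))
    refine ⟨fun h => hb' ?_, fun h => hb' ?_, fun h => hab (hinj ?_)⟩
    · rw [← hp, ← h, zero_mul]
    · rw [← hp, ← h, mul_zero]
    · have hd0 : d = 0 := by linear_combination h
      rw [map_zero, ← hd, hd0]
      ring

/-- `gf` and the action -/
lemma act_gf0 {a b : ℚ} {L : Type} [Field L] [Algebra ℚ L] {e1 e2 : L}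
    (hp : e1 * e2 = algebraMap ℚ L b) (φ : L →ₐ[ℚ] L) (R : Pt (Wt a b) L) :
    φ (gf ((Wt a b).baseChange L) 0 e1 e2 R) =
      gf ((Wt a b).baseChange L) 0 e1 e2 (act (Wt a b) φ R) := by
  rcases R with _ | ⟨u, v, h⟩
  · exact map_zero φ
  · rw [act_some]
    show φ (((u - 0) ^ 2 - (0 - e1) * (0 - e2)) / (2 * v)) =
      ((φ u - 0) ^ 2 - (0 - e1) * (0 - e2)) / (2 * φ v)
    have e : (0 - e1) * (0 - e2) = algebraMap ℚ L b := by rw [← hp]; ring
    rw [e]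
    simp only [map_div₀, map_sub, map_pow, map_mul, map_ofNat, AlgHom.commutes, map_zero]

section

variable {K Ω : Type} [Field K] [Field Ω] [Algebra ℚ K] [Algebra K Ω] [Algebra ℚ Ω]
  [IsScalarTower ℚ K Ω] [IsGalois K Ω] [IsAlgClosed Ω]

omit [IsGalois K Ω] [IsAlgClosed Ω] in
/-- a good point `R` with `τ R = R + f σ` -/
lemma loc_R {W : WeierstrassCurve ℚ} (f : (QB ≃ₐ[ℚ] QB) → Pt W QB)
    (ι : QB →ₐ[ℚ] Ω)
    (hloc : ∃ P : Pt W Ω, ∀ (τ : Ω ≃ₐ[K] Ω) (σ : QB ≃ₐ[ℚ] QB),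
      (τ.toAlgHom.restrictScalars ℚ).comp ι = ι.comp σ.toAlgHom →
      act W ι (f σ) = act W (τ.toAlgHom.restrictScalars ℚ) P - P)
    (hS : ∃ S : Pt W Ω, (∀ τ : Ω ≃ₐ[K] Ω,
      act W (τ.toAlgHom.restrictScalars ℚ) S = S) ∧ (S + S) + (S + S) ≠ 0) :
    ∃ R : Pt W Ω, (∀ (τ : Ω ≃ₐ[K] Ω) (σ : QB ≃ₐ[ℚ] QB),
      (τ.toAlgHom.restrictScalars ℚ).comp ι = ι.comp σ.toAlgHom →
      act W (τ.toAlgHom.restrictScalars ℚ) R = R + act W ι (f σ)) ∧ (R + R) + (R + R) ≠ 0 := by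
  obtain ⟨P, hP⟩ := hloc
  obtain ⟨S, hSfix, hS4⟩ := hS
  by_cases h4 : (P + P) + (P + P) = 0
  · refine ⟨P + S, fun τ σ hσ => ?_, ?_⟩
    · rw [map_add, hSfix, hP τ σ hσ]
      abel
    · have e1 : ((P + S) + (P + S)) + ((P + S) + (P + S)) =
        ((P + P) + (P + P)) + ((S + S) + (S + S)) := by abel
      rw [e1, h4, zero_add]
      exact hS4
  · refine ⟨P, fun τ σ hσ => ?_, h4⟩
    rw [hP τ σ hσ]
    abel

/-- the first local condition -/
theorem loc_z1 (h2 : (2 : Ω) ≠ 0) {a b : ℚ} (hb : b ≠ 0) (hab : a ^ 2 - 4 * b ≠ 0)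
    (f : (QB ≃ₐ[ℚ] QB) → Pt (Wt a b) QB) (hf : ∀ σ, f σ + f σ = 0)
    (hloc : ∀ ι : QB →ₐ[ℚ] Ω, ∃ P : Pt (Wt a b) Ω, ∀ (τ : Ω ≃ₐ[K] Ω) (σ : QB ≃ₐ[ℚ] QB),
      (τ.toAlgHom.restrictScalars ℚ).comp ι = ι.comp σ.toAlgHom →
      act (Wt a b) ι (f σ) = act (Wt a b) (τ.toAlgHom.restrictScalars ℚ) P - P)
    (hS : ∃ S : Pt (Wt a b) Ω, (∀ τ : Ω ≃ₐ[K] Ω,
      act (Wt a b) (τ.toAlgHom.restrictScalars ℚ) S = S) ∧ (S + S) + (S + S) ≠ 0)
    (e : ℤ) (s : QB) (hs : s ^ 2 = e)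
    (hse : ∀ σ : QB ≃ₐ[ℚ] QB, σ s = s ↔ IsX ((Wt a b).baseChange QB) 0 (f σ)) :
    ∃ x y : K, y ≠ 0 ∧ y ^ 2 = x ^ 3 + algebraMap ℚ K a * x ^ 2 + algebraMap ℚ K b * x ∧
      IsSquare (x * (e : K)) := by
  obtain ⟨e1, e2, hp, hR0, hne⟩ := exists_roots Ω a b
  obtain ⟨n1, n2, n12⟩ := hne hb hab
  obtain ⟨ι⟩ := exists_emb Ω
  obtain ⟨R, hR, hR4⟩ := loc_R f ι (hloc ι) hS
  rcases R with _ | ⟨u, v, hn⟩
  · exact absurd rfl hR4
  have hv : v ≠ 0 := by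
    intro hv
    have h5 := (hR0.add_self h2 hn).2 hv
    rw [h5] at hR4
    exact hR4 (add_zero 0)
  obtain ⟨X, Y, hn', eD, hXa⟩ := hR0.dup h2 hn hv
  have hY : Y ≠ 0 := by
    intro hY
    apply hR4
    rw [eD]
    exact (hR0.add_self h2 hn').2 hY
  have hfix : ∀ τ : Ω ≃ₐ[K] Ω, τ X = X ∧ τ Y = Y := by
    intro τ
    obtain ⟨σ, hσ⟩ := exists_restr ι τ
    have h6 : act (Wt a b) (τ.toAlgHom.restrictScalars ℚ) (.some X Y hn') = .some X Y hn' := by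
      rw [← eD, map_add, hR τ σ hσ]
      have h7 : act (Wt a b) ι (f σ) + act (Wt a b) ι (f σ) = 0 := by
        rw [← map_add, hf, map_zero]
      have h8 : ∀ A B : Pt (Wt a b) Ω, (A + B) + (A + B) = (A + A) + (B + B) :=
        fun A B => by abel
      rw [h8, h7, add_zero]
    rw [act_some, Affine.Point.some.injEq] at h6
    exact h6
  obtain ⟨x, hx⟩ := fix_mem (K := K) X (fun τ => (hfix τ).1)
  obtain ⟨y, hy⟩ := fix_mem (K := K) Y (fun τ => (hfix τ).2)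
  set G := gf ((Wt a b).baseChange Ω) 0 e1 e2 (.some u v hn) with hG
  have hXG : X = G ^ 2 := by
    rw [sub_zero] at hXa
    exact hXa
  obtain ⟨z, hz⟩ : ∃ z : K, algebraMap K Ω z = G * ι s := by
    apply fix_mem
    intro τ
    obtain ⟨σ, hσ⟩ := exists_restr ι τ
    have hcomm : ∀ w : QB, τ (ι w) = ι (σ w) := fun w => DFunLike.congr_fun hσ w
    have q1 : τ G = gf ((Wt a b).baseChange Ω) 0 e1 e2
        (act (Wt a b) (τ.toAlgHom.restrictScalars ℚ) (.some u v hn)) :=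
      act_gf0 hp (τ.toAlgHom.restrictScalars ℚ) (.some u v hn)
    rw [map_mul, q1, hR τ σ hσ, hcomm]
    set T := act (Wt a b) ι (f σ) with hT
    have hTT : T + T = 0 := by
      rw [hT, ← map_add, hf, map_zero]
    have hTX : IsX ((Wt a b).baseChange Ω) 0 T ↔ σ s = s := by
      rw [hT, act_isX0, hse]
    obtain ⟨u', v', hn'', q2, hv', h3, h4⟩ := hR0.sign h2 n1 n2 n12 hn hv hTT
    rw [q2]
    by_cases hX : IsX ((Wt a b).baseChange Ω) 0 T
    · rw [h3 hX, hTX.1 hX]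
    · rw [h4 hX]
      have h5 : σ s ≠ s := fun h' => hX (hTX.2 h')
      have h6 : (σ s) ^ 2 = s ^ 2 := by
        rw [← map_pow, hs, map_intCast]
      rcases sq_eq_sq_iff_eq_or_eq_neg.1 h6 with h7 | h7
      · exact absurd h7 h5
      · rw [h7, map_neg, neg_mul_neg]
  refine ⟨x, y, ?_, ?_, z, ?_⟩
  · rintro rfl
    rw [map_zero] at hy
    exact hY hy.symm
  · apply (algebraMap K Ω).injective
    have h9 := (hR0.eqn X Y).1 hn'.1
    have hsum : e1 + e2 = -algebraMap ℚ Ω a := by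
      have h10 := hR0.h2
      have h11 : ((Wt a b).baseChange Ω).a₂ = algebraMap ℚ Ω a := rfl
      rw [h11] at h10
      linear_combination h10
    rw [map_pow, map_add, map_add, map_mul, map_mul, map_pow, map_pow, hx, hy,
      ← IsScalarTower.algebraMap_apply, ← IsScalarTower.algebraMap_apply, h9, ← hp]
    linear_combination (-X ^ 2) * hsum
  · apply (algebraMap K Ω).injective
    rw [map_mul, map_mul, hz, hx, map_intCast, hXG]
    have h8 : (ι s) ^ 2 = (e : Ω) := by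
      rw [← map_pow, hs, map_intCast]
    rw [← h8]
    ring

/-- the second local condition -/
theorem loc_z2 (h2 : (2 : Ω) ≠ 0) {a b : ℚ} (hb : b ≠ 0) (hab : a ^ 2 - 4 * b ≠ 0)
    (f : (QB ≃ₐ[ℚ] QB) → Pt (Wt a b) QB) (hf : ∀ σ, f σ + f σ = 0)
    (hfX : ∀ σ, IsX ((Wt a b).baseChange QB) 0 (f σ))
    (hloc : ∀ ι : QB →ₐ[ℚ] Ω, ∃ P : Pt (Wt a b) Ω, ∀ (τ : Ω ≃ₐ[K] Ω) (σ : QB ≃ₐ[ℚ] QB),
      (τ.toAlgHom.restrictScalars ℚ).comp ι = ι.comp σ.toAlgHom →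
      act (Wt a b) ι (f σ) = act (Wt a b) (τ.toAlgHom.restrictScalars ℚ) P - P)
    (hS : ∃ S : Pt (Wt a b) Ω, (∀ τ : Ω ≃ₐ[K] Ω,
      act (Wt a b) (τ.toAlgHom.restrictScalars ℚ) S = S) ∧ (S + S) + (S + S) ≠ 0)
    (e : ℤ) (s : QB) (hs : s ^ 2 = e)
    (hse : ∀ σ : QB ≃ₐ[ℚ] QB, σ s = s ↔ f σ = 0) :
    ∃ x y : K, y ≠ 0 ∧ y ^ 2 = x ^ 3 + algebraMap ℚ K (-2 * a) * x ^ 2 +
      algebraMap ℚ K (a ^ 2 - 4 * b) * x ∧ IsSquare (x * (e : K)) := by
  obtain ⟨e1, e2, hp, hR0, hne⟩ := exists_roots Ω a b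
  obtain ⟨n1, n2, n12⟩ := hne hb hab
  obtain ⟨ι⟩ := exists_emb Ω
  obtain ⟨R, hR, hR4⟩ := loc_R f ι (hloc ι) hS
  rcases R with _ | ⟨u, v, hn⟩
  · exact absurd rfl hR4
  have hv : v ≠ 0 := by
    intro hv
    have h5 := (hR0.add_self h2 hn).2 hv
    rw [h5] at hR4
    exact hR4 (add_zero 0)
  set B := algebraMap ℚ Ω b with hB
  set A := algebraMap ℚ Ω a with hA
  have hsum : e1 + e2 = -A := by
    have h10 := hR0.h2
    have h11 : ((Wt a b).baseChange Ω).a₂ = algebraMap ℚ Ω a := rfl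
    rw [h11] at h10
    linear_combination h10
  have heq : v ^ 2 = u ^ 3 + A * u ^ 2 + B * u := by
    rw [(hR0.eqn u v).1 hn.1, ← hp]
    linear_combination (-u ^ 2) * hsum
  have hu : u ≠ 0 := by
    rintro rfl
    apply hv
    have : v ^ 2 = 0 := by rw [heq]; ring
    exact pow_eq_zero_iff two_ne_zero |>.1 this
  have hB0 : B ≠ 0 := by
    rw [← hp]
    exact mul_ne_zero n1.symm n2.symm
  -- `u² ≠ b`
  have huB : B - u ^ 2 ≠ 0 := by
    intro h0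
    obtain ⟨X, Y, hn', eD, hXa⟩ := hR0.dup h2 hn hv
    have e3 : (u - 0) ^ 2 - (0 - e1) * (0 - e2) = -(B - u ^ 2) := by
      rw [← hp]; ring
    rw [e3, h0, neg_zero, zero_div, sub_zero] at hXa
    have hX0 : X = 0 := by rw [hXa]; ring
    subst hX0
    apply hR4
    rw [eD]
    refine (hR0.add_self h2 hn').2 ?_
    have h9 := (hR0.eqn 0 Y).1 hn'.1
    have : Y ^ 2 = 0 := by rw [h9]; ring
    exact pow_eq_zero_iff two_ne_zero |>.1 this
  -- the action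
  have key : ∀ τ : Ω ≃ₐ[K] Ω, ∀ σ : QB ≃ₐ[ℚ] QB,
      (τ.toAlgHom.restrictScalars ℚ).comp ι = ι.comp σ.toAlgHom →
      (f σ = 0 ∧ τ u = u ∧ τ v = v) ∨ (f σ ≠ 0 ∧ τ u = B / u ∧ τ v = -v * B / u ^ 2) := by
    intro τ σ hσ
    have h3 := hR τ σ hσ
    rcases isX_two hR0 h2 ((act_isX0 (Wt a b) ι (f σ)).2 (hfX σ))
      (by rw [← map_add, hf, map_zero]) with h4 | ⟨h00, h4⟩
    · left
      rw [h4, add_zero, act_some, Affine.Point.some.injEq] at h3
      refine ⟨act_inj (Wt a b) ι (by rw [h4, map_zero]), h3⟩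
    · right
      obtain ⟨X, Y, hn', q1, -, -, -, hX, hY⟩ := hR0.trans hn hv h00
      rw [h4, q1, act_some, Affine.Point.some.injEq] at h3
      refine ⟨?_, ?_, ?_⟩
      · intro h5
        rw [h5, map_zero] at h4
        exact Affine.Point.some_ne_zero _ h4.symm
      · have := h3.1
        rw [hX] at this
        refine this.trans ?_
        rw [← hp, sub_zero]
        ring
      · have := h3.2
        rw [hY] at this
        refine this.trans ?_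
        rw [← hp, sub_zero]
        ring
  have hAB : ∀ τ : Ω ≃ₐ[K] Ω, τ B = B := by
    intro τ
    rw [hB, IsScalarTower.algebraMap_apply ℚ K Ω]
    exact τ.commutes _
  set w := v / u with hw
  have hw0 : w ≠ 0 := div_ne_zero hv hu
  obtain ⟨x, hx⟩ : ∃ x : K, algebraMap K Ω x = w ^ 2 := by
    apply fix_mem
    intro τ
    obtain ⟨σ, hσ⟩ := exists_restr ι τ
    rcases key τ σ hσ with ⟨-, h3, h4⟩ | ⟨-, h3, h4⟩
    · rw [hw, map_pow, map_div₀, h3, h4]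
    · rw [hw, map_pow, map_div₀, h3, h4]
      field_simp
  obtain ⟨y, hy⟩ : ∃ y : K, algebraMap K Ω y = v * (B - u ^ 2) / u ^ 2 := by
    apply fix_mem
    intro τ
    obtain ⟨σ, hσ⟩ := exists_restr ι τ
    rcases key τ σ hσ with ⟨-, h3, h4⟩ | ⟨-, h3, h4⟩
    · rw [map_div₀, map_mul, map_sub, map_pow, h3, h4, hAB]
    · rw [map_div₀, map_mul, map_sub, map_pow, h3, h4, hAB]
      field_simp
      ring
  obtain ⟨z, hz⟩ : ∃ z : K, algebraMap K Ω z = w * ι s := by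
    apply fix_mem
    intro τ
    obtain ⟨σ, hσ⟩ := exists_restr ι τ
    have hcomm : ∀ w : QB, τ (ι w) = ι (σ w) := fun w => DFunLike.congr_fun hσ w
    rw [map_mul, hcomm, hw, map_div₀]
    rcases key τ σ hσ with ⟨h5, h3, h4⟩ | ⟨h5, h3, h4⟩
    · rw [h3, h4, (hse σ).2 h5]
    · rw [h3, h4]
      have h5' : σ s ≠ s := fun h' => h5 ((hse σ).1 h')
      have h6 : (σ s) ^ 2 = s ^ 2 := by
        rw [← map_pow, hs, map_intCast]
      rcases sq_eq_sq_iff_eq_or_eq_neg.1 h6 with h7 | h7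
      · exact absurd h7 h5'
      · rw [h7, map_neg]
        field_simp
  have e4 : algebraMap K Ω (algebraMap ℚ K (-2 * a)) = -2 * A := by
    rw [← IsScalarTower.algebraMap_apply, map_mul, map_neg, map_ofNat]
  have e5 : algebraMap K Ω (algebraMap ℚ K (a ^ 2 - 4 * b)) = A ^ 2 - 4 * B := by
    rw [← IsScalarTower.algebraMap_apply, map_sub, map_mul, map_pow, map_ofNat]
  generalize algebraMap ℚ K (-2 * a) = P at e4 ⊢
  generalize algebraMap ℚ K (a ^ 2 - 4 * b) = Q at e5 ⊢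
  refine ⟨x, y, ?_, ?_, z, ?_⟩
  · rintro rfl
    rw [map_zero] at hy
    exact div_ne_zero (mul_ne_zero hv huB) (pow_ne_zero 2 hu) hy.symm
  · apply (algebraMap K Ω).injective
    rw [map_pow, map_add, map_add, map_mul, map_mul, map_pow, map_pow, hx, hy, e4, e5, hw]
    have hu2 : u ^ 2 ≠ 0 := pow_ne_zero 2 hu
    field_simp
    have e6 : u ^ 2 * (B - u ^ 2) ^ 2 = v ^ 4 - 2 * A * v ^ 2 * u ^ 2 + (A ^ 2 - 4 * B) * u ^ 4 := by
      have e7 : v ^ 4 = (u ^ 3 + A * u ^ 2 + B * u) ^ 2 := by rw [← heq]; ring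
      rw [e7, heq]
      ring
    linear_combination e6
  · apply (algebraMap K Ω).injective
    rw [map_mul, map_mul, hz, hx, map_intCast]
    have h8 : (ι s) ^ 2 = (e : Ω) := by
      rw [← map_pow, hs, map_intCast]
    rw [← h8]
    ring

end

end Pool.Agent.Y668
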