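import Mathlib
import Pool.Agent.Y668.CL
import Pool.Agent.Y668.Desc
import Pool.Agent.TH841.SH.Wt

/-!
# The rank and the Tate-Shafarevich group, bounded by the two sets of classes
-/

set_option autoImplicit false

namespace Pool.Agent.Y668

open WeierstrassCurve

open scoped Classical

open Pool.Agent.W262.SH (QB Pt act IsCoc IsCob LocTriv shaCoc cob Sha)
open Pool.Agent.TH841.SH

/-! ### Finite generation -/

lemma fg_aux {L : Type} [Field L] [NumberField L] {a b : ℚ} (hb : b ≠ 0) {e1 e2 : L}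
    (hs : e1 + e2 = -algebraMap ℚ L a) (hp : e1 * e2 = algebraMap ℚ L b) (hne : e1 ≠ e2) :
    AddGroup.FG (Wt a b).toAffine.Point := by
  have he0 : e1 * e2 ≠ 0 := by
    rw [hp]
    exact (map_ne_zero _).2 hb
  have he1 : e1 ≠ 0 := left_ne_zero_of_mul he0
  have he2 : e2 ≠ 0 := right_ne_zero_of_mul he0
  have hK : AddGroup.FG (Pool.Agent.H437R2.Man.MW.crv (-e1) 0 (-e2)).toAffine.Point :=
    Pool.Agent.H437R2.Man.MW.pt_fg (neg_ne_zero.2 he1) (fun h => hne (neg_injective h))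
      (neg_ne_zero.2 he2).symm
  have heq : Pool.Agent.H437R2.Man.MW.crv (-e1) 0 (-e2) = (Wt a b).baseChange L := by
    rw [← crv_eq hs hp]
    simp only [Pool.Agent.H437R2.Man.MW.crv, Pool.Agent.H918R3.crv]
    congr 1 <;> ring
  rw [heq] at hK
  exact Pool.Agent.H64R2.DCMW.fg_of_inj _ (emb_inj (L := L) a b) hK

theorem fg_Wt {a b : ℚ} (hb : b ≠ 0) (hd : a ^ 2 - 4 * b ≠ 0) :
    AddGroup.FG (Wt a b).toAffine.Point := by
  by_cases hsq : IsSquare (a ^ 2 - 4 * b)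
  · obtain ⟨r, hr⟩ := hsq
    have hr0 : r ≠ 0 := by
      rintro rfl
      exact hd (by rw [hr]; ring)
    refine fg_aux (L := ℚ) hb (e1 := (-a + r) / 2) (e2 := (-a - r) / 2) ?_ ?_ ?_
    · change _ = -a
      ring
    · change _ = b
      linear_combination (1 / 4 : ℚ) * hr
    · intro h
      apply hr0
      linear_combination h
  · have hF : Fact (∀ r : ℚ, r ^ 2 ≠ (a ^ 2 - 4 * b) + 0 * r) :=
      ⟨fun r hr => hsq ⟨r, by linear_combination -hr⟩⟩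
    have hnf : NumberField (QuadraticAlgebra ℚ (a ^ 2 - 4 * b) 0) :=
      { to_charZero := inferInstance
        to_finiteDimensional := inferInstance }
    set ω : QuadraticAlgebra ℚ (a ^ 2 - 4 * b) 0 := ⟨0, 1⟩ with hω
    have hω2 : ω * ω = algebraMap ℚ _ (a ^ 2 - 4 * b) := by
      rw [quad_map, hω, QuadraticAlgebra.mk_mul_mk]
      congr 1 <;> ring
    have h20 : (2 : QuadraticAlgebra ℚ (a ^ 2 - 4 * b) 0) ≠ 0 := two_ne_zero
    have hω0 : ω ≠ 0 := by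
      intro h0
      have := congrArg QuadraticAlgebra.im h0
      simp [hω] at this
    set A := algebraMap ℚ (QuadraticAlgebra ℚ (a ^ 2 - 4 * b) 0) a with hA
    set B := algebraMap ℚ (QuadraticAlgebra ℚ (a ^ 2 - 4 * b) 0) b with hB
    have hD : algebraMap ℚ (QuadraticAlgebra ℚ (a ^ 2 - 4 * b) 0) (a ^ 2 - 4 * b) =
        A ^ 2 - 4 * B := by
      rw [map_sub, map_mul, map_pow, map_ofNat]
    rw [hD] at hω2
    refine fg_aux (L := QuadraticAlgebra ℚ (a ^ 2 - 4 * b) 0) hb (e1 := (-A + ω) / 2)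
      (e2 := (-A - ω) / 2) ?_ ?_ ?_
    · field_simp
      ring
    · rw [div_mul_div_comm, div_eq_iff (mul_ne_zero h20 h20)]
      linear_combination -hω2
    · intro h
      apply hω0
      have h5 : (-A + ω) / 2 * 2 = (-A - ω) / 2 * 2 := by rw [h]
      rw [div_mul_cancel₀ _ h20, div_mul_cancel₀ _ h20] at h5
      have h6 : 2 * ω = 0 := by linear_combination h5
      exact (mul_eq_zero.1 h6).resolve_left h20

/-! ### Points that are not killed by four -/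

lemma two_fin {K : Type} [Field K] {W : WeierstrassCurve K} {a b c : K}
    (h : IsR W a b c) (h2 : (2 : K) ≠ 0) : {P : W.toAffine.Point | P + P = 0}.Finite := by
  have hs : ∀ e : K, {P : W.toAffine.Point | ∃ hn, P = .some e 0 hn}.Finite := by
    intro e
    apply Set.Subsingleton.finite
    rintro P ⟨hn, rfl⟩ Q ⟨hn', rfl⟩
    rfl
  refine (((Set.finite_singleton (0 : W.toAffine.Point)).union (hs a)).union
    ((hs b).union (hs c))).subset ?_
  intro P hP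
  rcases h.tors h2 hP with h | h | h | h
  · exact Or.inl (Or.inl h)
  · exact Or.inl (Or.inr h)
  · exact Or.inr (Or.inl h)
  · exact Or.inr (Or.inr h)

lemma four_fin {K : Type} [Field K] {W : WeierstrassCurve K} {a b c : K}
    (h : IsR W a b c) (h2 : (2 : K) ≠ 0) :
    {P : W.toAffine.Point | (P + P) + (P + P) = 0}.Finite := by
  have h1 : {P : W.toAffine.Point | (P + P) + (P + P) = 0} =
      (fun P => P + P) ⁻¹' {P : W.toAffine.Point | P + P = 0} := rfl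
  rw [h1]
  refine Set.Finite.preimage' (two_fin h h2) fun Q _ => ?_
  by_cases hne : ∃ P0, P0 + P0 = Q
  · obtain ⟨P0, hP0⟩ := hne
    refine ((two_fin h h2).image (fun P => P + P0)).subset ?_
    intro P hP
    have hP' : P + P = Q := hP
    refine ⟨P - P0, ?_, sub_add_cancel P P0⟩
    show P - P0 + (P - P0) = 0
    have : P - P0 + (P - P0) = (P + P) - (P0 + P0) := by abel
    rw [this, hP', hP0, sub_self]
  · have : (fun P : W.toAffine.Point => P + P) ⁻¹' {Q} = ∅ := by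
      ext P
      simp only [Set.mem_preimage, Set.mem_singleton_iff, Set.mem_empty_iff_false, iff_false]
      exact fun h => hne ⟨P, h⟩
    rw [this]
    exact Set.finite_empty

/-- a `p`-adic point that is not killed by four -/
lemma exists_S (p : ℕ) [hp : Fact p.Prime] {a b : ℤ} (hb : b ≠ 0) (hab : a ^ 2 - 4 * b ≠ 0) :
    ∃ S : Pt (Wt (a : ℚ) (b : ℚ)) (AlgebraicClosure ℚ_[p]),
      (∀ τ : AlgebraicClosure ℚ_[p] ≃ₐ[ℚ_[p]] AlgebraicClosure ℚ_[p],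
        act (Wt (a : ℚ) (b : ℚ)) (τ.toAlgHom.restrictScalars ℚ) S = S) ∧
      (S + S) + (S + S) ≠ 0 := by
  by_contra hcon
  push Not at hcon
  obtain ⟨e1, e2, hp12, hR, hne⟩ := exists_roots (AlgebraicClosure ℚ_[p]) (a : ℚ) (b : ℚ)
  obtain ⟨n1, n2, n12⟩ := hne (by exact_mod_cast hb) (by exact_mod_cast hab)
  have hp0 : (p : ℚ_[p]) ≠ 0 := by exact_mod_cast hp.out.ne_zero
  have h2p : (2 * p : ℚ_[p]) ≠ 0 := mul_ne_zero two_ne_zero hp0
  have hex : ∀ m : ℕ, ∃ y : ℚ_[p], y ^ 2 = (1 / ((2 * p) ^ (m + 1)) ^ 2) ^ 3 +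
      (a : ℚ_[p]) * (1 / ((2 * p) ^ (m + 1)) ^ 2) ^ 2 + b * (1 / ((2 * p) ^ (m + 1)) ^ 2) := by
    intro m
    obtain ⟨r, -, hr⟩ := Pool.Agent.W402.FK.hens' p
      (-(((2 * p) ^ m) ^ 2 * (a + b * ((2 * p) ^ (m + 1)) ^ 2)))
    refine ⟨1 / ((2 * p) ^ (m + 1)) ^ 2 / (2 * p) ^ m * r, ?_⟩
    rw [mul_pow, hr]
    have h1 : ((2 * p : ℚ_[p]) ^ m) ≠ 0 := pow_ne_zero _ h2p
    push_cast
    rw [pow_succ (2 * (p : ℚ_[p])) m]
    field_simp
    ring
  choose y hy using hex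
  set j := algebraMap ℚ_[p] (AlgebraicClosure ℚ_[p]) with hj
  have hn : ∀ m : ℕ, ((Wt (a : ℚ) (b : ℚ)).baseChange
      (AlgebraicClosure ℚ_[p])).toAffine.Nonsingular (j (1 / ((2 * p) ^ (m + 1)) ^ 2)) (j (y m)) := by
    intro m
    apply hR.nons two_ne_zero n1 n2 n12
    have hsum : e1 + e2 = -(a : AlgebraicClosure ℚ_[p]) := by
      have h10 := hR.h2
      have h11 : ((Wt (a : ℚ) (b : ℚ)).baseChange (AlgebraicClosure ℚ_[p])).a₂ =
        algebraMap ℚ _ (a : ℚ) := rfl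
      rw [h11, map_intCast] at h10
      linear_combination h10
    have hprod : e1 * e2 = (b : AlgebraicClosure ℚ_[p]) := by rw [hp12, map_intCast]
    rw [← map_pow, hy m, map_add, map_add, map_mul, map_mul, map_pow, map_pow, map_intCast,
      map_intCast, ← hprod]
    generalize j (1 / ((2 * p) ^ (m + 1)) ^ 2) = X
    linear_combination (X ^ 2) * hsum
  let S : ℕ → Pt (Wt (a : ℚ) (b : ℚ)) (AlgebraicClosure ℚ_[p]) := fun m =>
    .some (j (1 / ((2 * p) ^ (m + 1)) ^ 2)) (j (y m)) (hn m)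
  have hS4 : ∀ m, (S m + S m) + (S m + S m) = 0 := by
    intro m
    apply hcon
    intro τ
    show act (Wt (a : ℚ) (b : ℚ)) (τ.toAlgHom.restrictScalars ℚ) (.some _ _ (hn m)) = _
    rw [act_some, Affine.Point.some.injEq]
    exact ⟨τ.commutes _, τ.commutes _⟩
  have hinj : Function.Injective S := by
    intro m n hmn
    have h3 := (Affine.Point.some.injEq _ _ _ _ _ _).mp hmn
    have h4 := (algebraMap ℚ_[p] (AlgebraicClosure ℚ_[p])).injective h3.1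
    rw [one_div, one_div, inv_inj, ← pow_mul, ← pow_mul] at h4
    have h5 : (2 * p) ^ ((m + 1) * 2) = (2 * p) ^ ((n + 1) * 2) := by exact_mod_cast h4
    have h6 := Nat.pow_right_injective (by have := hp.out.two_le; omega : 2 ≤ 2 * p) h5
    omega
  exact Set.infinite_of_injective_forall_mem hinj hS4 (four_fin hR two_ne_zero)

/-- the condition at `p` -/
def PC (a b : ℤ) (p : ℕ) [Fact p.Prime] (z : ℤ) : Prop :=
  ∃ x y : ℚ_[p], y ≠ 0 ∧ y ^ 2 = x ^ 3 + a * x ^ 2 + b * x ∧ IsSquare (x * z)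

lemma PC_scale {a b u : ℤ} (hu : u ≠ 0) {p : ℕ} [Fact p.Prime] {z : ℤ}
    (h : PC (a * u ^ 2) (b * u ^ 4) p z) : PC a b p z := by
  obtain ⟨x, y, hy, hxy, r, hr⟩ := h
  have hu' : (u : ℚ_[p]) ≠ 0 := by exact_mod_cast hu
  refine ⟨x / u ^ 2, y / u ^ 3, div_ne_zero hy (pow_ne_zero 3 hu'), ?_, r / u, ?_⟩
  · rw [div_pow, hxy]
    push_cast
    field_simp
  · rw [div_mul_div_comm, ← hr]
    field_simp

/-- **the rank and the Tate-Shafarevich group** -/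
theorem bd_of {a b u : ℤ} (hu : u ≠ 0) (hb : b ≠ 0) (hab : a ^ 2 - 4 * b ≠ 0) {S1 S2 : Set ℤ}
    (hf1 : S1.Finite) (hf2 : S2.Finite)
    (h1 : ∀ z : ℤ, Squarefree z → (∀ (p : ℕ) [Fact p.Prime], PC a b p z) → z ∈ S1)
    (h2 : ∀ z : ℤ, Squarefree z → (∀ (p : ℕ) [Fact p.Prime], PC (-2 * a) (a ^ 2 - 4 * b) p z) →
      z ∈ S2) :
    Bd (Wt ((a : ℚ) * (u : ℚ) ^ 2) ((b : ℚ) * (u : ℚ) ^ 4)) ((S1.ncard * S2.ncard : ℕ) : ℝ) := by
  have ea : (a : ℚ) * (u : ℚ) ^ 2 = ((a * u ^ 2 : ℤ) : ℚ) := by push_cast; ring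
  have eb : (b : ℚ) * (u : ℚ) ^ 4 = ((b * u ^ 4 : ℤ) : ℚ) := by push_cast; ring
  have hb' : b * u ^ 4 ≠ 0 := mul_ne_zero hb (pow_ne_zero 4 hu)
  have hab' : (a * u ^ 2) ^ 2 - 4 * (b * u ^ 4) ≠ 0 := by
    have : (a * u ^ 2) ^ 2 - 4 * (b * u ^ 4) = (a ^ 2 - 4 * b) * u ^ 4 := by ring
    rw [this]
    exact mul_ne_zero hab (pow_ne_zero 4 hu)
  rw [ea, eb]
  have qb : ((b * u ^ 4 : ℤ) : ℚ) ≠ 0 := by exact_mod_cast hb'
  have qab : ((a * u ^ 2 : ℤ) : ℚ) ^ 2 - 4 * ((b * u ^ 4 : ℤ) : ℚ) ≠ 0 := by exact_mod_cast hab'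
  obtain ⟨e1, e2, hp12, hR, hne⟩ := exists_roots QB ((a * u ^ 2 : ℤ) : ℚ) ((b * u ^ 4 : ℤ) : ℚ)
  obtain ⟨n1, n2, n12⟩ := hne qb qab
  obtain ⟨hfin, hcard⟩ := card_selCoc hR n1 n2 n12 hf1 hf2 (by
    intro f hf z hz hse
    apply h1 z hz
    intro p _
    obtain ⟨s, hs⟩ := IsAlgClosed.exists_pow_nat_eq ((z : ℤ) : QB) (n := 2) (by norm_num)
    obtain ⟨x, y, hy, hxy, hsq⟩ := loc_z1 (K := ℚ_[p]) (Ω := AlgebraicClosure ℚ_[p]) two_ne_zero
      qb qab f hf.2.1 (hf.2.2.2.1 p) (exists_S p hb' hab') z s hs (hse s hs)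
    apply PC_scale hu
    refine ⟨x, y, hy, ?_, hsq⟩
    rw [hxy, map_intCast, map_intCast]) (by
    intro f hf hX z hz hse
    apply h2 z hz
    intro p _
    obtain ⟨s, hs⟩ := IsAlgClosed.exists_pow_nat_eq ((z : ℤ) : QB) (n := 2) (by norm_num)
    obtain ⟨x, y, hy, hxy, hsq⟩ := loc_z2 (K := ℚ_[p]) (Ω := AlgebraicClosure ℚ_[p]) two_ne_zero
      qb qab f hf.2.1 hX (hf.2.2.2.1 p) (exists_S p hb' hab') z s hs (hse s hs)
    apply PC_scale hu
    refine ⟨x, y, hy, ?_, hsq⟩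
    rw [hxy]
    have k1 : (-2 : ℚ) * ((a * u ^ 2 : ℤ) : ℚ) = ((-2 * a * u ^ 2 : ℤ) : ℚ) := by push_cast; ring
    have k2 : ((a * u ^ 2 : ℤ) : ℚ) ^ 2 - 4 * ((b * u ^ 4 : ℤ) : ℚ) =
      (((a ^ 2 - 4 * b) * u ^ 4 : ℤ) : ℚ) := by push_cast; ring
    rw [k1, k2, map_intCast, map_intCast])
  have := hfin
  obtain ⟨g1, g2⟩ := card_leC hR n1 n2 n12 (fg_Wt qb qab)
  exact ⟨g1, by exact_mod_cast g2.trans hcard⟩

end Pool.Agent.Y668
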