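import Pool.Agent.Y668.KH5

set_option autoImplicit false

namespace Pool.Agent.Y668.KH

open MeasureTheory Filter
open scoped Topology ENNReal

/-- A quadratic-mean inequality for unions. -/
theorem quad_union {Ω ι : Type*} [MeasurableSpace Ω] (μ : Measure Ω) [IsFiniteMeasure μ]
    (D : Finset ι) (A : ι → Set Ω) (hA : ∀ i ∈ D, MeasurableSet (A i)) (U : Set Ω)
    (hU : MeasurableSet U) (hsub : ∀ i ∈ D, A i ⊆ U) (c : ℝ) :
    2 * c * ∑ i ∈ D, μ.real (A i) ≤ ∑ i ∈ D, ∑ j ∈ D, μ.real (A i ∩ A j) + c ^ 2 * μ.real U := by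
  classical
  have hint : ∀ s : Set Ω, MeasurableSet s → Integrable (s.indicator (fun _ => (1:ℝ))) μ :=
    fun s hs => (integrable_const (1:ℝ)).indicator hs
  have hval : ∀ s : Set Ω, MeasurableSet s → ∫ x, s.indicator (fun _ => (1:ℝ)) x ∂μ = μ.real s := by
    intro s hs
    rw [integral_indicator hs, setIntegral_const]
    simp
  have e1 : 2 * c * ∑ i ∈ D, μ.real (A i)
      = ∫ x, 2 * c * ∑ i ∈ D, (A i).indicator (fun _ => (1:ℝ)) x ∂μ := by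
    rw [integral_const_mul, integral_finsetSum _ (fun i hi => hint _ (hA i hi))]
    congr 1
    exact Finset.sum_congr rfl (fun i hi => (hval _ (hA i hi)).symm)
  have e2 : ∑ i ∈ D, ∑ j ∈ D, μ.real (A i ∩ A j) + c ^ 2 * μ.real U
      = ∫ x, (∑ i ∈ D, ∑ j ∈ D, (A i ∩ A j).indicator (fun _ => (1:ℝ)) x +
        c ^ 2 * U.indicator (fun _ => (1:ℝ)) x) ∂μ := by
    rw [integral_add, integral_const_mul, hval U hU, integral_finsetSum]
    · congr 1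
      apply Finset.sum_congr rfl
      intro i hi
      rw [integral_finsetSum]
      · exact Finset.sum_congr rfl (fun j hj => (hval _ ((hA i hi).inter (hA j hj))).symm)
      · intro j hj
        exact hint _ ((hA i hi).inter (hA j hj))
    · intro i hi
      exact integrable_finsetSum _ (fun j hj => hint _ ((hA i hi).inter (hA j hj)))
    · exact integrable_finsetSum _ (fun i hi =>
        integrable_finsetSum _ (fun j hj => hint _ ((hA i hi).inter (hA j hj))))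
    · exact (hint U hU).const_mul _
  rw [e1, e2]
  apply integral_mono
  · exact (integrable_finsetSum _ (fun i hi => hint _ (hA i hi))).const_mul _
  · exact (integrable_finsetSum _ (fun i hi =>
        integrable_finsetSum _ (fun j hj => hint _ ((hA i hi).inter (hA j hj))))).add
      ((hint U hU).const_mul _)
  · intro x
    simp only
    have h1 : ∑ i ∈ D, ∑ j ∈ D, (A i ∩ A j).indicator (fun _ => (1:ℝ)) x
        = (∑ i ∈ D, (A i).indicator (fun _ => (1:ℝ)) x) ^ 2 := by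
      rw [sq, Finset.sum_mul_sum]
      apply Finset.sum_congr rfl
      intro i _
      apply Finset.sum_congr rfl
      intro j _
      by_cases h1 : x ∈ A i <;> by_cases h2 : x ∈ A j <;> simp [h1, h2]
    rw [h1]
    by_cases hx : x ∈ U
    · rw [Set.indicator_of_mem hx]
      nlinarith [sq_nonneg (∑ i ∈ D, (A i).indicator (fun _ => (1:ℝ)) x - c)]
    · rw [Set.indicator_of_notMem hx]
      have h2 : ∑ i ∈ D, (A i).indicator (fun _ => (1:ℝ)) x = 0 := by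
        apply Finset.sum_eq_zero
        intro i hi
        rw [Set.indicator_of_notMem (fun h => hx (hsub i hi h))]
      rw [h2]
      simp

theorem meas_EG (y : ℝ × ℝ) (v : ℕ → ℕ) (u1 u2 : ℕ → ℤ) (t : ℝ) (q : ℕ) :
    MeasurableSet (EG y v u1 u2 t q) := by
  have e : EG y v u1 u2 t q = ⋃ a : ℤ × ℤ,
      ({x : ℝ × ℝ | |(q:ℝ) * x.1 - a.1 - y.1| < t} ∩ {x : ℝ × ℝ | |(q:ℝ) * x.2 - a.2 - y.2| < t}) ∩
      {_x : ℝ × ℝ | ∀ d : ℕ, 2 ≤ d → d ∣ q →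
        ¬ ((d:ℤ) ∣ v d * a.1 + u1 d ∧ (d:ℤ) ∣ v d * a.2 + u2 d)} := by
    ext x
    simp only [Set.mem_iUnion]
    constructor
    · rintro ⟨a1, a2, h1, h2, h3⟩
      exact ⟨(a1, a2), ⟨h1, h2⟩, h3⟩
    · rintro ⟨⟨a1, a2⟩, ⟨h1, h2⟩, h3⟩
      exact ⟨a1, a2, h1, h2, h3⟩
  rw [e]
  apply MeasurableSet.iUnion
  intro a
  exact ((measurableSet_lt (by fun_prop) measurable_const).inter
    (measurableSet_lt (by fun_prop) measurable_const)).inter (MeasurableSet.const _)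

theorem meas_Bx (N : ℕ) (j : ℤ × ℤ) : MeasurableSet (Bx N j) :=
  measurableSet_Ico.prod measurableSet_Ico

theorem Bx_disj (N : ℕ) (hN : 0 < N) (J : Set (ℤ × ℤ)) : J.PairwiseDisjoint (Bx N) := by
  intro a _ b _ hab
  have hNR : (0:ℝ) < N := by exact_mod_cast hN
  rw [Function.onFun, Set.disjoint_left]
  rintro x ⟨h1, h2⟩ ⟨h3, h4⟩
  apply hab
  have key : ∀ (z : ℝ) (k l : ℤ), z ∈ Set.Ico ((k:ℝ) / N) ((k + 1) / N) →
      z ∈ Set.Ico ((l:ℝ) / N) ((l + 1) / N) → k = l := by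
    intro z k l hk hl
    rw [Set.mem_Ico, div_le_iff₀ hNR, lt_div_iff₀ hNR] at hk hl
    have h5 : ⌊z * N⌋ = k := Int.floor_eq_iff.mpr hk
    have h6 : ⌊z * N⌋ = l := Int.floor_eq_iff.mpr hl
    rw [← h5, h6]
  exact Prod.ext (key _ _ _ h1 h3) (key _ _ _ h2 h4)

theorem vol_Bx (N : ℕ) (hN : 0 < N) (j : ℤ × ℤ) :
    volume (Bx N j) = ENNReal.ofReal (1 / N ^ 2) := by
  have hNR : (0:ℝ) < N := by exact_mod_cast hN
  unfold Bx
  rw [Measure.volume_eq_prod, Measure.prod_prod, Real.volume_Ico, Real.volume_Ico,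
    ← ENNReal.ofReal_mul]
  · congr 1
    field_simp
    ring
  · have : ((j.1:ℝ) + 1) / N - j.1 / N = 1 / N := by ring
    rw [this]; positivity

open Classical in
/-- The grid neighbourhood of a set. -/
noncomputable def Jset (N : ℕ) (K : Set (ℝ × ℝ)) : Finset (ℤ × ℤ) :=
  (Finset.Icc (0:ℤ) (N - 1) ×ˢ Finset.Icc (0:ℤ) (N - 1)).filter
    (fun j => (Bx N j ∩ K).Nonempty)

theorem mem_Jset (N : ℕ) (K : Set (ℝ × ℝ)) (j : ℤ × ℤ) : j ∈ Jset N K ↔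
    ((0 ≤ j.1 ∧ j.1 ≤ (N:ℤ) - 1) ∧ 0 ≤ j.2 ∧ j.2 ≤ (N:ℤ) - 1) ∧ (Bx N j ∩ K).Nonempty := by
  classical
  unfold Jset
  rw [Finset.mem_filter, Finset.mem_product, Finset.mem_Icc, Finset.mem_Icc]

theorem grid_approx (K : Set (ℝ × ℝ)) (hK : IsCompact K)
    (hKsub : K ⊆ Set.Ico (0:ℝ) 1 ×ˢ Set.Ico (0:ℝ) 1) (ε : ℝ≥0∞) (hε : 0 < ε) :
    ∃ (N : ℕ) (J : Finset (ℤ × ℤ)), 0 < N ∧ K ⊆ (⋃ j ∈ J, Bx N j) ∧
      (⋃ j ∈ J, Bx N j) ⊆ Set.Icc (0 : ℝ × ℝ) 1 ∧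
      volume (⋃ j ∈ J, Bx N j) ≤ volume K + ε := by
  have hlim := tendsto_measure_cthickening_of_isCompact (μ := (volume : Measure (ℝ × ℝ))) hK
  have hfin : volume K ≠ ∞ := hK.measure_lt_top.ne
  have hlt : volume K < volume K + ε := ENNReal.lt_add_right hfin hε.ne'
  have hev := hlim.eventually (gt_mem_nhds hlt)
  rw [Metric.eventually_nhds_iff] at hev
  obtain ⟨η, hη, hev⟩ := hev
  obtain ⟨n, hn⟩ := exists_nat_one_div_lt hη
  refine ⟨n + 1, Jset (n + 1) K, Nat.succ_pos n, ?_, ?_, ?_⟩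
  · intro x hx
    obtain ⟨⟨h1, h2⟩, h3, h4⟩ := hKsub hx
    have hNR : (0:ℝ) < ((n + 1 : ℕ) : ℝ) := by positivity
    have key : ∀ z : ℝ, 0 ≤ z → z < 1 → z ∈ Set.Ico ((⌊z * ((n + 1 : ℕ) : ℝ)⌋:ℝ) / ((n + 1 : ℕ) : ℝ))
        ((⌊z * ((n + 1 : ℕ) : ℝ)⌋ + 1) / ((n + 1 : ℕ) : ℝ)) ∧
        0 ≤ ⌊z * ((n + 1 : ℕ) : ℝ)⌋ ∧ ⌊z * ((n + 1 : ℕ) : ℝ)⌋ ≤ ((n + 1 : ℕ) : ℤ) - 1 := by
      intro z hz0 hz1
      refine ⟨?_, Int.floor_nonneg.mpr (by positivity), ?_⟩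
      · rw [Set.mem_Ico, div_le_iff₀ hNR, lt_div_iff₀ hNR]
        exact ⟨Int.floor_le _, Int.lt_floor_add_one _⟩
      · have : ⌊z * ((n + 1 : ℕ) : ℝ)⌋ < ((n + 1 : ℕ) : ℤ) := by
          rw [Int.floor_lt]
          push_cast
          have : z * ((n:ℝ) + 1) < 1 * (n + 1) := mul_lt_mul_of_pos_right hz1 (by positivity)
          linarith
        omega
    obtain ⟨k1, k2, k3⟩ := key x.1 h1 h2
    obtain ⟨l1, l2, l3⟩ := key x.2 h3 h4
    have hxB : x ∈ Bx (n + 1) (⌊x.1 * ((n + 1 : ℕ) : ℝ)⌋, ⌊x.2 * ((n + 1 : ℕ) : ℝ)⌋) :=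
      ⟨k1, l1⟩
    simp only [Set.mem_iUnion]
    refine ⟨_, ?_, hxB⟩
    rw [mem_Jset]
    exact ⟨⟨⟨k2, k3⟩, ⟨l2, l3⟩⟩, ⟨x, hxB, hx⟩⟩
  · intro x hx
    simp only [Set.mem_iUnion] at hx
    obtain ⟨j, hj, ⟨h1, h2⟩, h3, h4⟩ := hx
    rw [mem_Jset] at hj
    obtain ⟨⟨⟨g1, g2⟩, g3, g4⟩, _⟩ := hj
    have hNR : (0:ℝ) < ((n + 1 : ℕ) : ℝ) := by positivity
    have key : ∀ (z : ℝ) (k : ℤ), 0 ≤ k → k ≤ ((n + 1 : ℕ) : ℤ) - 1 →
        (k:ℝ) / ((n + 1 : ℕ) : ℝ) ≤ z → z < (k + 1) / ((n + 1 : ℕ) : ℝ) → 0 ≤ z ∧ z ≤ 1 := by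
      intro z k hk0 hk1 hz0 hz1
      constructor
      · exact le_trans (by positivity) hz0
      · have h5 : (k:ℝ) + 1 ≤ ((n + 1 : ℕ) : ℝ) := by exact_mod_cast (by linarith : k + 1 ≤ ((n + 1 : ℕ) : ℤ))
        refine hz1.le.trans ?_
        rw [div_le_one hNR]
        exact h5
    obtain ⟨a1, a2⟩ := key x.1 j.1 g1 g2 h1 h2
    obtain ⟨b1, b2⟩ := key x.2 j.2 g3 g4 h3 h4
    exact ⟨⟨a1, b1⟩, ⟨a2, b2⟩⟩
  · have hsub : (⋃ j ∈ Jset (n + 1) K, Bx (n + 1) j) ⊆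
        Metric.cthickening (1 / ((n:ℝ) + 1)) K := by
      intro x hx
      simp only [Set.mem_iUnion] at hx
      obtain ⟨j, hj, hxj⟩ := hx
      rw [mem_Jset] at hj
      obtain ⟨_, z, hzj, hzK⟩ := hj
      apply Metric.mem_cthickening_of_dist_le x z _ _ hzK
      rw [Prod.dist_eq, Real.dist_eq, Real.dist_eq]
      obtain ⟨⟨h1, h2⟩, h3, h4⟩ := hxj
      obtain ⟨⟨h5, h6⟩, h7, h8⟩ := hzj
      have e1 : ((j.1:ℝ) + 1) / ((n + 1 : ℕ) : ℝ) = j.1 / ((n + 1 : ℕ) : ℝ) + 1 / ((n:ℝ) + 1) := by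
        push_cast; ring
      have e2 : ((j.2:ℝ) + 1) / ((n + 1 : ℕ) : ℝ) = j.2 / ((n + 1 : ℕ) : ℝ) + 1 / ((n:ℝ) + 1) := by
        push_cast; ring
      rw [e1] at h2 h6
      rw [e2] at h4 h8
      apply max_le
      · rw [abs_le]; constructor <;> linarith
      · rw [abs_le]; constructor <;> linarith
    refine (measure_mono hsub).trans ?_
    apply le_of_lt
    apply hev
    rw [Real.dist_eq, sub_zero, abs_of_nonneg (by positivity)]
    exact hn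

/-- The key null-set statement. -/
theorem null_G (y : ℝ × ℝ) (v : ℕ → ℕ) (u1 u2 : ℕ → ℤ) (hdom : IsDom y v u1 u2)
    (ψ : ℕ → ℝ) (hψ : ∀ q, 0 ≤ ψ q) (hψ8 : ∀ q, ψ q ≤ 1 / 8)
    (hdiv : ¬ Summable (fun q : ℕ => ψ q ^ 2)) (q0 : ℕ) :
    volume ((Set.Ico (0:ℝ) 1 ×ˢ Set.Ico (0:ℝ) 1) ∩
      ⋂ q : ℕ, ⋂ _ : q0 ≤ q, (EG y v u1 u2 (ψ q) q)ᶜ) = 0 := by
  by_contra hne
  have hmeas : MeasurableSet ((Set.Ico (0:ℝ) 1 ×ˢ Set.Ico (0:ℝ) 1) ∩
      ⋂ q : ℕ, ⋂ _ : q0 ≤ q, (EG y v u1 u2 (ψ q) q)ᶜ) :=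
    (measurableSet_Ico.prod measurableSet_Ico).inter
      (MeasurableSet.iInter (fun q => MeasurableSet.iInter (fun _ => (meas_EG y v u1 u2 _ q).compl)))
  obtain ⟨K, hKsub, hK, hKpos⟩ := hmeas.exists_lt_isCompact (pos_iff_ne_zero.mpr hne)
  have hKfin : volume K ≠ ∞ := hK.measure_lt_top.ne
  set k : ℝ := (volume K).toReal with hk
  have hk0 : 0 < k := ENNReal.toReal_pos hKpos.ne' hKfin
  obtain ⟨N, J, hN, hKV, hVI, hVvol⟩ := grid_approx K hK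
    (fun x hx => (hKsub hx).1) (ENNReal.ofReal (k ^ 2 / (32 * 2988)))
    (ENNReal.ofReal_pos.mpr (by positivity))
  set V : Set (ℝ × ℝ) := ⋃ j ∈ J, Bx N j with hV
  have hVmeas : MeasurableSet V := Finset.measurableSet_biUnion _ (fun j _ => meas_Bx N j)
  have hNR : (0:ℝ) < N := by exact_mod_cast hN
  -- the union of boxes has finite measure
  have hVfin : volume V ≠ ∞ := by
    refine ne_top_of_le_ne_top ?_ hVvol
    exact ENNReal.add_ne_top.mpr ⟨hKfin, ENNReal.ofReal_ne_top⟩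
  have : IsFiniteMeasure (volume.restrict V) := ⟨by
    rw [Measure.restrict_apply_univ]; exact hVfin.lt_top⟩
  -- choose the finite block
  set q1 : ℕ := max q0 (176 * N ^ 2) with hq1
  have hq1pos : 0 < q1 := by
    have : 0 < 176 * N ^ 2 := by positivity
    exact lt_of_lt_of_le this (le_max_right _ _)
  have hnn : ∀ q : ℕ, 0 ≤ ψ q ^ 2 := fun q => sq_nonneg _
  have htend := (not_summable_iff_tendsto_nat_atTop_of_nonneg hnn).mp hdiv
  obtain ⟨n, hn1, hn2⟩ := ((htend.eventually_ge_atTop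
    (1 + ∑ q ∈ Finset.range q1, ψ q ^ 2)).and (eventually_ge_atTop q1)).exists
  set D : Finset ℕ := Finset.Ico q1 n with hD
  set S : ℝ := ∑ q ∈ D, ψ q ^ 2 with hS
  have hS1 : 1 ≤ S := by
    rw [hS, hD, Finset.sum_Ico_eq_sub _ hn2]
    linarith
  have hDpos : ∀ q ∈ D, 0 < q := by
    intro q hq
    rw [hD, Finset.mem_Ico] at hq
    omega
  have hD0 : ∀ q ∈ D, q0 ≤ q ∧ 176 * N ^ 2 ≤ q := by
    intro q hq
    rw [hD, Finset.mem_Ico] at hq
    exact ⟨(le_max_left _ _).trans hq.1, (le_max_right _ _).trans hq.1⟩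
  -- measure of V
  have hw : (volume V).toReal = J.card * (1 / N ^ 2) := by
    rw [hV, measure_biUnion_finset (Bx_disj N hN _) (fun j _ => meas_Bx N j),
      Finset.sum_congr rfl (fun j _ => vol_Bx N hN j), Finset.sum_const, nsmul_eq_mul,
      ENNReal.toReal_mul, ENNReal.toReal_natCast, ENNReal.toReal_ofReal (by positivity)]
  have hwk : k ≤ (volume V).toReal := ENNReal.toReal_mono hVfin (measure_mono hKV)
  -- first moment
  have hfirst : ∀ q ∈ D, k * (ψ q ^ 2 / 4) ≤ (volume.restrict V).real (EG y v u1 u2 (ψ q) q) := by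
    intro q hq
    have e1 : (volume.restrict V) (EG y v u1 u2 (ψ q) q)
        = ∑ j ∈ J, volume (EG y v u1 u2 (ψ q) q ∩ Bx N j) := by
      rw [Measure.restrict_apply (meas_EG y v u1 u2 _ q), hV, Set.inter_iUnion₂,
        measure_biUnion_finset]
      · intro a ha b hb hab
        exact (Bx_disj N hN (J : Set (ℤ × ℤ)) ha hb hab).mono Set.inter_subset_right
          Set.inter_subset_right
      · intro j _
        exact (meas_EG y v u1 u2 _ q).inter (meas_Bx N j)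
    have e2 : ENNReal.ofReal (J.card * (ψ q ^ 2 / (4 * N ^ 2)))
        ≤ (volume.restrict V) (EG y v u1 u2 (ψ q) q) := by
      rw [e1, ENNReal.ofReal_mul (Nat.cast_nonneg _), ENNReal.ofReal_natCast, ← nsmul_eq_mul,
        ← Finset.sum_const]
      apply Finset.sum_le_sum
      intro j _
      exact first_moment y v u1 u2 hdom N q hN (hD0 q hq).2 (ψ q) (hψ q) (hψ8 q) j
    have e3 := (ENNReal.ofReal_le_iff_le_toReal (measure_ne_top _ _)).mp e2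
    refine le_trans ?_ e3
    have e4 : (J.card : ℝ) * (ψ q ^ 2 / (4 * N ^ 2)) = (volume V).toReal * (ψ q ^ 2 / 4) := by
      rw [hw]; field_simp
    rw [e4]
    exact mul_le_mul_of_nonneg_right hwk (by positivity)
  -- second moment
  have hsecond : ∑ q ∈ D, ∑ r ∈ D, (volume.restrict V).real
      (EG y v u1 u2 (ψ q) q ∩ EG y v u1 u2 (ψ r) r) ≤ 2988 * S ^ 2 := by
    have h1 := second_moment y v u1 u2 ψ hdom hψ hψ8 D hDpos
    have h2 : ∑ q ∈ D, ∑ r ∈ D, (volume.restrict V).real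
        (EG y v u1 u2 (ψ q) q ∩ EG y v u1 u2 (ψ r) r) ≤ ∑ q ∈ D, ∑ r ∈ D,
        (volume (EG y v u1 u2 (ψ q) q ∩ EG y v u1 u2 (ψ r) r ∩ Set.Icc (0 : ℝ × ℝ) 1)).toReal := by
      apply Finset.sum_le_sum
      intro q _
      apply Finset.sum_le_sum
      intro r _
      rw [Measure.real, Measure.restrict_apply ((meas_EG y v u1 u2 _ q).inter
        (meas_EG y v u1 u2 _ r))]
      apply ENNReal.toReal_mono
      · refine ne_top_of_le_ne_top ?_ (measure_mono Set.inter_subset_right)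
        exact isCompact_Icc.measure_lt_top.ne
      · exact measure_mono (Set.inter_subset_inter_right _ hVI)
    nlinarith
  -- the complement of K
  have hU : (volume.restrict V).real Kᶜ ≤ k ^ 2 / (32 * 2988) := by
    rw [Measure.real, Measure.restrict_apply hK.measurableSet.compl]
    apply ENNReal.toReal_le_of_le_ofReal (by positivity)
    have e : Kᶜ ∩ V = V \ K := by
      ext x; constructor
      · rintro ⟨h1, h2⟩; exact ⟨h2, h1⟩
      · rintro ⟨h1, h2⟩; exact ⟨h2, h1⟩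
    rw [e, measure_sdiff hKV hK.measurableSet.nullMeasurableSet hKfin]
    exact tsub_le_iff_left.mpr hVvol
  have hsubU : ∀ q ∈ D, EG y v u1 u2 (ψ q) q ⊆ Kᶜ := by
    intro q hq x hx hxK
    have h1 := (hKsub hxK).2
    rw [Set.mem_iInter₂] at h1
    exact h1 q (hD0 q hq).1 hx
  have hquad := quad_union (volume.restrict V) D (fun q => EG y v u1 u2 (ψ q) q)
    (fun q _ => meas_EG y v u1 u2 _ q) Kᶜ hK.measurableSet.compl hsubU (4 * 2988 / k * S)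
  have hsumfirst : k * (S / 4) ≤ ∑ q ∈ D, (volume.restrict V).real (EG y v u1 u2 (ψ q) q) := by
    have := Finset.sum_le_sum hfirst
    rw [← Finset.mul_sum, ← Finset.sum_div] at this
    exact this
  have hS0 : 0 < S := by linarith
  have h1 : 2 * (4 * 2988 / k * S) * (k * (S / 4)) ≤
      2 * (4 * 2988 / k * S) * ∑ q ∈ D, (volume.restrict V).real (EG y v u1 u2 (ψ q) q) :=
    mul_le_mul_of_nonneg_left hsumfirst (by positivity)
  have h2 : (4 * 2988 / k * S) ^ 2 * (volume.restrict V).real Kᶜ ≤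
      (4 * 2988 / k * S) ^ 2 * (k ^ 2 / (32 * 2988)) :=
    mul_le_mul_of_nonneg_left hU (by positivity)
  have e3 : 2 * (4 * 2988 / k * S) * (k * (S / 4)) = 2 * 2988 * S ^ 2 := by
    calc 2 * (4 * 2988 / k * S) * (k * (S / 4)) = (k / k) * (2 * 2988 * S ^ 2) := by ring
      _ = 2 * 2988 * S ^ 2 := by rw [div_self hk0.ne']; ring
  have e4 : (4 * 2988 / k * S) ^ 2 * (k ^ 2 / (32 * 2988)) = 2988 / 2 * S ^ 2 := by
    have hk' : k ≠ 0 := hk0.ne'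
    calc (4 * 2988 / k * S) ^ 2 * (k ^ 2 / (32 * 2988))
        = (k / k) ^ 2 * (2988 / 2 * S ^ 2) := by ring
      _ = 2988 / 2 * S ^ 2 := by rw [div_self hk']; ring
  rw [e3] at h1
  rw [e4] at h2
  have h3 : 2 * 2988 * S ^ 2 ≤ 2988 * S ^ 2 + 2988 / 2 * S ^ 2 := by linarith
  have h4 : 0 < S ^ 2 := by positivity
  linarith

/-- The inhomogeneous Khintchine theorem in dimension two for `ψ ≤ 1/8`. -/
theorem main_small (y : ℝ × ℝ) (ψ : ℕ → ℝ) (hψ : ∀ q, 0 ≤ ψ q) (hψ8 : ∀ q, ψ q ≤ 1 / 8)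
    (hdiv : ¬ Summable (fun q : ℕ => ψ q ^ 2)) :
    ∀ᵐ x ∂(volume.restrict (Set.Icc (0 : ℝ × ℝ) 1)),
        {q : ℕ | 0 < q ∧ ∃ a : ℤ × ℤ,
          ‖(q : ℝ) • x - ((a.1 : ℝ), (a.2 : ℝ)) - y‖ < ψ q}.Infinite := by
  obtain ⟨v, u1, u2, hdom⟩ := exists_dom y
  rw [ae_restrict_iff' measurableSet_Icc]
  have h1 : ∀ᵐ x : ℝ × ℝ, x.1 ≠ 1 := by
    rw [ae_iff]
    have : {x : ℝ × ℝ | ¬ x.1 ≠ 1} = {(1:ℝ)} ×ˢ Set.univ := by
      ext x; simp
    rw [this, Measure.volume_eq_prod, Measure.prod_prod]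
    simp
  have h2 : ∀ᵐ x : ℝ × ℝ, x.2 ≠ 1 := by
    rw [ae_iff]
    have : {x : ℝ × ℝ | ¬ x.2 ≠ 1} = Set.univ ×ˢ {(1:ℝ)} := by
      ext x; simp
    rw [this, Measure.volume_eq_prod, Measure.prod_prod]
    simp
  have h3 : ∀ᵐ x : ℝ × ℝ, ∀ q0 : ℕ, x ∉ (Set.Ico (0:ℝ) 1 ×ˢ Set.Ico (0:ℝ) 1) ∩
      ⋂ q : ℕ, ⋂ _ : q0 ≤ q, (EG y v u1 u2 (ψ q) q)ᶜ := by
    rw [ae_all_iff]
    intro q0
    rw [ae_iff]
    simp only [not_not]
    exact null_G y v u1 u2 hdom ψ hψ hψ8 hdiv q0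
  filter_upwards [h1, h2, h3] with x hx1 hx2 hx3 hxI
  intro hfin
  obtain ⟨M, hM⟩ := hfin.bddAbove
  apply hx3 (M + 1)
  refine ⟨⟨⟨hxI.1.1, lt_of_le_of_ne hxI.2.1 hx1⟩, ⟨hxI.1.2, lt_of_le_of_ne hxI.2.2 hx2⟩⟩, ?_⟩
  rw [Set.mem_iInter₂]
  intro q hq hxE
  obtain ⟨a1, a2, g1, g2, _⟩ := hxE
  have hmem : q ∈ {q : ℕ | 0 < q ∧ ∃ a : ℤ × ℤ,
          ‖(q : ℝ) • x - ((a.1 : ℝ), (a.2 : ℝ)) - y‖ < ψ q} := by
    refine ⟨by omega, (a1, a2), ?_⟩
    rw [Prod.norm_def]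
    exact max_lt g1 g2
  have := hM hmem
  omega

/-- The inhomogeneous Khintchine theorem in dimension two without monotonicity. -/
theorem main (y : ℝ × ℝ) (ψ : ℕ → ℝ) (hψ : ∀ q, 0 ≤ ψ q)
    (hdiv : ¬ Summable (fun q : ℕ => ψ q ^ 2)) :
    ∀ᵐ x ∂(volume.restrict (Set.Icc (0 : ℝ × ℝ) 1)),
        {q : ℕ | 0 < q ∧ ∃ a : ℤ × ℤ,
          ‖(q : ℝ) • x - ((a.1 : ℝ), (a.2 : ℝ)) - y‖ < ψ q}.Infinite := by
  have hdiv' : ¬ Summable (fun q : ℕ => (min (ψ q) (1 / 8)) ^ 2) := by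
    intro hs
    apply hdiv
    have h0 := hs.tendsto_atTop_zero
    have hev : ∀ᶠ q in atTop, (min (ψ q) (1 / 8)) ^ 2 < 1 / 64 :=
      h0.eventually (gt_mem_nhds (by norm_num))
    have hcongr : (fun q : ℕ => (min (ψ q) (1 / 8)) ^ 2) =ᶠ[cofinite] (fun q : ℕ => ψ q ^ 2) := by
      rw [Nat.cofinite_eq_atTop]
      filter_upwards [hev] with q hq
      rcases le_total (ψ q) (1 / 8) with h | h
      · rw [min_eq_left h]
      · rw [min_eq_right h] at hq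
        norm_num at hq
    exact (summable_congr_cofinite hcongr).mp hs
  have hmain := main_small y (fun q => min (ψ q) (1 / 8)) (fun q => le_min (hψ q) (by norm_num))
    (fun q => min_le_right _ _) hdiv'
  filter_upwards [hmain] with x hx
  apply hx.mono
  rintro q ⟨h1, a, h2⟩
  exact ⟨h1, a, lt_of_lt_of_le h2 (min_le_left _ _)⟩

end Pool.Agent.Y668.KH
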