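import Mathlib

set_option autoImplicit false

namespace Pool.Agent.Y668.KH

open Finset

/-- A finite set of naturals in `[1,Q]`, whose distinct elements differ by at least `m`,
has at most `Q/m + 1` elements. -/
theorem card_sep (m Q : ℕ) (hm : 1 ≤ m) (S : Finset ℕ) (hS : ∀ n ∈ S, n ≤ Q)
    (hsep : ∀ n ∈ S, ∀ n' ∈ S, n' < n → m ≤ n - n') : (S.card : ℝ) ≤ Q / m + 1 := by
  have hinj : Set.InjOn (fun n : ℕ => n / m) (S : Set ℕ) := by
    intro a ha b hb hab
    simp only at hab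
    by_contra hne
    rcases lt_or_gt_of_ne hne with h | h
    · have := hsep b hb a ha h
      have h2 := Nat.div_add_mod a m
      have h3 := Nat.div_add_mod b m
      have h4 := Nat.mod_lt a (by omega : 0 < m)
      have h5 := Nat.mod_lt b (by omega : 0 < m)
      rw [hab] at h2
      omega
    · have := hsep a ha b hb h
      have h2 := Nat.div_add_mod a m
      have h3 := Nat.div_add_mod b m
      have h4 := Nat.mod_lt a (by omega : 0 < m)
      have h5 := Nat.mod_lt b (by omega : 0 < m)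
      rw [hab] at h2
      omega
  have hcard : S.card ≤ (Finset.range (Q / m + 1)).card := by
    refine Finset.card_le_card_of_injOn (fun n : ℕ => n / m) ?_ hinj
    intro a ha
    simp only [Finset.coe_range, Set.mem_Iio]
    exact Nat.lt_succ_of_le (Nat.div_le_div_right (hS a ha))
  rw [Finset.card_range] at hcard
  calc (S.card : ℝ) ≤ ((Q / m + 1 : ℕ) : ℝ) := by exact_mod_cast hcard
    _ = ((Q / m : ℕ) : ℝ) + 1 := by push_cast; ring
    _ ≤ Q / m + 1 := by
      have := @Nat.cast_div_le ℝ _ _ _ Q m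
      linarith

/-- Counting of denominators with small fractional part when there are two
non-proportional solutions. -/
theorem cnt1 (z t : ℝ) (ht : 0 < t) (Q : ℕ) (S : Finset ℕ)
    (hS : ∀ n ∈ S, 1 ≤ n ∧ n ≤ Q ∧ ∃ k : ℤ, |(n:ℝ) * z - k| < t)
    (n1 n2 : ℕ) (k1 k2 : ℤ) (h1 : 1 ≤ n1) (h1Q : n1 ≤ Q) (h2Q : n2 ≤ Q)
    (hk1 : |(n1:ℝ) * z - k1| < t) (hk2 : |(n2:ℝ) * z - k2| < t)
    (hne : (n1:ℤ) * k2 ≠ n2 * k1) : (S.card : ℝ) ≤ 14 * Q * t := by
  have hn1R : (n1:ℝ) ≤ Q := by exact_mod_cast h1Q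
  have hn2R : (n2:ℝ) ≤ Q := by exact_mod_cast h2Q
  have hn1p : (0:ℝ) ≤ n1 := by positivity
  have hn2p : (0:ℝ) ≤ n2 := by positivity
  -- first: `1 ≤ 2 Q t`
  have hQt : 1 ≤ 2 * Q * t := by
    have h : (1:ℤ) ≤ |(n1:ℤ) * k2 - n2 * k1| := Int.one_le_abs (sub_ne_zero.mpr hne)
    have h' : (1:ℝ) ≤ |(n1:ℝ) * k2 - n2 * k1| := by exact_mod_cast h
    have e : (n1:ℝ) * k2 - n2 * k1 = n2 * (n1 * z - k1) - n1 * (n2 * z - k2) := by ring
    rw [e] at h'
    have h3 := abs_sub (n2 * ((n1:ℝ) * z - k1)) (n1 * (n2 * z - k2))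
    rw [abs_mul, abs_mul, abs_of_nonneg hn1p, abs_of_nonneg hn2p] at h3
    have h4 : (n2:ℝ) * |(n1:ℝ) * z - k1| ≤ Q * t :=
      mul_le_mul hn2R hk1.le (abs_nonneg _) (by linarith)
    have h5 : (n1:ℝ) * |(n2:ℝ) * z - k2| ≤ Q * t :=
      mul_le_mul hn1R hk2.le (abs_nonneg _) (by linarith)
    linarith
  classical
  have hex : ∃ m : ℕ, 1 ≤ m ∧ ∃ l : ℤ, |(m:ℝ) * z - l| < 2 * t :=
    ⟨n1, h1, k1, by linarith⟩
  obtain ⟨m, hm⟩ : ∃ m, m = Nat.find hex := ⟨_, rfl⟩
  have hmspec : 1 ≤ m ∧ ∃ l : ℤ, |(m:ℝ) * z - l| < 2 * t := by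
    rw [hm]; exact Nat.find_spec hex
  have hmmin : ∀ n : ℕ, 1 ≤ n → (∃ l : ℤ, |(n:ℝ) * z - l| < 2 * t) → m ≤ n := by
    intro n h1 h2
    rw [hm]
    exact Nat.find_min' hex ⟨h1, h2⟩
  obtain ⟨hm1, l, hl⟩ := hmspec
  have hm1R : (1:ℝ) ≤ m := by exact_mod_cast hm1
  have hsep : ∀ n ∈ S, ∀ n' ∈ S, n' < n → m ≤ n - n' := by
    intro n hn n' hn' hlt
    obtain ⟨_, _, k, hk⟩ := hS n hn
    obtain ⟨_, _, k', hk'⟩ := hS n' hn'
    apply hmmin _ (by omega)
    refine ⟨k - k', ?_⟩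
    rw [Nat.cast_sub hlt.le]
    push_cast
    have e : ((n:ℝ) - n') * z - (k - k') = (n * z - k) - (n' * z - k') := by ring
    rw [e]
    have := abs_sub ((n:ℝ) * z - k) (n' * z - k')
    linarith
  have hsepcard := card_sep m Q hm1 S (fun n hn => (hS n hn).2.1) hsep
  have hmQ : m ≤ Q := le_trans (hmmin n1 h1 ⟨k1, by linarith⟩) h1Q
  have hQ0 : (0:ℝ) ≤ Q := by positivity
  by_cases hc : 1 ≤ 8 * t * m
  · have h6 : (Q:ℝ) / m ≤ 8 * t * Q := by
      rw [div_le_iff₀ (by linarith)]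
      nlinarith
    nlinarith
  · push Not at hc
    -- choose a non proportional point
    have hp : ∃ (n : ℕ) (k : ℤ), n ≤ Q ∧ |(n:ℝ) * z - k| < t ∧ (n:ℤ) * l - m * k ≠ 0 := by
      by_contra hcon
      push Not at hcon
      have e1 := hcon n1 k1 h1Q hk1
      have e2 := hcon n2 k2 h2Q hk2
      apply hne
      have hmz : (m:ℤ) ≠ 0 := by exact_mod_cast (by omega : m ≠ 0)
      have : (m:ℤ) * (n1 * k2) = m * (n2 * k1) := by
        linear_combination (n2:ℤ) * e1 - (n1:ℤ) * e2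
      exact mul_left_cancel₀ hmz this
    obtain ⟨n, k, hnQ, hnk, hnz⟩ := hp
    set ε : ℝ := |(m:ℝ) * z - l| with hε
    have hmt : (m:ℝ) * t < 1 / 8 := by nlinarith
    have hnR : (n:ℝ) ≤ Q := by exact_mod_cast hnQ
    have hQε : 7 / 8 ≤ Q * ε := by
      have h : (1:ℤ) ≤ |(n:ℤ) * l - m * k| := Int.one_le_abs hnz
      have h' : (1:ℝ) ≤ |(n:ℝ) * l - m * k| := by exact_mod_cast h
      have e : (n:ℝ) * l - m * k = m * (n * z - k) - n * (m * z - l) := by ring
      rw [e] at h'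
      have h3 := abs_sub ((m:ℝ) * ((n:ℝ) * z - k)) (n * (m * z - l))
      rw [abs_mul, abs_mul, abs_of_nonneg (by linarith : (0:ℝ) ≤ m),
        abs_of_nonneg (by positivity : (0:ℝ) ≤ n)] at h3
      have h4 : (m:ℝ) * |(n:ℝ) * z - k| ≤ m * t :=
        mul_le_mul_of_nonneg_left hnk.le (by linarith)
      have h5 : (n:ℝ) * |(m:ℝ) * z - l| ≤ Q * ε :=
        mul_le_mul_of_nonneg_right hnR (abs_nonneg _)
      linarith
    have hε0 : 0 < ε := by
      rcases (abs_nonneg ((m:ℝ) * z - l)).lt_or_eq with h | h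
      · exact h
      · exfalso
        rw [← hε] at h
        rw [← h] at hQε
        norm_num at hQε
    -- choose k(n)
    have hchoose : ∀ n : ℕ, ∃ k : ℤ, n ∈ S → |(n:ℝ) * z - k| < t := by
      intro n
      by_cases hn : n ∈ S
      · obtain ⟨_, _, k, hk⟩ := hS n hn
        exact ⟨k, fun _ => hk⟩
      · exact ⟨0, fun h => absurd h hn⟩
    choose κ hκ using hchoose
    set A : ℤ := ⌊(Q:ℝ) * ε + m * t⌋ with hA
    set B : ℤ := ⌊2 * t / ε⌋ with hB
    have hA0 : 0 ≤ A := Int.floor_nonneg.mpr (by positivity)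
    have hB0 : 0 ≤ B := Int.floor_nonneg.mpr (by positivity)
    have hinj : Set.InjOn (fun n : ℕ => (((n:ℤ) * l - m * κ n, ⌊((n:ℝ) * z - κ n + t) / ε⌋) : ℤ × ℤ))
        (S : Set ℕ) := by
      intro a ha b hb hab
      simp only [Prod.mk.injEq] at hab
      obtain ⟨hw, hf⟩ := hab
      by_contra hne'
      have hlt1 := Int.abs_sub_lt_one_of_floor_eq_floor hf
      rw [← sub_div, abs_div, abs_of_pos hε0, div_lt_one hε0] at hlt1
      have e1 : ((a:ℝ) * z - κ a + t) - ((b:ℝ) * z - κ b + t)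
          = ((a:ℝ) - b) * z - (κ a - κ b) := by ring
      rw [e1] at hlt1
      have hwR : ((a:ℝ) - b) * l = m * (κ a - κ b) := by
        have : (((a:ℤ) * l - m * κ a : ℤ) : ℝ) = ((b:ℤ) * l - m * κ b : ℤ) := by rw [hw]
        push_cast at this
        linarith
      have e2 : (m:ℝ) * (((a:ℝ) - b) * z - (κ a - κ b)) = ((a:ℝ) - b) * (m * z - l) := by
        linear_combination hwR
      have e3 : (m:ℝ) * |((a:ℝ) - b) * z - (κ a - κ b)| = |(a:ℝ) - b| * ε := by
        rw [hε, ← abs_mul, ← e2, abs_mul, abs_of_nonneg (by linarith : (0:ℝ) ≤ m)]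
      have e4 : |(a:ℝ) - b| * ε < m * ε := by
        rw [← e3]
        exact mul_lt_mul_of_pos_left hlt1 (by linarith)
      have e5 : |(a:ℝ) - b| < m := lt_of_mul_lt_mul_right e4 hε0.le
      rcases lt_or_gt_of_ne hne' with h | h
      · have h7 := hsep b hb a ha h
        have h8 : (a:ℝ) + m ≤ b := by exact_mod_cast (by omega : a + m ≤ b)
        rw [abs_lt] at e5
        linarith
      · have h7 := hsep a ha b hb h
        have h8 : (b:ℝ) + m ≤ a := by exact_mod_cast (by omega : b + m ≤ a)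
        rw [abs_lt] at e5
        linarith
    have hmaps : Set.MapsTo
        (fun n : ℕ => (((n:ℤ) * l - m * κ n, ⌊((n:ℝ) * z - κ n + t) / ε⌋) : ℤ × ℤ))
        (S : Set ℕ) ((Finset.Icc (-A) A ×ˢ Finset.Icc 0 B : Finset (ℤ × ℤ)) : Set (ℤ × ℤ)) := by
      intro a ha
      have ha' := hS a ha
      have hk := hκ a ha
      have haR : (a:ℝ) ≤ Q := by exact_mod_cast ha'.2.1
      simp only [Finset.coe_product, Set.mem_prod, Finset.coe_Icc, Set.mem_Icc]
      have e : (((a:ℤ) * l - m * κ a : ℤ) : ℝ) = m * (a * z - κ a) - a * (m * z - l) := by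
        push_cast; ring
      have hb : |(((a:ℤ) * l - m * κ a : ℤ) : ℝ)| ≤ Q * ε + m * t := by
        rw [e]
        have h3 := abs_sub ((m:ℝ) * ((a:ℝ) * z - κ a)) (a * (m * z - l))
        rw [abs_mul, abs_mul, abs_of_nonneg (by linarith : (0:ℝ) ≤ m),
          abs_of_nonneg (by positivity : (0:ℝ) ≤ a)] at h3
        have h4 : (m:ℝ) * |(a:ℝ) * z - κ a| ≤ m * t :=
          mul_le_mul_of_nonneg_left hk.le (by linarith)
        have h5 : (a:ℝ) * |(m:ℝ) * z - l| ≤ Q * ε :=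
          mul_le_mul_of_nonneg_right haR (abs_nonneg _)
        linarith
      rw [abs_le] at hb
      refine ⟨⟨?_, ?_⟩, ?_, ?_⟩
      · have : -((a:ℤ) * l - m * κ a) ≤ A := by
          rw [hA, Int.le_floor]
          push_cast
          push_cast at hb
          linarith [hb.1]
        linarith
      · rw [hA, Int.le_floor]
        exact hb.2
      · apply Int.floor_nonneg.mpr
        rw [abs_lt] at hk
        apply div_nonneg _ hε0.le
        linarith [hk.1]
      · apply Int.floor_le_floor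
        rw [abs_lt] at hk
        exact div_le_div_of_nonneg_right (by linarith [hk.2]) hε0.le
    have hcard := Finset.card_le_card_of_injOn _ hmaps hinj
    rw [Finset.card_product, Int.card_Icc, Int.card_Icc] at hcard
    have hcR : (S.card : ℝ) ≤ (2 * A + 1) * (B + 1) := by
      have h9 : (((A + 1 - -A).toNat * (B + 1 - 0).toNat : ℕ) : ℤ) = (2 * A + 1) * (B + 1) := by
        push_cast
        rw [Int.toNat_of_nonneg (by linarith), Int.toNat_of_nonneg (by linarith)]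
        ring
      have h10 : ((S.card : ℕ) : ℤ) ≤ (2 * A + 1) * (B + 1) := by
        rw [← h9]; exact_mod_cast hcard
      exact_mod_cast h10
    have hAle : (A:ℝ) ≤ Q * ε + m * t := Int.floor_le _
    have hBle : (B:ℝ) ≤ 2 * t / ε := Int.floor_le _
    have hA0R : (0:ℝ) ≤ A := by exact_mod_cast hA0
    have hB0R : (0:ℝ) ≤ B := by exact_mod_cast hB0
    have hB2 : (B:ℝ) + 1 ≤ 4 * t / ε := by
      have : 1 ≤ 2 * t / ε := by
        rw [le_div_iff₀ hε0]; linarith
      have e : 4 * t / ε = 2 * t / ε + 2 * t / ε := by ring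
      rw [e]; linarith
    have hA2 : 2 * (A:ℝ) + 1 ≤ 24 / 7 * (Q * ε) := by
      nlinarith
    calc (S.card : ℝ) ≤ (2 * A + 1) * (B + 1) := hcR
      _ ≤ (24 / 7 * (Q * ε)) * (4 * t / ε) :=
        mul_le_mul hA2 hB2 (by linarith) (by positivity)
      _ = 96 / 7 * Q * t := by field_simp; ring
      _ ≤ 14 * Q * t := by nlinarith [mul_nonneg hQ0 ht.le]

end Pool.Agent.Y668.KH
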