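import Mathlib

set_option autoImplicit false

namespace Pool.Agent.Y668.KH

open MeasureTheory
open scoped ENNReal

/-- One-dimensional overlap set. -/
def W1 (y α β : ℝ) (q r : ℕ) : Set ℝ :=
  {x : ℝ | x ∈ Set.Icc (0:ℝ) 1 ∧ (∃ a : ℤ, |(q:ℝ) * x - a - y| < α) ∧
    (∃ b : ℤ, |(r:ℝ) * x - b - y| < β)}

theorem vol_interval (y α : ℝ) (q : ℕ) (hq : 0 < q) (a : ℤ) :
    volume {x : ℝ | |(q:ℝ) * x - a - y| < α} ≤ ENNReal.ofReal (2 * (α / q)) := by
  have hqR : (0:ℝ) < q := by exact_mod_cast hq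
  have hsub : {x : ℝ | |(q:ℝ) * x - a - y| < α} ⊆ Set.Ioo ((a + y - α) / q) ((a + y + α) / q) := by
    intro x hx
    have hx : |(q:ℝ) * x - a - y| < α := hx
    rw [abs_lt] at hx
    constructor
    · rw [div_lt_iff₀ hqR]; linarith [hx.1]
    · rw [lt_div_iff₀ hqR]; linarith [hx.2]
  refine (measure_mono hsub).trans ?_
  rw [Real.volume_Ioo]
  apply le_of_eq
  congr 1
  ring

theorem card_Icc_ceil_floor (c δ : ℝ) (hδ : 0 ≤ δ) :
    ((Finset.Icc ⌈c - 2 * δ⌉ ⌊c + 2 * δ⌋).card : ℝ) ≤ 4 * δ + 1 := by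
  rw [Int.card_Icc]
  rcases le_total 0 (⌊c + 2 * δ⌋ + 1 - ⌈c - 2 * δ⌉) with h | h
  · have : (((⌊c + 2 * δ⌋ + 1 - ⌈c - 2 * δ⌉).toNat : ℕ) : ℤ) = ⌊c + 2 * δ⌋ + 1 - ⌈c - 2 * δ⌉ :=
      Int.toNat_of_nonneg h
    have h2 : (((⌊c + 2 * δ⌋ + 1 - ⌈c - 2 * δ⌉).toNat : ℕ) : ℝ)
        = (⌊c + 2 * δ⌋ : ℝ) + 1 - ⌈c - 2 * δ⌉ := by
      exact_mod_cast this
    rw [h2]
    have h3 := Int.floor_le (c + 2 * δ)
    have h4 := Int.le_ceil (c - 2 * δ)
    linarith
  · rw [Int.toNat_of_nonpos h]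
    push_cast
    linarith

theorem overlap1 (y α β δ ρ : ℝ) (hα0 : 0 ≤ α) (hα : α ≤ 1 / 4) (hβ0 : 0 ≤ β)
    (g q' r' : ℕ) (hg : 0 < g) (hq' : 0 < q') (hr' : 0 < r') (hco : Nat.Coprime q' r')
    (hδ1 : r' * α ≤ δ) (hδ2 : q' * β ≤ δ)
    (hρ : α / (g * q' : ℕ) ≤ ρ ∨ β / (g * r' : ℕ) ≤ ρ) :
    volume (W1 y α β (g * q') (g * r')) ≤ ENNReal.ofReal ((4 * δ + 1) * (2 * g) * (2 * ρ)) := by
  have hq'R : (0:ℝ) < q' := by exact_mod_cast hq'
  have hr'R : (0:ℝ) < r' := by exact_mod_cast hr'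
  have hgR : (0:ℝ) < g := by exact_mod_cast hg
  have hδ0 : 0 ≤ δ := le_trans (by positivity) hδ1
  have hρ0 : 0 ≤ ρ := by
    rcases hρ with h | h
    · exact le_trans (by positivity) h
    · exact le_trans (by positivity) h
  set c : ℝ := ((q':ℝ) - r') * y with hc
  set a0 : ℤ := ⌈-y - α⌉ with ha0
  set T : Finset ℤ := Finset.Icc ⌈c - 2 * δ⌉ ⌊c + 2 * δ⌋ with hT
  set J : Finset ℤ := Finset.Icc 0 (g:ℤ) with hJ
  let I : ℤ × ℤ → Set ℝ := fun p => {x : ℝ | ∃ a b : ℤ, |((g * q' : ℕ):ℝ) * x - a - y| < α ∧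
    |((g * r' : ℕ):ℝ) * x - b - y| < β ∧ (r':ℤ) * a - q' * b = p.1 ∧ (a - a0) / (q':ℤ) = p.2}
  have hcover : W1 y α β (g * q') (g * r') ⊆ ⋃ p ∈ T ×ˢ J, I p := by
    rintro x ⟨hx, ⟨a, ha⟩, ⟨b, hb⟩⟩
    simp only [Set.mem_iUnion]
    refine ⟨((r':ℤ) * a - q' * b, (a - a0) / (q':ℤ)), ?_, a, b, ha, hb, rfl, rfl⟩
    rw [abs_lt] at ha hb
    push_cast at ha hb
    simp only [Finset.mem_product]
    refine ⟨?_, ?_⟩
    · rw [hT, Finset.mem_Icc, Int.ceil_le, Int.le_floor]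
      push_cast
      have h1 : (r':ℝ) * ((g:ℝ) * q' * x - a - y) ≤ r' * α :=
        mul_le_mul_of_nonneg_left ha.2.le hr'R.le
      have h2 : (r':ℝ) * (-α) ≤ r' * ((g:ℝ) * q' * x - a - y) :=
        mul_le_mul_of_nonneg_left ha.1.le hr'R.le
      have h3 : (q':ℝ) * ((g:ℝ) * r' * x - b - y) ≤ q' * β :=
        mul_le_mul_of_nonneg_left hb.2.le hq'R.le
      have h4 : (q':ℝ) * (-β) ≤ q' * ((g:ℝ) * r' * x - b - y) :=
        mul_le_mul_of_nonneg_left hb.1.le hq'R.le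
      constructor
      · nlinarith
      · nlinarith
    · rw [hJ, Finset.mem_Icc]
      have hxm : (g:ℝ) * q' * x ≤ g * q' := by
        have := mul_le_mul_of_nonneg_left hx.2 (by positivity : (0:ℝ) ≤ g * q')
        linarith
      have hx0 : 0 ≤ (g:ℝ) * q' * x := by
        have := hx.1
        positivity
      have hlow : a0 ≤ a := by
        rw [ha0, Int.ceil_le]
        linarith [ha.2]
      have hup : a - a0 < g * q' + 1 := by
        have h5 : (a0:ℝ) ≥ -y - α := Int.le_ceil _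
        have h6 : ((a - a0 : ℤ) : ℝ) < ((g * q' + 1 : ℤ) : ℝ) := by
          push_cast
          linarith [ha.1]
        exact_mod_cast h6
      constructor
      · exact Int.ediv_nonneg (by linarith) (by positivity)
      · have h7 : (a - a0) / (q':ℤ) ≤ (g * q' : ℤ) / q' :=
          Int.ediv_le_ediv (by exact_mod_cast hq') (by linarith)
        rwa [Int.mul_ediv_cancel _ (by exact_mod_cast hq'.ne')] at h7
  have hI : ∀ p ∈ T ×ˢ J, volume (I p) ≤ ENNReal.ofReal (2 * ρ) := by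
    intro p _
    by_cases hne : (I p).Nonempty
    · obtain ⟨x0, a, b, _, _, hab, hj⟩ := hne
      have huniq : ∀ a' b' : ℤ, (r':ℤ) * a' - q' * b' = p.1 → (a' - a0) / (q':ℤ) = p.2 →
          a' = a ∧ b' = b := by
        intro a' b' h1 h2
        have h3 : (r':ℤ) * (a' - a) = q' * (b' - b) := by linarith
        have h4 : (q':ℤ) ∣ (a' - a) := by
          have : (q':ℤ) ∣ r' * (a' - a) := ⟨b' - b, h3⟩
          exact IsCoprime.dvd_of_dvd_mul_left (Nat.isCoprime_iff_coprime.mpr hco) this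
        have hq'Z : (0:ℤ) < q' := by exact_mod_cast hq'
        have h5 := Int.mul_ediv_add_emod (a' - a0) q'
        have h6 := Int.mul_ediv_add_emod (a - a0) q'
        have h7 := Int.emod_nonneg (a' - a0) hq'Z.ne'
        have h8 := Int.emod_nonneg (a - a0) hq'Z.ne'
        have h9 := Int.emod_lt_of_pos (a' - a0) hq'Z
        have h10 := Int.emod_lt_of_pos (a - a0) hq'Z
        rw [h2] at h5
        rw [hj] at h6
        have h11 : |a' - a| < q' := by
          rw [abs_lt]; constructor <;> linarith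
        have h12 : a' - a = 0 := Int.eq_zero_of_abs_lt_dvd h4 h11
        refine ⟨by linarith, ?_⟩
        rw [h12, mul_zero] at h3
        have h13 : b' - b = 0 := by
          rcases mul_eq_zero.mp h3.symm with h | h
          · exact absurd h hq'Z.ne'
          · exact h
        linarith
      rcases hρ with h | h
      · have hs : I p ⊆ {x : ℝ | |((g * q' : ℕ):ℝ) * x - a - y| < α} := by
          rintro x ⟨a', b', h1, h2, h3, h4⟩
          obtain ⟨e1, e2⟩ := huniq a' b' h3 h4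
          rw [e1] at h1
          exact h1
        refine (measure_mono hs).trans ((vol_interval y α (g * q') (by positivity) a).trans ?_)
        exact ENNReal.ofReal_le_ofReal (by linarith)
      · have hs : I p ⊆ {x : ℝ | |((g * r' : ℕ):ℝ) * x - b - y| < β} := by
          rintro x ⟨a', b', h1, h2, h3, h4⟩
          obtain ⟨e1, e2⟩ := huniq a' b' h3 h4
          rw [e2] at h2
          exact h2
        refine (measure_mono hs).trans ((vol_interval y β (g * r') (by positivity) b).trans ?_)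
        exact ENNReal.ofReal_le_ofReal (by linarith)
    · rw [Set.not_nonempty_iff_eq_empty] at hne
      rw [hne]
      simp
  calc volume (W1 y α β (g * q') (g * r')) ≤ volume (⋃ p ∈ T ×ˢ J, I p) := measure_mono hcover
    _ ≤ ∑ p ∈ T ×ˢ J, volume (I p) := measure_biUnion_finset_le _ _
    _ ≤ ∑ p ∈ T ×ˢ J, ENNReal.ofReal (2 * ρ) := Finset.sum_le_sum hI
    _ = ((T ×ˢ J).card : ℝ≥0∞) * ENNReal.ofReal (2 * ρ) := by
      rw [Finset.sum_const, nsmul_eq_mul]
    _ = ENNReal.ofReal (((T ×ˢ J).card : ℝ) * (2 * ρ)) := by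
      rw [ENNReal.ofReal_mul (p := ((T ×ˢ J).card : ℝ)) (Nat.cast_nonneg _),
        ENNReal.ofReal_natCast]
    _ ≤ ENNReal.ofReal ((4 * δ + 1) * (2 * g) * (2 * ρ)) := by
      apply ENNReal.ofReal_le_ofReal
      apply mul_le_mul_of_nonneg_right _ (by positivity)
      rw [Finset.card_product]
      push_cast
      have hTc : (T.card : ℝ) ≤ 4 * δ + 1 := card_Icc_ceil_floor c δ hδ0
      have hJc : (J.card : ℝ) ≤ 2 * g := by
        rw [hJ, Int.card_Icc]
        have h1 : (1:ℝ) ≤ g := by exact_mod_cast hg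
        have h2 : (((g:ℤ) + 1 - 0).toNat : ℝ) = (g:ℝ) + 1 := by
          have : ((((g:ℤ) + 1 - 0).toNat : ℕ) : ℤ) = g + 1 := by
            rw [Int.toNat_of_nonneg (by omega)]; ring
          exact_mod_cast this
        rw [h2]; linarith
      exact mul_le_mul hTc hJc (Nat.cast_nonneg _) (by linarith)

/-- Two-dimensional approximation set with witnesses chosen independently. -/
def E2 (y : ℝ × ℝ) (t : ℝ) (q : ℕ) : Set (ℝ × ℝ) :=
  {x : ℝ × ℝ | (∃ a : ℤ, |(q:ℝ) * x.1 - a - y.1| < t) ∧ (∃ a : ℤ, |(q:ℝ) * x.2 - a - y.2| < t)}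

theorem E2_overlap_sub (y : ℝ × ℝ) (α β : ℝ) (q r : ℕ) :
    E2 y α q ∩ E2 y β r ∩ Set.Icc (0 : ℝ × ℝ) 1 ⊆ W1 y.1 α β q r ×ˢ W1 y.2 α β q r := by
  rintro x ⟨⟨⟨h1, h2⟩, h3, h4⟩, h5, h6⟩
  exact ⟨⟨⟨h5.1, h6.1⟩, h1, h3⟩, ⟨⟨h5.2, h6.2⟩, h2, h4⟩⟩

theorem E2_overlap_vol (y : ℝ × ℝ) (α β B : ℝ) (q r : ℕ) (hB : 0 ≤ B)
    (h1 : volume (W1 y.1 α β q r) ≤ ENNReal.ofReal B)
    (h2 : volume (W1 y.2 α β q r) ≤ ENNReal.ofReal B) :
    volume (E2 y α q ∩ E2 y β r ∩ Set.Icc (0 : ℝ × ℝ) 1) ≤ ENNReal.ofReal (B ^ 2) := by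
  refine (measure_mono (E2_overlap_sub y α β q r)).trans ?_
  rw [Measure.volume_eq_prod, Measure.prod_prod, sq, ENNReal.ofReal_mul hB]
  exact mul_le_mul' h1 h2

/-- Far regime. -/
theorem far_overlap (y : ℝ × ℝ) (α β : ℝ) (hα0 : 0 ≤ α) (hα : α ≤ 1 / 4) (hβ0 : 0 ≤ β)
    (g q' r' : ℕ) (hg : 0 < g) (hq' : 0 < q') (hr' : 0 < r') (hco : Nat.Coprime q' r')
    (hfar : 1 / 8 ≤ r' * α ∨ 1 / 8 ≤ q' * β) :
    volume (E2 y α (g * q') ∩ E2 y β (g * r') ∩ Set.Icc (0 : ℝ × ℝ) 1)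
      ≤ ENNReal.ofReal (2304 * α ^ 2 * β ^ 2) := by
  have hq'R : (0:ℝ) < q' := by exact_mod_cast hq'
  have hr'R : (0:ℝ) < r' := by exact_mod_cast hr'
  have hgR : (0:ℝ) < g := by exact_mod_cast hg
  have key : ∀ z : ℝ, volume (W1 z α β (g * q') (g * r')) ≤ ENNReal.ofReal (48 * α * β) := by
    intro z
    rcases le_total ((q':ℝ) * β) (r' * α) with h | h
    · have hδ : 1 / 8 ≤ r' * α := by
        rcases hfar with h' | h'
        · exact h'
        · exact h'.trans h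
      refine (overlap1 z α β (r' * α) (β / (g * r')) hα0 hα hβ0 g q' r' hg hq' hr' hco le_rfl h
        (Or.inr (by push_cast; exact le_rfl))).trans (ENNReal.ofReal_le_ofReal ?_)
      have h1 : (4 * (r' * α) + 1) ≤ 12 * (r' * α) := by linarith
      calc (4 * (r' * α) + 1) * (2 * g) * (2 * (β / (g * r')))
          ≤ 12 * (r' * α) * (2 * g) * (2 * (β / (g * r'))) := by
            apply mul_le_mul_of_nonneg_right _ (by positivity)
            apply mul_le_mul_of_nonneg_right h1 (by positivity)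
        _ = 48 * α * β := by field_simp; ring
    · have hδ : 1 / 8 ≤ q' * β := by
        rcases hfar with h' | h'
        · exact h'.trans h
        · exact h'
      refine (overlap1 z α β (q' * β) (α / (g * q')) hα0 hα hβ0 g q' r' hg hq' hr' hco h le_rfl
        (Or.inl (by push_cast; exact le_rfl))).trans (ENNReal.ofReal_le_ofReal ?_)
      have h1 : (4 * (q' * β) + 1) ≤ 12 * (q' * β) := by linarith
      calc (4 * (q' * β) + 1) * (2 * g) * (2 * (α / (g * q')))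
          ≤ 12 * (q' * β) * (2 * g) * (2 * (α / (g * q'))) := by
            apply mul_le_mul_of_nonneg_right _ (by positivity)
            apply mul_le_mul_of_nonneg_right h1 (by positivity)
        _ = 48 * α * β := by field_simp; ring
  refine (E2_overlap_vol y α β _ _ _ (by positivity) (key _) (key _)).trans ?_
  apply ENNReal.ofReal_le_ofReal
  nlinarith

/-- Near regime. -/
theorem near_overlap (y : ℝ × ℝ) (α β : ℝ) (hα0 : 0 ≤ α) (hα : α ≤ 1 / 4) (hβ0 : 0 ≤ β)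
    (g q' r' : ℕ) (hg : 0 < g) (hq' : 0 < q') (hr' : 0 < r') (hco : Nat.Coprime q' r')
    (h1 : r' * α ≤ 1 / 8) (h2 : q' * β ≤ 1 / 8) :
    volume (E2 y α (g * q') ∩ E2 y β (g * r') ∩ Set.Icc (0 : ℝ × ℝ) 1)
      ≤ ENNReal.ofReal (36 * α ^ 2 / q' ^ 2) := by
  have hq'R : (0:ℝ) < q' := by exact_mod_cast hq'
  have hr'R : (0:ℝ) < r' := by exact_mod_cast hr'
  have hgR : (0:ℝ) < g := by exact_mod_cast hg
  have key : ∀ z : ℝ, volume (W1 z α β (g * q') (g * r')) ≤ ENNReal.ofReal (6 * α / q') := by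
    intro z
    refine (overlap1 z α β (1 / 8) (α / (g * q')) hα0 hα hβ0 g q' r' hg hq' hr' hco h1 h2
        (Or.inl (by push_cast; exact le_rfl))).trans (ENNReal.ofReal_le_ofReal ?_)
    apply le_of_eq
    field_simp
    ring
  refine (E2_overlap_vol y α β _ _ _ (by positivity) (key _) (key _)).trans ?_
  apply ENNReal.ofReal_le_ofReal
  apply le_of_eq
  field_simp
  ring

end Pool.Agent.Y668.KH
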