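import Pool.Agent.Y668.KH1
import Pool.Agent.Y668.KH2

set_option autoImplicit false

namespace Pool.Agent.Y668.KH

open MeasureTheory

/-- `v d`, `u1 d`, `u2 d` describe a reduced fraction `v d / d` whose multiple of `y` is closest
to the integers among all reduced fractions with denominator `d`. -/
def IsDom (y : ℝ × ℝ) (v : ℕ → ℕ) (u1 u2 : ℕ → ℤ) : Prop :=
  ∀ d : ℕ, 2 ≤ d → 1 ≤ v d ∧ v d < d ∧ Nat.Coprime (v d) d ∧
    ∀ (n : ℕ) (k1 k2 : ℤ) (T : ℝ), n < d → Nat.Coprime n d →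
      |(n:ℝ) * y.1 - k1| < T → |(n:ℝ) * y.2 - k2| < T →
      |(v d:ℝ) * y.1 - u1 d| < T ∧ |(v d:ℝ) * y.2 - u2 d| < T

theorem exists_dom (y : ℝ × ℝ) : ∃ (v : ℕ → ℕ) (u1 u2 : ℕ → ℤ), IsDom y v u1 u2 := by
  have h : ∀ d : ℕ, ∃ (v : ℕ) (u1 u2 : ℤ), 2 ≤ d → (1 ≤ v ∧ v < d ∧ Nat.Coprime v d ∧
    ∀ (n : ℕ) (k1 k2 : ℤ) (T : ℝ), n < d → Nat.Coprime n d →
      |(n:ℝ) * y.1 - k1| < T → |(n:ℝ) * y.2 - k2| < T →
      |(v:ℝ) * y.1 - u1| < T ∧ |(v:ℝ) * y.2 - u2| < T) := by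
    intro d
    by_cases hd : 2 ≤ d
    · have hne : ((Finset.range d).filter (fun n => Nat.Coprime n d)).Nonempty :=
        ⟨1, by simp; omega⟩
      obtain ⟨v, hv, hmin⟩ := Finset.exists_min_image _
        (fun n : ℕ => max |(n:ℝ) * y.1 - round ((n:ℝ) * y.1)| |(n:ℝ) * y.2 - round ((n:ℝ) * y.2)|)
        hne
      rw [Finset.mem_filter, Finset.mem_range] at hv
      refine ⟨v, round ((v:ℝ) * y.1), round ((v:ℝ) * y.2), fun _ => ⟨?_, hv.1, hv.2, ?_⟩⟩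
      · rcases Nat.eq_zero_or_pos v with h0 | h0
        · rw [h0] at hv
          have := hv.2
          rw [Nat.coprime_zero_left] at this
          omega
        · exact h0
      · intro n k1 k2 T hn hco h1 h2
        have h3 := hmin n (by rw [Finset.mem_filter, Finset.mem_range]; exact ⟨hn, hco⟩)
        have h4 : max |(n:ℝ) * y.1 - round ((n:ℝ) * y.1)| |(n:ℝ) * y.2 - round ((n:ℝ) * y.2)| < T :=
          max_lt ((round_le _ _).trans_lt h1) ((round_le _ _).trans_lt h2)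
        have h5 := h3.trans_lt h4
        exact ⟨(le_max_left _ _).trans_lt h5, (le_max_right _ _).trans_lt h5⟩
    · exact ⟨0, 0, 0, fun h => absurd h hd⟩
  choose v u1 u2 h using h
  exact ⟨v, u1, u2, h⟩

/-- The approximation set with good witnesses. -/
def EG (y : ℝ × ℝ) (v : ℕ → ℕ) (u1 u2 : ℕ → ℤ) (t : ℝ) (q : ℕ) : Set (ℝ × ℝ) :=
  {x : ℝ × ℝ | ∃ a1 a2 : ℤ, |(q:ℝ) * x.1 - a1 - y.1| < t ∧ |(q:ℝ) * x.2 - a2 - y.2| < t ∧
    ∀ d : ℕ, 2 ≤ d → d ∣ q → ¬ ((d:ℤ) ∣ v d * a1 + u1 d ∧ (d:ℤ) ∣ v d * a2 + u2 d)}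

theorem EG_sub_E2 (y : ℝ × ℝ) (v : ℕ → ℕ) (u1 u2 : ℕ → ℤ) (t : ℝ) (q : ℕ) :
    EG y v u1 u2 t q ⊆ E2 y t q := by
  rintro x ⟨a1, a2, h1, h2, _⟩
  exact ⟨⟨a1, h1⟩, ⟨a2, h2⟩⟩

/-- The near condition. -/
def NC (y : ℝ × ℝ) (v : ℕ → ℕ) (u1 u2 : ℕ → ℤ) (d : ℕ) (T : ℝ) (n : ℕ) : Prop :=
  ∃ k1 k2 : ℤ, |(n:ℝ) * y.1 - k1| < T ∧ |(n:ℝ) * y.2 - k2| < T ∧
    |(v d:ℝ) * y.1 - u1 d| < T ∧ |(v d:ℝ) * y.2 - u2 d| < T ∧
    ¬ ((n:ℤ) * u1 d = v d * k1 ∧ (n:ℤ) * u2 d = v d * k2)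

theorem near_point (y : ℝ × ℝ) (v : ℕ → ℕ) (u1 u2 : ℕ → ℤ) (hdom : IsDom y v u1 u2)
    (α β T : ℝ) (g q' r' : ℕ) (hr' : 0 < r') (hlt : r' < q')
    (hco : Nat.Coprime q' r') (hT : r' * α + q' * β ≤ T) (x : ℝ × ℝ)
    (hx : x ∈ EG y v u1 u2 α (g * q')) (hx' : x ∈ E2 y β (g * r')) :
    NC y v u1 u2 q' T (q' - r') := by
  have hr'R : (0:ℝ) < r' := by exact_mod_cast hr'
  have hq'R : (0:ℝ) < q' := by exact_mod_cast (by omega : 0 < q')
  obtain ⟨a1, a2, h1, h2, hgood⟩ := hx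
  obtain ⟨⟨b1, h3⟩, ⟨b2, h4⟩⟩ := hx'
  have key : ∀ (z w : ℝ) (a b : ℤ), |((g * q' : ℕ):ℝ) * z - a - w| < α →
      |((g * r' : ℕ):ℝ) * z - b - w| < β →
      |((q' - r' : ℕ):ℝ) * w - ((r' * a - q' * b : ℤ) : ℝ)| < T := by
    intro z w a b h5 h6
    rw [Nat.cast_sub hlt.le]
    push_cast at h5 h6 ⊢
    have e : ((q':ℝ) - r') * w - (r' * a - q' * b)
        = r' * (g * q' * z - a - w) - q' * (g * r' * z - b - w) := by ring
    rw [e]
    have h7 := abs_sub ((r':ℝ) * (g * q' * z - a - w)) (q' * (g * r' * z - b - w))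
    rw [abs_mul, abs_mul, abs_of_pos hr'R, abs_of_pos hq'R] at h7
    have h8 := mul_lt_mul_of_pos_left h5 hr'R
    have h9 := mul_lt_mul_of_pos_left h6 hq'R
    linarith
  have hk1 := key x.1 y.1 a1 b1 h1 h3
  have hk2 := key x.2 y.2 a2 b2 h2 h4
  have hco' : Nat.Coprime (q' - r') q' := by
    rw [Nat.coprime_comm]
    exact (Nat.coprime_self_sub_right hlt.le).mpr hco
  obtain ⟨hv1, hv2, hv3, hmin⟩ := hdom q' (by omega)
  obtain ⟨hm1, hm2⟩ := hmin (q' - r') _ _ T (by omega) hco' hk1 hk2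
  refine ⟨_, _, hk1, hk2, hm1, hm2, ?_⟩
  rintro ⟨e1, e2⟩
  apply hgood q' (by omega) (Dvd.intro_left g rfl)
  have hcoZ : IsCoprime (q':ℤ) ((q' - r' : ℕ) : ℤ) := by
    rw [Nat.isCoprime_iff_coprime]; exact hco'.symm
  have main : ∀ (u a b : ℤ), ((q' - r' : ℕ):ℤ) * u = v q' * (r' * a - q' * b) →
      (q':ℤ) ∣ v q' * a + u := by
    intro u a b e
    have e3 : ((q' - r' : ℕ):ℤ) = (q':ℤ) - r' := by rw [Nat.cast_sub hlt.le]
    have : (q':ℤ) ∣ ((q' - r' : ℕ):ℤ) * (v q' * a + u) := by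
      refine ⟨v q' * (a - b), ?_⟩
      rw [mul_add, e, e3]
      ring
    exact hcoZ.dvd_of_dvd_mul_left this
  exact ⟨main _ _ _ e1, main _ _ _ e2⟩

/-- Few `n` satisfy the near condition. -/
theorem card_NC (y : ℝ × ℝ) (v : ℕ → ℕ) (u1 u2 : ℕ → ℤ) (hdom : IsDom y v u1 u2)
    (d : ℕ) (hd : 2 ≤ d) (T : ℝ) (hT : 0 < T) (S : Finset ℕ)
    (hS : ∀ n ∈ S, 1 ≤ n ∧ n ≤ d ∧ NC y v u1 u2 d T n) : (S.card : ℝ) ≤ 14 * d * T := by
  obtain ⟨hv1, hv2, _, _⟩ := hdom d hd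
  rcases S.eq_empty_or_nonempty with rfl | ⟨n0, hn0⟩
  · simp; positivity
  · obtain ⟨h1, h2, k1, k2, h3, h4, h5, h6, h7⟩ := hS n0 hn0
    rw [not_and_or] at h7
    rcases h7 with h7 | h7
    · refine cnt1 y.1 T hT d S ?_ n0 (v d) k1 (u1 d) h1 h2 hv2.le h3 h5 h7
      intro n hn
      obtain ⟨g1, g2, l1, l2, g3, _⟩ := hS n hn
      exact ⟨g1, g2, l1, g3⟩
    · refine cnt1 y.2 T hT d S ?_ n0 (v d) k2 (u2 d) h1 h2 hv2.le h4 h6 h7
      intro n hn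
      obtain ⟨g1, g2, l1, l2, _, g4, _⟩ := hS n hn
      exact ⟨g1, g2, l2, g4⟩

/-- Sum over near pairs with small first entry. -/
theorem sum_P2 (y : ℝ × ℝ) (v : ℕ → ℕ) (u1 u2 : ℕ → ℤ) (hdom : IsDom y v u1 u2)
    (f : ℝ) (hf : 0 < f) (P : Finset (ℕ × ℕ))
    (hP : ∀ p ∈ P, 1 ≤ p.2 ∧ p.2 < p.1 ∧ p.1 * f < 1 / 8 ∧
      NC y v u1 u2 p.1 (2 * p.1 * f) (p.1 - p.2)) :
    ∑ p ∈ P, (1:ℝ) / p.1 ^ 2 ≤ 7 / 2 := by
  classical
  rw [← Finset.sum_fiberwise_of_maps_to (t := P.image Prod.fst) (g := Prod.fst)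
    (fun p hp => Finset.mem_image_of_mem _ hp)]
  have hfib : ∀ d ∈ P.image Prod.fst,
      ∑ p ∈ P with p.1 = d, (1:ℝ) / p.1 ^ 2 ≤ 28 * f := by
    intro d hd
    obtain ⟨p0, hp0, hp0d⟩ := Finset.mem_image.mp hd
    have hd2 : 2 ≤ d := by
      obtain ⟨h1, h2, _⟩ := hP p0 hp0
      omega
    have hdR : (0:ℝ) < d := by exact_mod_cast (by omega : 0 < d)
    have e : ∑ p ∈ P with p.1 = d, (1:ℝ) / p.1 ^ 2
        = ((P.filter (fun p => p.1 = d)).card : ℝ) * (1 / d ^ 2) := by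
      rw [← nsmul_eq_mul, ← Finset.sum_const]
      apply Finset.sum_congr rfl
      intro p hp
      rw [(Finset.mem_filter.mp hp).2]
    have hc : ((P.filter (fun p => p.1 = d)).card : ℝ) ≤ 14 * d * (2 * d * f) := by
      have hinj : Set.InjOn (fun p : ℕ × ℕ => d - p.2) (P.filter (fun p => p.1 = d) : Set (ℕ × ℕ)) := by
        intro p hp p' hp' hpp
        rw [Finset.mem_coe, Finset.mem_filter] at hp hp'
        obtain ⟨_, h2, _⟩ := hP p hp.1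
        obtain ⟨_, h2', _⟩ := hP p' hp'.1
        rw [hp.2] at h2
        rw [hp'.2] at h2'
        simp only at hpp
        apply Prod.ext
        · rw [hp.2, hp'.2]
        · omega
      rw [← Finset.card_image_of_injOn hinj]
      apply card_NC y v u1 u2 hdom d hd2 _ (by positivity)
      intro n hn
      obtain ⟨p, hp, hpn⟩ := Finset.mem_image.mp hn
      rw [Finset.mem_filter] at hp
      obtain ⟨h1, h2, h3, h4⟩ := hP p hp.1
      rw [hp.2] at h2 h4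
      rw [hpn] at h4
      exact ⟨by omega, by omega, h4⟩
    rw [e]
    calc ((P.filter (fun p => p.1 = d)).card : ℝ) * (1 / d ^ 2)
        ≤ 14 * d * (2 * d * f) * (1 / d ^ 2) := mul_le_mul_of_nonneg_right hc (by positivity)
      _ = 28 * f := by field_simp; ring
  calc ∑ d ∈ P.image Prod.fst, ∑ p ∈ P with p.1 = d, (1:ℝ) / p.1 ^ 2
      ≤ ∑ d ∈ P.image Prod.fst, 28 * f := Finset.sum_le_sum hfib
    _ = ((P.image Prod.fst).card : ℝ) * (28 * f) := by rw [Finset.sum_const, nsmul_eq_mul]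
    _ ≤ (1 / (8 * f)) * (28 * f) := by
      apply mul_le_mul_of_nonneg_right _ (by positivity)
      have hsub : P.image Prod.fst ⊆ Finset.Icc 1 ⌊1 / (8 * f)⌋₊ := by
        intro d hd
        obtain ⟨p, hp, hpd⟩ := Finset.mem_image.mp hd
        obtain ⟨h1, h2, h3, _⟩ := hP p hp
        rw [hpd] at h2 h3
        rw [Finset.mem_Icc]
        refine ⟨by omega, Nat.le_floor ?_⟩
        rw [le_div_iff₀ (by positivity)]
        linarith
      have hc := Finset.card_le_card hsub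
      rw [Nat.card_Icc, Nat.add_sub_cancel] at hc
      calc ((P.image Prod.fst).card : ℝ) ≤ (⌊1 / (8 * f)⌋₊ : ℝ) := by exact_mod_cast hc
        _ ≤ 1 / (8 * f) := Nat.floor_le (by positivity)
    _ = 7 / 2 := by field_simp; norm_num

/-- Sum over near pairs with large first entry. -/
theorem sum_P1 (f : ℝ) (hf : 0 < f) (hf8 : f ≤ 1 / 8) (P : Finset (ℕ × ℕ))
    (hP : ∀ p ∈ P, 1 ≤ p.2 ∧ 1 / 8 ≤ p.1 * f ∧ p.2 * f < 1 / 8) :
    ∑ p ∈ P, (1:ℝ) / p.1 ^ 2 ≤ 2 := by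
  classical
  set X : ℝ := 1 / (8 * f) with hX
  have hX1 : 1 ≤ X := by
    rw [hX, le_div_iff₀ (by positivity)]; linarith
  have hX0 : 0 < X := by linarith
  rw [← Finset.sum_fiberwise_of_maps_to (t := P.image Prod.fst) (g := Prod.fst)
    (fun p hp => Finset.mem_image_of_mem _ hp)]
  have hfib : ∀ d ∈ P.image Prod.fst,
      ∑ p ∈ P with p.1 = d, (1:ℝ) / p.1 ^ 2 ≤ X * ((d:ℝ) ^ 2)⁻¹ := by
    intro d hd
    have e : ∑ p ∈ P with p.1 = d, (1:ℝ) / p.1 ^ 2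
        = ((P.filter (fun p => p.1 = d)).card : ℝ) * ((d:ℝ) ^ 2)⁻¹ := by
      rw [← nsmul_eq_mul, ← Finset.sum_const]
      apply Finset.sum_congr rfl
      intro p hp
      rw [(Finset.mem_filter.mp hp).2, one_div]
    rw [e]
    apply mul_le_mul_of_nonneg_right _ (by positivity)
    have hsub : ((P.filter (fun p => p.1 = d)).image Prod.snd) ⊆ Finset.Icc 1 ⌊X⌋₊ := by
      intro s hs
      obtain ⟨p, hp, hps⟩ := Finset.mem_image.mp hs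
      obtain ⟨h1, h2, h3⟩ := hP p (Finset.mem_filter.mp hp).1
      rw [hps] at h1 h3
      rw [Finset.mem_Icc]
      refine ⟨h1, Nat.le_floor ?_⟩
      rw [hX, le_div_iff₀ (by positivity)]
      linarith
    have hinj : Set.InjOn Prod.snd (P.filter (fun p => p.1 = d) : Set (ℕ × ℕ)) := by
      intro p hp p' hp' hpp
      rw [Finset.mem_coe, Finset.mem_filter] at hp hp'
      exact Prod.ext (by rw [hp.2, hp'.2]) hpp
    have hc := Finset.card_le_card hsub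
    rw [Finset.card_image_of_injOn hinj, Nat.card_Icc, Nat.add_sub_cancel] at hc
    calc ((P.filter (fun p => p.1 = d)).card : ℝ) ≤ (⌊X⌋₊ : ℝ) := by exact_mod_cast hc
      _ ≤ X := Nat.floor_le hX0.le
  have hm1 : 1 ≤ ⌈X⌉₊ := Nat.one_le_ceil_iff.mpr hX0
  obtain ⟨M, hM⟩ : ∃ M : ℕ, ∀ d ∈ P.image Prod.fst, d < M := by
    refine ⟨(P.image Prod.fst).sup id + 1, fun d hd => ?_⟩
    exact Nat.lt_succ_of_le (Finset.le_sup (f := id) hd)
  calc ∑ d ∈ P.image Prod.fst, ∑ p ∈ P with p.1 = d, (1:ℝ) / p.1 ^ 2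
      ≤ ∑ d ∈ P.image Prod.fst, X * ((d:ℝ) ^ 2)⁻¹ := Finset.sum_le_sum hfib
    _ = X * ∑ d ∈ P.image Prod.fst, ((d:ℝ) ^ 2)⁻¹ := by rw [Finset.mul_sum]
    _ ≤ X * ∑ d ∈ Finset.Ioo (⌈X⌉₊ - 1) M, ((d:ℝ) ^ 2)⁻¹ := by
      apply mul_le_mul_of_nonneg_left _ hX0.le
      apply Finset.sum_le_sum_of_subset_of_nonneg
      · intro d hd
        rw [Finset.mem_Ioo]
        refine ⟨?_, hM d hd⟩
        obtain ⟨p, hp, hpd⟩ := Finset.mem_image.mp hd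
        obtain ⟨h1, h2, h3⟩ := hP p hp
        rw [hpd] at h2
        have : ⌈X⌉₊ ≤ d := by
          rw [Nat.ceil_le, hX, div_le_iff₀ (by positivity)]
          linarith
        omega
      · intro d _ _
        positivity
    _ ≤ X * (2 / (((⌈X⌉₊ - 1 : ℕ) : ℝ) + 1)) :=
      mul_le_mul_of_nonneg_left (sum_Ioo_inv_sq_le _ _) hX0.le
    _ ≤ X * (2 / X) := by
      apply mul_le_mul_of_nonneg_left _ hX0.le
      apply div_le_div_of_nonneg_left (by norm_num) hX0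
      rw [Nat.cast_sub hm1]
      have := Nat.le_ceil X
      push_cast
      linarith
    _ = 2 := by field_simp

end Pool.Agent.Y668.KH
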