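import Pool.Agent.Y668.KH3

set_option autoImplicit false

namespace Pool.Agent.Y668.KH

open MeasureTheory

section

variable (y : ℝ × ℝ) (v : ℕ → ℕ) (u1 u2 : ℕ → ℤ) (ψ : ℕ → ℝ)

/-- Near pairs. -/
def near (q r : ℕ) : Prop :=
  r < q ∧ ((r / q.gcd r : ℕ) : ℝ) * ψ q < 1 / 8 ∧ ((q / q.gcd r : ℕ) : ℝ) * ψ r < 1 / 8 ∧
    (EG y v u1 u2 (ψ q) q ∩ EG y v u1 u2 (ψ r) r).Nonempty

open Classical in
/-- Weight of near pairs. -/
noncomputable def cc (q r : ℕ) : ℝ :=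
  if near y v u1 u2 ψ q r then 36 * (max (ψ q) (ψ r)) ^ 2 / ((q / q.gcd r : ℕ) : ℝ) ^ 2 else 0

theorem cc_nonneg (q r : ℕ) : 0 ≤ cc y v u1 u2 ψ q r := by
  unfold cc
  split_ifs
  · positivity
  · exact le_rfl

theorem pos_of_near {q r : ℕ} (hψ : ∀ q, 0 ≤ ψ q) (h : near y v u1 u2 ψ q r) :
    0 < ψ q ∧ 0 < ψ r := by
  obtain ⟨_, _, _, x, ⟨a1, a2, h1, _⟩, ⟨b1, b2, h2, _⟩⟩ := h
  exact ⟨(abs_nonneg _).trans_lt h1, (abs_nonneg _).trans_lt h2⟩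

theorem pair_lt (hψ : ∀ q, 0 ≤ ψ q) (hψ8 : ∀ q, ψ q ≤ 1 / 8) (q r : ℕ) (hr : 0 < r) (hrq : r < q) :
    (volume (EG y v u1 u2 (ψ q) q ∩ EG y v u1 u2 (ψ r) r ∩ Set.Icc (0 : ℝ × ℝ) 1)).toReal
      ≤ 2304 * (ψ q) ^ 2 * (ψ r) ^ 2 + cc y v u1 u2 ψ q r := by
  have hq : 0 < q := by omega
  have hg : 0 < q.gcd r := Nat.gcd_pos_of_pos_left _ hq
  have hc0 := cc_nonneg y v u1 u2 ψ q r
  have hqe : q.gcd r * (q / q.gcd r) = q := Nat.mul_div_cancel' (Nat.gcd_dvd_left q r)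
  have hre : q.gcd r * (r / q.gcd r) = r := Nat.mul_div_cancel' (Nat.gcd_dvd_right q r)
  have hco : Nat.Coprime (q / q.gcd r) (r / q.gcd r) := Nat.coprime_div_gcd_div_gcd hg
  have hq' : 0 < q / q.gcd r := Nat.div_pos (Nat.gcd_le_left _ hq) hg
  have hr' : 0 < r / q.gcd r := Nat.div_pos (Nat.gcd_le_right _ hr) hg
  have hsub : EG y v u1 u2 (ψ q) q ∩ EG y v u1 u2 (ψ r) r ∩ Set.Icc (0 : ℝ × ℝ) 1 ⊆
      E2 y (ψ q) (q.gcd r * (q / q.gcd r)) ∩ E2 y (ψ r) (q.gcd r * (r / q.gcd r)) ∩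
        Set.Icc (0 : ℝ × ℝ) 1 := by
    rw [hqe, hre]
    rintro x ⟨⟨h1, h2⟩, h3⟩
    exact ⟨⟨EG_sub_E2 _ _ _ _ _ _ h1, EG_sub_E2 _ _ _ _ _ _ h2⟩, h3⟩
  by_cases hfar : 1 / 8 ≤ ((r / q.gcd r : ℕ) : ℝ) * ψ q ∨ 1 / 8 ≤ ((q / q.gcd r : ℕ) : ℝ) * ψ r
  · have h1 := far_overlap y (ψ q) (ψ r) (hψ q) (by linarith [hψ8 q]) (hψ r) (q.gcd r)
      (q / q.gcd r) (r / q.gcd r) hg hq' hr' hco hfar
    have h2 := ENNReal.toReal_le_of_le_ofReal (by positivity) ((measure_mono hsub).trans h1)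
    linarith
  · push Not at hfar
    by_cases hne : (EG y v u1 u2 (ψ q) q ∩ EG y v u1 u2 (ψ r) r).Nonempty
    · have hnear : near y v u1 u2 ψ q r := ⟨hrq, hfar.1, hfar.2, hne⟩
      have h1 := near_overlap y (ψ q) (ψ r) (hψ q) (by linarith [hψ8 q]) (hψ r) (q.gcd r)
        (q / q.gcd r) (r / q.gcd r) hg hq' hr' hco hfar.1.le hfar.2.le
      have h2 := ENNReal.toReal_le_of_le_ofReal (by positivity) ((measure_mono hsub).trans h1)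
      have h3 : 36 * ψ q ^ 2 / ((q / q.gcd r : ℕ) : ℝ) ^ 2 ≤ cc y v u1 u2 ψ q r := by
        unfold cc
        rw [if_pos hnear]
        apply div_le_div_of_nonneg_right _ (by positivity)
        have := pow_le_pow_left₀ (hψ q) (le_max_left (ψ q) (ψ r)) 2
        linarith
      have h4 : 0 ≤ 2304 * (ψ q) ^ 2 * (ψ r) ^ 2 := by positivity
      linarith
    · rw [Set.not_nonempty_iff_eq_empty] at hne
      rw [hne, Set.empty_inter, measure_empty, ENNReal.toReal_zero]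
      positivity

theorem pair_diag (hψ : ∀ q, 0 ≤ ψ q) (hψ8 : ∀ q, ψ q ≤ 1 / 8) (q : ℕ) (hq : 0 < q) :
    (volume (EG y v u1 u2 (ψ q) q ∩ EG y v u1 u2 (ψ q) q ∩ Set.Icc (0 : ℝ × ℝ) 1)).toReal
      ≤ 36 * (ψ q) ^ 2 := by
  have hsub : EG y v u1 u2 (ψ q) q ∩ EG y v u1 u2 (ψ q) q ∩ Set.Icc (0 : ℝ × ℝ) 1 ⊆
      E2 y (ψ q) (q * 1) ∩ E2 y (ψ q) (q * 1) ∩ Set.Icc (0 : ℝ × ℝ) 1 := by
    rw [mul_one]
    rintro x ⟨⟨h1, h2⟩, h3⟩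
    exact ⟨⟨EG_sub_E2 _ _ _ _ _ _ h1, EG_sub_E2 _ _ _ _ _ _ h2⟩, h3⟩
  have h1 := near_overlap y (ψ q) (ψ q) (hψ q) (by linarith [hψ8 q]) (hψ q) q 1 1 hq
    one_pos one_pos (Nat.coprime_one_left 1) (by push_cast; linarith [hψ8 q])
    (by push_cast; linarith [hψ8 q])
  have h2 := ENNReal.toReal_le_of_le_ofReal (by positivity) ((measure_mono hsub).trans h1)
  refine h2.trans (le_of_eq ?_)
  push_cast
  ring

theorem near_NC (hdom : IsDom y v u1 u2) (f : ℝ) (q r : ℕ) (hr : 0 < r)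
    (h : near y v u1 u2 ψ q r) (h1 : ψ q ≤ f) (h2 : ψ r ≤ f) (hψ : ∀ q, 0 ≤ ψ q) :
    NC y v u1 u2 (q / q.gcd r) (2 * ((q / q.gcd r : ℕ) : ℝ) * f)
      (q / q.gcd r - r / q.gcd r) := by
  obtain ⟨hrq, _, _, x, hx1, hx2⟩ := h
  have hq : 0 < q := by omega
  have hg : 0 < q.gcd r := Nat.gcd_pos_of_pos_left _ hq
  have hqe : q.gcd r * (q / q.gcd r) = q := Nat.mul_div_cancel' (Nat.gcd_dvd_left q r)
  have hre : q.gcd r * (r / q.gcd r) = r := Nat.mul_div_cancel' (Nat.gcd_dvd_right q r)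
  have hco : Nat.Coprime (q / q.gcd r) (r / q.gcd r) := Nat.coprime_div_gcd_div_gcd hg
  have hr' : 0 < r / q.gcd r := Nat.div_pos (Nat.gcd_le_right _ hr) hg
  have hlt : r / q.gcd r < q / q.gcd r := by
    by_contra hcon
    push Not at hcon
    have := Nat.mul_le_mul_left (q.gcd r) hcon
    rw [hqe, hre] at this
    omega
  have hltR : ((r / q.gcd r : ℕ) : ℝ) ≤ ((q / q.gcd r : ℕ) : ℝ) := by exact_mod_cast hlt.le
  apply near_point y v u1 u2 hdom (ψ q) (ψ r) _ (q.gcd r) (q / q.gcd r) (r / q.gcd r) hr' hlt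
    hco _ x
  · rw [hqe]; exact hx1
  · rw [hre]; exact EG_sub_E2 _ _ _ _ _ _ hx2
  · have h3 : ((r / q.gcd r : ℕ) : ℝ) * ψ q ≤ ((q / q.gcd r : ℕ) : ℝ) * f :=
      mul_le_mul hltR h1 (hψ q) (by positivity)
    have h4 : ((q / q.gcd r : ℕ) : ℝ) * ψ r ≤ ((q / q.gcd r : ℕ) : ℝ) * f :=
      mul_le_mul_of_nonneg_left h2 (by positivity)
    linarith

theorem lt_div (q r : ℕ) (hr : 0 < r) (hrq : r < q) :
    1 ≤ r / q.gcd r ∧ r / q.gcd r < q / q.gcd r := by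
  have hq : 0 < q := by omega
  have hg : 0 < q.gcd r := Nat.gcd_pos_of_pos_left _ hq
  have hqe : q.gcd r * (q / q.gcd r) = q := Nat.mul_div_cancel' (Nat.gcd_dvd_left q r)
  have hre : q.gcd r * (r / q.gcd r) = r := Nat.mul_div_cancel' (Nat.gcd_dvd_right q r)
  refine ⟨Nat.div_pos (Nat.gcd_le_right _ hr) hg, ?_⟩
  by_contra hcon
  push Not at hcon
  have := Nat.mul_le_mul_left (q.gcd r) hcon
  rw [hqe, hre] at this
  omega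

theorem sumA (hdom : IsDom y v u1 u2) (hψ : ∀ q, 0 ≤ ψ q) (hψ8 : ∀ q, ψ q ≤ 1 / 8)
    (q : ℕ) (R : Finset ℕ) (hR : ∀ r ∈ R, 0 < r ∧ near y v u1 u2 ψ q r ∧ ψ r ≤ ψ q) :
    ∑ r ∈ R, (1:ℝ) / ((q / q.gcd r : ℕ) : ℝ) ^ 2 ≤ 11 / 2 := by
  classical
  rcases R.eq_empty_or_nonempty with rfl | ⟨r0, hr0⟩
  · simp; norm_num
  have hf : 0 < ψ q := (pos_of_near y v u1 u2 ψ hψ (hR r0 hr0).2.1).1
  have hq : 0 < q := by
    have := (hR r0 hr0).2.1.1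
    omega
  set F : ℕ → ℕ × ℕ := fun r => (q / q.gcd r, r / q.gcd r) with hF
  have hinj : Set.InjOn F (R : Set ℕ) := by
    intro r _ r' _ hrr
    simp only [hF, Prod.mk.injEq] at hrr
    obtain ⟨e1, e2⟩ := hrr
    have h1 : q.gcd r * (q / q.gcd r) = q := Nat.mul_div_cancel' (Nat.gcd_dvd_left q r)
    have h2 : q.gcd r' * (q / q.gcd r') = q := Nat.mul_div_cancel' (Nat.gcd_dvd_left q r')
    have h3 : q.gcd r * (r / q.gcd r) = r := Nat.mul_div_cancel' (Nat.gcd_dvd_right q r)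
    have h4 : q.gcd r' * (r' / q.gcd r') = r' := Nat.mul_div_cancel' (Nat.gcd_dvd_right q r')
    rw [← e1] at h2
    have h5 : 0 < q / q.gcd r := by
      rcases Nat.eq_zero_or_pos (q / q.gcd r) with h | h
      · rw [h, mul_zero] at h1; omega
      · exact h
    have h6 : q.gcd r = q.gcd r' := Nat.eq_of_mul_eq_mul_right h5 (h1.trans h2.symm)
    rw [← h3, ← h4, e2, h6]
  have hsum : ∑ r ∈ R, (1:ℝ) / ((q / q.gcd r : ℕ) : ℝ) ^ 2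
      = ∑ p ∈ R.image F, (1:ℝ) / (p.1 : ℝ) ^ 2 := by
    rw [Finset.sum_image hinj]
  rw [hsum, ← Finset.sum_filter_add_sum_filter_not (R.image F) (fun p => (p.1:ℝ) * ψ q < 1 / 8)]
  have hA : ∑ p ∈ (R.image F).filter (fun p => (p.1:ℝ) * ψ q < 1 / 8), (1:ℝ) / (p.1 : ℝ) ^ 2
      ≤ 7 / 2 := by
    apply sum_P2 y v u1 u2 hdom (ψ q) hf
    intro p hp
    rw [Finset.mem_filter, Finset.mem_image] at hp
    obtain ⟨⟨r, hr, rfl⟩, h2⟩ := hp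
    obtain ⟨h3, h4, h5⟩ := hR r hr
    obtain ⟨h6, h7⟩ := lt_div q r h3 h4.1
    exact ⟨h6, h7, h2, near_NC y v u1 u2 ψ hdom (ψ q) q r h3 h4 le_rfl h5 hψ⟩
  have hB : ∑ p ∈ (R.image F).filter (fun p => ¬ (p.1:ℝ) * ψ q < 1 / 8), (1:ℝ) / (p.1 : ℝ) ^ 2
      ≤ 2 := by
    apply sum_P1 (ψ q) hf (hψ8 q)
    intro p hp
    rw [Finset.mem_filter, Finset.mem_image] at hp
    obtain ⟨⟨r, hr, rfl⟩, h2⟩ := hp
    obtain ⟨h3, h4, h5⟩ := hR r hr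
    obtain ⟨h6, h7⟩ := lt_div q r h3 h4.1
    exact ⟨h6, not_lt.mp h2, h4.2.1⟩
  linarith

theorem sumB (hdom : IsDom y v u1 u2) (hψ : ∀ q, 0 ≤ ψ q)
    (r : ℕ) (hr : 0 < r) (R : Finset ℕ) (hR : ∀ q ∈ R, near y v u1 u2 ψ q r ∧ ψ q ≤ ψ r) :
    ∑ q ∈ R, (1:ℝ) / ((q / q.gcd r : ℕ) : ℝ) ^ 2 ≤ 7 / 2 := by
  classical
  rcases R.eq_empty_or_nonempty with rfl | ⟨q0, hq0⟩
  · simp; norm_num
  have hf : 0 < ψ r := (pos_of_near y v u1 u2 ψ hψ (hR q0 hq0).1).2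
  set F : ℕ → ℕ × ℕ := fun q => (q / q.gcd r, r / q.gcd r) with hF
  have hinj : Set.InjOn F (R : Set ℕ) := by
    intro q hq q' hq' hrr
    simp only [hF, Prod.mk.injEq] at hrr
    obtain ⟨e1, e2⟩ := hrr
    have h1 : q.gcd r * (q / q.gcd r) = q := Nat.mul_div_cancel' (Nat.gcd_dvd_left q r)
    have h2 : q'.gcd r * (q' / q'.gcd r) = q' := Nat.mul_div_cancel' (Nat.gcd_dvd_left q' r)
    have h3 : q.gcd r * (r / q.gcd r) = r := Nat.mul_div_cancel' (Nat.gcd_dvd_right q r)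
    have h4 : q'.gcd r * (r / q'.gcd r) = r := Nat.mul_div_cancel' (Nat.gcd_dvd_right q' r)
    rw [← e2] at h4
    have h5 : 0 < r / q.gcd r := by
      rcases Nat.eq_zero_or_pos (r / q.gcd r) with h | h
      · rw [h, mul_zero] at h3; omega
      · exact h
    have h6 : q.gcd r = q'.gcd r := Nat.eq_of_mul_eq_mul_right h5 (h3.trans h4.symm)
    rw [← h1, ← h2, e1, h6]
  have hsum : ∑ q ∈ R, (1:ℝ) / ((q / q.gcd r : ℕ) : ℝ) ^ 2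
      = ∑ p ∈ R.image F, (1:ℝ) / (p.1 : ℝ) ^ 2 := by
    rw [Finset.sum_image hinj]
  rw [hsum]
  apply sum_P2 y v u1 u2 hdom (ψ r) hf
  intro p hp
  rw [Finset.mem_image] at hp
  obtain ⟨q, hq, rfl⟩ := hp
  obtain ⟨h4, h5⟩ := hR q hq
  obtain ⟨h6, h7⟩ := lt_div q r hr h4.1
  exact ⟨h6, h7, h4.2.2.1, near_NC y v u1 u2 ψ hdom (ψ r) q r hr h4 h5 le_rfl hψ⟩

theorem sum_cc (hdom : IsDom y v u1 u2) (hψ : ∀ q, 0 ≤ ψ q) (hψ8 : ∀ q, ψ q ≤ 1 / 8)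
    (D : Finset ℕ) (hD : ∀ q ∈ D, 0 < q) :
    ∑ q ∈ D, ∑ r ∈ D, cc y v u1 u2 ψ q r ≤ 324 * ∑ q ∈ D, ψ q ^ 2 := by
  classical
  -- split according to which of the two values is larger
  have hsplit : ∀ q r : ℕ, cc y v u1 u2 ψ q r =
      (if near y v u1 u2 ψ q r ∧ ψ r ≤ ψ q then
        36 * ψ q ^ 2 * (1 / ((q / q.gcd r : ℕ) : ℝ) ^ 2) else 0) +
      (if near y v u1 u2 ψ q r ∧ ¬ ψ r ≤ ψ q then
        36 * ψ r ^ 2 * (1 / ((q / q.gcd r : ℕ) : ℝ) ^ 2) else 0) := by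
    intro q r
    unfold cc
    by_cases h1 : near y v u1 u2 ψ q r
    · by_cases h2 : ψ r ≤ ψ q
      · rw [if_pos h1, if_pos ⟨h1, h2⟩, if_neg (fun h => h.2 h2), max_eq_left h2]
        ring
      · rw [if_pos h1, if_neg (fun h => h2 h.2), if_pos ⟨h1, h2⟩,
          max_eq_right (not_le.mp h2).le]
        ring
    · rw [if_neg h1, if_neg (fun h => h1 h.1), if_neg (fun h => h1 h.1)]
      ring
  have e : ∑ q ∈ D, ∑ r ∈ D, cc y v u1 u2 ψ q r =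
      ∑ q ∈ D, ∑ r ∈ D, (if near y v u1 u2 ψ q r ∧ ψ r ≤ ψ q then
        36 * ψ q ^ 2 * (1 / ((q / q.gcd r : ℕ) : ℝ) ^ 2) else 0) +
      ∑ r ∈ D, ∑ q ∈ D, (if near y v u1 u2 ψ q r ∧ ¬ ψ r ≤ ψ q then
        36 * ψ r ^ 2 * (1 / ((q / q.gcd r : ℕ) : ℝ) ^ 2) else 0) := by
    rw [Finset.sum_comm (s := D) (t := D) (f := fun r q =>
      (if near y v u1 u2 ψ q r ∧ ¬ ψ r ≤ ψ q then
        36 * ψ r ^ 2 * (1 / ((q / q.gcd r : ℕ) : ℝ) ^ 2) else 0)), ← Finset.sum_add_distrib]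
    apply Finset.sum_congr rfl
    intro q _
    rw [← Finset.sum_add_distrib]
    apply Finset.sum_congr rfl
    intro r _
    exact hsplit q r
  rw [e]
  have hA : ∑ q ∈ D, ∑ r ∈ D, (if near y v u1 u2 ψ q r ∧ ψ r ≤ ψ q then
        36 * ψ q ^ 2 * (1 / ((q / q.gcd r : ℕ) : ℝ) ^ 2) else 0)
      ≤ ∑ q ∈ D, 198 * ψ q ^ 2 := by
    apply Finset.sum_le_sum
    intro q _
    rw [← Finset.sum_filter, ← Finset.mul_sum]
    have := sumA y v u1 u2 ψ hdom hψ hψ8 q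
      (D.filter (fun r => near y v u1 u2 ψ q r ∧ ψ r ≤ ψ q)) (by
        intro r hr
        rw [Finset.mem_filter] at hr
        exact ⟨hD r hr.1, hr.2⟩)
    nlinarith [sq_nonneg (ψ q)]
  have hB : ∑ r ∈ D, ∑ q ∈ D, (if near y v u1 u2 ψ q r ∧ ¬ ψ r ≤ ψ q then
        36 * ψ r ^ 2 * (1 / ((q / q.gcd r : ℕ) : ℝ) ^ 2) else 0)
      ≤ ∑ r ∈ D, 126 * ψ r ^ 2 := by
    apply Finset.sum_le_sum
    intro r hr
    rw [← Finset.sum_filter, ← Finset.mul_sum]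
    have := sumB y v u1 u2 ψ hdom hψ r (hD r hr)
      (D.filter (fun q => near y v u1 u2 ψ q r ∧ ¬ ψ r ≤ ψ q)) (by
        intro q hq
        rw [Finset.mem_filter] at hq
        exact ⟨hq.2.1, (not_le.mp hq.2.2).le⟩)
    nlinarith [sq_nonneg (ψ r)]
  rw [← Finset.mul_sum] at hA hB
  linarith

/-- The second-moment bound. -/
theorem second_moment (hdom : IsDom y v u1 u2) (hψ : ∀ q, 0 ≤ ψ q) (hψ8 : ∀ q, ψ q ≤ 1 / 8)
    (D : Finset ℕ) (hD : ∀ q ∈ D, 0 < q) :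
    ∑ q ∈ D, ∑ r ∈ D,
      (volume (EG y v u1 u2 (ψ q) q ∩ EG y v u1 u2 (ψ r) r ∩ Set.Icc (0 : ℝ × ℝ) 1)).toReal
      ≤ 684 * (∑ q ∈ D, ψ q ^ 2) + 2304 * (∑ q ∈ D, ψ q ^ 2) ^ 2 := by
  classical
  have hpt : ∀ q ∈ D, ∀ r ∈ D,
      (volume (EG y v u1 u2 (ψ q) q ∩ EG y v u1 u2 (ψ r) r ∩ Set.Icc (0 : ℝ × ℝ) 1)).toReal
      ≤ 2304 * (ψ q) ^ 2 * (ψ r) ^ 2 + cc y v u1 u2 ψ q r + cc y v u1 u2 ψ r q +
        (if r = q then 36 * ψ q ^ 2 else 0) := by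
    intro q hq r hr
    have h1 := cc_nonneg y v u1 u2 ψ q r
    have h2 := cc_nonneg y v u1 u2 ψ r q
    rcases lt_trichotomy r q with h | h | h
    · have := pair_lt y v u1 u2 ψ hψ hψ8 q r (hD r hr) h
      rw [if_neg h.ne]
      linarith
    · subst h
      have := pair_diag y v u1 u2 ψ hψ hψ8 r (hD r hr)
      rw [if_pos rfl]
      have h3 : 0 ≤ 2304 * (ψ r) ^ 2 * (ψ r) ^ 2 := by positivity
      linarith
    · have := pair_lt y v u1 u2 ψ hψ hψ8 r q (hD q hq) h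
      rw [Set.inter_comm (EG y v u1 u2 (ψ r) r)] at this
      rw [if_neg h.ne']
      linarith
  have hsum := Finset.sum_le_sum (fun q hq => Finset.sum_le_sum (hpt q hq))
  refine hsum.trans ?_
  have hc := sum_cc y v u1 u2 ψ hdom hψ hψ8 D hD
  have e : ∑ q ∈ D, ∑ r ∈ D, (2304 * (ψ q) ^ 2 * (ψ r) ^ 2 + cc y v u1 u2 ψ q r +
      cc y v u1 u2 ψ r q + (if r = q then 36 * ψ q ^ 2 else 0))
      = 2304 * (∑ q ∈ D, ψ q ^ 2) ^ 2 + ∑ q ∈ D, ∑ r ∈ D, cc y v u1 u2 ψ q r +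
        ∑ q ∈ D, ∑ r ∈ D, cc y v u1 u2 ψ q r + 36 * ∑ q ∈ D, ψ q ^ 2 := by
    have e1 : ∑ q ∈ D, ∑ r ∈ D, cc y v u1 u2 ψ r q = ∑ q ∈ D, ∑ r ∈ D, cc y v u1 u2 ψ q r :=
      Finset.sum_comm
    have e2 : ∑ q ∈ D, ∑ r ∈ D, (if r = q then 36 * ψ q ^ 2 else 0)
        = 36 * ∑ q ∈ D, ψ q ^ 2 := by
      rw [Finset.mul_sum]
      apply Finset.sum_congr rfl
      intro q hq
      rw [Finset.sum_ite_eq' D q (fun _ => 36 * ψ q ^ 2), if_pos hq]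
    have e3 : ∑ q ∈ D, ∑ r ∈ D, 2304 * (ψ q) ^ 2 * (ψ r) ^ 2
        = 2304 * (∑ q ∈ D, ψ q ^ 2) ^ 2 := by
      rw [sq, Finset.sum_mul_sum, Finset.mul_sum]
      apply Finset.sum_congr rfl
      intro q _
      rw [Finset.mul_sum]
      apply Finset.sum_congr rfl
      intro r _
      ring
    simp only [Finset.sum_add_distrib]
    rw [e1, e2, e3]
  rw [e]
  linarith

end

end Pool.Agent.Y668.KH
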