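import Pool.Agent.Y668.KH4

set_option autoImplicit false

namespace Pool.Agent.Y668.KH

open MeasureTheory

/-- Elements of an integer interval in a residue class. -/
theorem card_class (A B : ℤ) (d v : ℕ) (u : ℤ) (hd : 1 ≤ d) (hco : Nat.Coprime v d) (l : ℝ)
    (hl0 : 0 ≤ l) (hl : ((B - A : ℤ) : ℝ) ≤ l) :
    (((Finset.Icc A B).filter (fun a => (d:ℤ) ∣ v * a + u)).card : ℝ) ≤ l / d + 1 := by
  have hdZ : (0:ℤ) < d := by exact_mod_cast hd
  have hdR : (0:ℝ) < d := by exact_mod_cast hd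
  rcases lt_or_ge B A with hBA | hAB
  · rw [Finset.Icc_eq_empty (by omega), Finset.filter_empty, Finset.card_empty]
    push_cast
    positivity
  · have hinj : Set.InjOn (fun a : ℤ => (a - A) / (d:ℤ))
        ((Finset.Icc A B).filter (fun a => (d:ℤ) ∣ v * a + u) : Set ℤ) := by
      intro a ha a' ha' hh
      rw [Finset.mem_coe, Finset.mem_filter] at ha ha'
      have h1 : (d:ℤ) ∣ v * (a - a') := by
        have := dvd_sub ha.2 ha'.2
        have e : (v:ℤ) * a + u - (v * a' + u) = v * (a - a') := by ring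
        rwa [e] at this
      have h2 : (d:ℤ) ∣ a - a' :=
        IsCoprime.dvd_of_dvd_mul_left (Nat.isCoprime_iff_coprime.mpr hco.symm) h1
      simp only at hh
      have h5 := Int.mul_ediv_add_emod (a - A) d
      have h6 := Int.mul_ediv_add_emod (a' - A) d
      have h7 := Int.emod_nonneg (a - A) hdZ.ne'
      have h8 := Int.emod_nonneg (a' - A) hdZ.ne'
      have h9 := Int.emod_lt_of_pos (a - A) hdZ
      have h10 := Int.emod_lt_of_pos (a' - A) hdZ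
      rw [hh] at h5
      have h11 : |a - a'| < d := by
        rw [abs_lt]; constructor <;> linarith
      have h12 : a - a' = 0 := Int.eq_zero_of_abs_lt_dvd h2 h11
      linarith
    have hmaps : Set.MapsTo (fun a : ℤ => (a - A) / (d:ℤ))
        ((Finset.Icc A B).filter (fun a => (d:ℤ) ∣ v * a + u) : Set ℤ)
        (Finset.Icc 0 ((B - A) / (d:ℤ)) : Finset ℤ) := by
      intro a ha
      rw [Finset.mem_coe, Finset.mem_filter, Finset.mem_Icc] at ha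
      rw [Finset.mem_coe, Finset.mem_Icc]
      exact ⟨Int.ediv_nonneg (by linarith [ha.1.1]) hdZ.le,
        Int.ediv_le_ediv hdZ (by linarith [ha.1.2])⟩
    have hc := Finset.card_le_card_of_injOn _ hmaps hinj
    rw [Int.card_Icc] at hc
    have h0 : 0 ≤ (B - A) / (d:ℤ) := Int.ediv_nonneg (by linarith) hdZ.le
    have hc2 : ((((Finset.Icc A B).filter (fun a => (d:ℤ) ∣ v * a + u)).card : ℕ) : ℤ)
        ≤ (B - A) / (d:ℤ) + 1 := by
      have e : (((((B - A) / (d:ℤ)) + 1 - 0).toNat : ℕ) : ℤ) = (B - A) / (d:ℤ) + 1 := by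
        rw [Int.toNat_of_nonneg (by linarith)]; ring
      rw [← e]; exact_mod_cast hc
    have hc3 : ((((Finset.Icc A B).filter (fun a => (d:ℤ) ∣ v * a + u)).card : ℕ) : ℝ)
        ≤ (((B - A) / (d:ℤ) : ℤ) : ℝ) + 1 := by exact_mod_cast hc2
    have h13 : (((B - A) / (d:ℤ) : ℤ) : ℝ) ≤ l / d := by
      rw [le_div_iff₀ hdR]
      have h14 : (B - A) / (d:ℤ) * d ≤ B - A := Int.ediv_mul_le _ hdZ.ne'
      have h15 : (((B - A) / (d:ℤ) : ℤ) : ℝ) * d ≤ ((B - A : ℤ) : ℝ) := by exact_mod_cast h14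
      linarith
    linarith

theorem sum_inv_sq (q : ℕ) : ∑ d ∈ q.divisors.filter (fun d => 2 ≤ d), ((d:ℝ) ^ 2)⁻¹ ≤ 3 / 4 := by
  have hsub : q.divisors.filter (fun d => 2 ≤ d) ⊆ insert 2 (Finset.Ioc 2 (q + 2)) := by
    intro d hd
    rw [Finset.mem_filter] at hd
    have hdq := Nat.divisor_le hd.1
    rw [Finset.mem_insert, Finset.mem_Ioc]
    omega
  calc ∑ d ∈ q.divisors.filter (fun d => 2 ≤ d), ((d:ℝ) ^ 2)⁻¹
      ≤ ∑ d ∈ insert 2 (Finset.Ioc 2 (q + 2)), ((d:ℝ) ^ 2)⁻¹ :=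
        Finset.sum_le_sum_of_subset_of_nonneg hsub (fun _ _ _ => by positivity)
    _ = (((2:ℕ):ℝ) ^ 2)⁻¹ + ∑ d ∈ Finset.Ioc 2 (q + 2), ((d:ℝ) ^ 2)⁻¹ := by
        rw [Finset.sum_insert (by simp)]
    _ ≤ (((2:ℕ):ℝ) ^ 2)⁻¹ + (((2:ℕ):ℝ)⁻¹ - ((q + 2 : ℕ):ℝ)⁻¹) := by
        have := sum_Ioc_inv_sq_le_sub (α := ℝ) (k := 2) (n := q + 2) (by norm_num) (by omega)
        linarith
    _ ≤ 3 / 4 := by
        have h0 : 0 ≤ ((q + 2 : ℕ):ℝ)⁻¹ := by positivity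
        have h1 : (((2:ℕ):ℝ) ^ 2)⁻¹ = 1 / 4 := by norm_num
        have h2 : ((2:ℕ):ℝ)⁻¹ = 1 / 2 := by norm_num
        rw [h1, h2]
        linarith

/-- Half open grid box. -/
def Bx (N : ℕ) (j : ℤ × ℤ) : Set (ℝ × ℝ) :=
  Set.Ico ((j.1:ℝ) / N) ((j.1 + 1) / N) ×ˢ Set.Ico ((j.2:ℝ) / N) ((j.2 + 1) / N)

theorem card_Icc_ge (c l t : ℝ) :
    l - 2 * t - 1 ≤ ((Finset.Icc ⌈c + t⌉ ⌊c + l - t⌋).card : ℝ) := by
  rw [Int.card_Icc]
  have h1 : ((⌊c + l - t⌋ + 1 - ⌈c + t⌉ : ℤ) : ℝ) ≤ ((⌊c + l - t⌋ + 1 - ⌈c + t⌉).toNat : ℝ) := by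
    have := Int.self_le_toNat (⌊c + l - t⌋ + 1 - ⌈c + t⌉)
    exact_mod_cast this
  refine le_trans ?_ h1
  push_cast
  have h3 := Int.lt_floor_add_one (c + l - t)
  have h4 := Int.ceil_lt_add_one (c + t)
  linarith

/-- Count of good witnesses. -/
theorem card_good (y : ℝ × ℝ) (v : ℕ → ℕ) (u1 u2 : ℕ → ℤ) (hdom : IsDom y v u1 u2)
    (N q : ℕ) (hN : 0 < N) (hq : 176 * N ^ 2 ≤ q) (t c1 c2 : ℝ) (ht0 : 0 ≤ t) (ht : t ≤ 1 / 8) :
    ∃ G : Finset (ℤ × ℤ), (∀ a ∈ G, c1 + t ≤ a.1 ∧ a.1 ≤ c1 + (q:ℝ) / N - t ∧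
      c2 + t ≤ a.2 ∧ a.2 ≤ c2 + (q:ℝ) / N - t ∧
      ∀ d : ℕ, 2 ≤ d → d ∣ q → ¬ ((d:ℤ) ∣ v d * a.1 + u1 d ∧ (d:ℤ) ∣ v d * a.2 + u2 d)) ∧
      1 / 16 * ((q:ℝ) / N) ^ 2 ≤ G.card := by
  classical
  have hNR : (0:ℝ) < N := by exact_mod_cast hN
  have hN1 : (1:ℝ) ≤ N := by exact_mod_cast hN
  have hqR : 176 * (N:ℝ) ^ 2 ≤ q := by exact_mod_cast hq
  have hq0 : (0:ℝ) < q := by nlinarith
  have hq0' : q ≠ 0 := by
    intro h; rw [h] at hq0; norm_num at hq0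
  set ξ : ℝ := (q:ℝ) / N with hξ
  have hξ0 : 0 < ξ := by positivity
  have hξq : ξ ≤ q := by
    rw [hξ, div_le_iff₀ hNR]; nlinarith
  have hξN : ξ * N = q := by rw [hξ]; field_simp
  have hξ176 : 176 ≤ ξ := by
    rw [hξ, le_div_iff₀ hNR]; nlinarith
  have hξsq : 11 * (q:ℝ) ≤ ξ ^ 2 / 16 := by
    have : ξ ^ 2 / 16 = q * (q / (16 * N ^ 2)) := by rw [hξ]; field_simp
    rw [this]
    have h2 : 11 ≤ (q:ℝ) / (16 * N ^ 2) := by
      rw [le_div_iff₀ (by positivity)]; linarith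
    nlinarith
  set X1 : Finset ℤ := Finset.Icc ⌈c1 + t⌉ ⌊c1 + ξ - t⌋ with hX1
  set X2 : Finset ℤ := Finset.Icc ⌈c2 + t⌉ ⌊c2 + ξ - t⌋ with hX2
  set Ds : Finset ℕ := q.divisors.filter (fun d => 2 ≤ d) with hDs
  set P : ℤ × ℤ → Prop := fun a => ∀ d : ℕ, 2 ≤ d → d ∣ q →
    ¬ ((d:ℤ) ∣ v d * a.1 + u1 d ∧ (d:ℤ) ∣ v d * a.2 + u2 d) with hPdef
  refine ⟨(X1 ×ˢ X2).filter P, ?_, ?_⟩
  · intro a ha
    rw [Finset.mem_filter, Finset.mem_product, hX1, hX2, Finset.mem_Icc, Finset.mem_Icc,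
      Int.ceil_le, Int.ceil_le, Int.le_floor, Int.le_floor] at ha
    exact ⟨ha.1.1.1, ha.1.1.2, ha.1.2.1, ha.1.2.2, ha.2⟩
  · have hcov : X1 ×ˢ X2 ⊆ (X1 ×ˢ X2).filter P ∪ Ds.biUnion (fun d =>
        (X1.filter (fun a => (d:ℤ) ∣ v d * a + u1 d)) ×ˢ
        (X2.filter (fun a => (d:ℤ) ∣ v d * a + u2 d))) := by
      intro a ha
      rw [Finset.mem_union]
      by_cases h : P a
      · left; rw [Finset.mem_filter]; exact ⟨ha, h⟩
      · right
        simp only [hPdef] at h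
        push Not at h
        obtain ⟨d, h1, h2, h3, h4⟩ := h
        rw [Finset.mem_product] at ha
        rw [Finset.mem_biUnion]
        refine ⟨d, ?_, ?_⟩
        · rw [hDs, Finset.mem_filter, Nat.mem_divisors]; exact ⟨⟨h2, hq0'⟩, h1⟩
        · rw [Finset.mem_product, Finset.mem_filter, Finset.mem_filter]
          exact ⟨⟨ha.1, h3⟩, ha.2, h4⟩
    have hcard := (Finset.card_le_card hcov).trans
      ((Finset.card_union_le _ _).trans (Nat.add_le_add_left Finset.card_biUnion_le _))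
    rw [Finset.card_product] at hcard
    have hcardR : (X1.card : ℝ) * X2.card ≤ (((X1 ×ˢ X2).filter P).card : ℝ) +
        ∑ d ∈ Ds, ((X1.filter (fun a => (d:ℤ) ∣ v d * a + u1 d)).card : ℝ) *
        ((X2.filter (fun a => (d:ℤ) ∣ v d * a + u2 d)).card : ℝ) := by
      simp only [Finset.card_product] at hcard
      exact_mod_cast hcard
    have hlen : ∀ c : ℝ, ((⌊c + ξ - t⌋ - ⌈c + t⌉ : ℤ) : ℝ) ≤ ξ := by
      intro c
      push_cast
      have h3 := Int.floor_le (c + ξ - t)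
      have h4 := Int.le_ceil (c + t)
      linarith
    have hbad : ∑ d ∈ Ds, ((X1.filter (fun a => (d:ℤ) ∣ v d * a + u1 d)).card : ℝ) *
        ((X2.filter (fun a => (d:ℤ) ∣ v d * a + u2 d)).card : ℝ) ≤ 7 / 8 * ξ ^ 2 + 7 * q := by
      calc ∑ d ∈ Ds, ((X1.filter (fun a => (d:ℤ) ∣ v d * a + u1 d)).card : ℝ) *
            ((X2.filter (fun a => (d:ℤ) ∣ v d * a + u2 d)).card : ℝ)
          ≤ ∑ d ∈ Ds, (7 / 6 * ξ ^ 2 * ((d:ℝ) ^ 2)⁻¹ + 7) := by
            apply Finset.sum_le_sum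
            intro d hd
            rw [hDs, Finset.mem_filter] at hd
            obtain ⟨_, _, hvco, _⟩ := hdom d hd.2
            have hdR : (0:ℝ) < d := by exact_mod_cast (by omega : 0 < d)
            have e1 := card_class ⌈c1 + t⌉ ⌊c1 + ξ - t⌋ d (v d) (u1 d) (by omega) hvco ξ hξ0.le
              (hlen c1)
            have e2 := card_class ⌈c2 + t⌉ ⌊c2 + ξ - t⌋ d (v d) (u2 d) (by omega) hvco ξ hξ0.le
              (hlen c2)
            have e3 := mul_le_mul e1 e2 (Nat.cast_nonneg _) (by positivity)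
            refine e3.trans ?_
            have e4 : 7 / 6 * ξ ^ 2 * ((d:ℝ) ^ 2)⁻¹ = 7 / 6 * (ξ / d) ^ 2 := by
              field_simp
            rw [e4]
            nlinarith [sq_nonneg (ξ / d - 6)]
        _ = 7 / 6 * ξ ^ 2 * ∑ d ∈ Ds, ((d:ℝ) ^ 2)⁻¹ + 7 * Ds.card := by
            rw [Finset.sum_add_distrib, ← Finset.mul_sum, Finset.sum_const, nsmul_eq_mul]
            ring
        _ ≤ 7 / 6 * ξ ^ 2 * (3 / 4) + 7 * q := by
            have h5 := sum_inv_sq q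
            have h6 : (Ds.card : ℝ) ≤ q := by
              have : Ds.card ≤ q :=
                (Finset.card_filter_le _ _).trans (Nat.card_divisors_le_self q)
              exact_mod_cast this
            have h7 : 7 / 6 * ξ ^ 2 * ∑ d ∈ Ds, ((d:ℝ) ^ 2)⁻¹ ≤ 7 / 6 * ξ ^ 2 * (3 / 4) :=
              mul_le_mul_of_nonneg_left h5 (by positivity)
            linarith
        _ = 7 / 8 * ξ ^ 2 + 7 * q := by ring
    have h8 : ξ - 2 ≤ (X1.card : ℝ) := by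
      have := card_Icc_ge c1 ξ t
      linarith
    have h9 : ξ - 2 ≤ (X2.card : ℝ) := by
      have := card_Icc_ge c2 ξ t
      linarith
    have h10 : (ξ - 2) * (ξ - 2) ≤ (X1.card : ℝ) * X2.card :=
      mul_le_mul h8 h9 (by linarith) (by positivity)
    nlinarith

/-- First moment in a grid box. -/
theorem first_moment (y : ℝ × ℝ) (v : ℕ → ℕ) (u1 u2 : ℕ → ℤ) (hdom : IsDom y v u1 u2)
    (N q : ℕ) (hN : 0 < N) (hq : 176 * N ^ 2 ≤ q) (t : ℝ) (ht0 : 0 ≤ t) (ht : t ≤ 1 / 8)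
    (j : ℤ × ℤ) :
    ENNReal.ofReal (t ^ 2 / (4 * N ^ 2)) ≤ volume (EG y v u1 u2 t q ∩ Bx N j) := by
  have hNR : (0:ℝ) < N := by exact_mod_cast hN
  have hqR : 176 * (N:ℝ) ^ 2 ≤ q := by exact_mod_cast hq
  have hq0 : (0:ℝ) < q := by nlinarith [sq_nonneg (N:ℝ)]
  obtain ⟨G, hG, hcard⟩ := card_good y v u1 u2 hdom N q hN hq t ((q:ℝ) * (j.1 / N) - y.1)
    ((q:ℝ) * (j.2 / N) - y.2) ht0 ht
  let Q : ℤ × ℤ → Set (ℝ × ℝ) := fun a =>
    Set.Ioo ((a.1 + y.1 - t) / q) ((a.1 + y.1 + t) / q) ×ˢ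
    Set.Ioo ((a.2 + y.2 - t) / q) ((a.2 + y.2 + t) / q)
  have hmem : ∀ (x z : ℝ) (a : ℤ), x ∈ Set.Ioo ((a + z - t) / q) ((a + z + t) / q) →
      |(q:ℝ) * x - a - z| < t := by
    intro x z a hx
    rw [Set.mem_Ioo, div_lt_iff₀ hq0, lt_div_iff₀ hq0] at hx
    rw [abs_lt]
    constructor <;> linarith [hx.1, hx.2]
  have hbox : ∀ (x z : ℝ) (a k : ℤ), x ∈ Set.Ioo ((a + z - t) / q) ((a + z + t) / q) →
      (q:ℝ) * (k / N) - z + t ≤ a → a ≤ (q:ℝ) * (k / N) - z + (q:ℝ) / N - t →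
      x ∈ Set.Ico ((k:ℝ) / N) ((k + 1) / N) := by
    intro x z a k hx h1 h2
    obtain ⟨h3, h4⟩ := hx
    constructor
    · refine le_trans ?_ h3.le
      rw [le_div_iff₀ hq0]
      linarith
    · refine lt_of_lt_of_le h4 ?_
      rw [div_le_iff₀ hq0]
      have e : ((k:ℝ) + 1) / N * q = (q:ℝ) * (k / N) + q / N := by ring
      rw [e]
      linarith
  have hsub : (⋃ a ∈ G, Q a) ⊆ EG y v u1 u2 t q ∩ Bx N j := by
    intro x hx
    simp only [Set.mem_iUnion] at hx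
    obtain ⟨a, ha, hx1, hx2⟩ := hx
    obtain ⟨g1, g2, g3, g4, g5⟩ := hG a ha
    exact ⟨⟨a.1, a.2, hmem _ _ _ hx1, hmem _ _ _ hx2, g5⟩, hbox _ _ _ _ hx1 g1 g2,
      hbox _ _ _ _ hx2 g3 g4⟩
  have hdisj : Set.PairwiseDisjoint (G : Set (ℤ × ℤ)) Q := by
    intro a _ b _ hab
    rw [Function.onFun, Set.disjoint_left]
    rintro x ⟨h1, h2⟩ ⟨h3, h4⟩
    apply hab
    have huniq : ∀ (x z : ℝ) (a b : ℤ), |(q:ℝ) * x - a - z| < t → |(q:ℝ) * x - b - z| < t →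
        a = b := by
      intro x z a b h5 h6
      have h7 : |((a - b : ℤ) : ℝ)| < 1 := by
        push_cast
        rw [abs_lt] at *
        constructor <;> linarith [h5.1, h5.2, h6.1, h6.2]
      have h8 : |a - b| < 1 := by exact_mod_cast h7
      have := Int.abs_lt_one_iff.mp h8
      linarith
    exact Prod.ext (huniq _ _ _ _ (hmem _ _ _ h1) (hmem _ _ _ h3))
      (huniq _ _ _ _ (hmem _ _ _ h2) (hmem _ _ _ h4))
  have hvolQ : ∀ a ∈ G, volume (Q a) = ENNReal.ofReal ((2 * t / q) ^ 2) := by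
    intro a _
    simp only [Q]
    rw [Measure.volume_eq_prod, Measure.prod_prod, Real.volume_Ioo, Real.volume_Ioo, sq,
      ENNReal.ofReal_mul (by positivity)]
    congr 2 <;> ring
  refine le_trans ?_ (measure_mono hsub)
  rw [measure_biUnion_finset hdisj (fun a _ => (measurableSet_Ioo.prod measurableSet_Ioo)),
    Finset.sum_congr rfl hvolQ, Finset.sum_const, nsmul_eq_mul, ← ENNReal.ofReal_natCast,
    ← ENNReal.ofReal_mul (Nat.cast_nonneg _)]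
  apply ENNReal.ofReal_le_ofReal
  calc t ^ 2 / (4 * N ^ 2) = 1 / 16 * ((q:ℝ) / N) ^ 2 * (2 * t / q) ^ 2 := by
        field_simp; ring
    _ ≤ (G.card : ℝ) * (2 * t / q) ^ 2 := mul_le_mul_of_nonneg_right hcard (by positivity)

end Pool.Agent.Y668.KH
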